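import Pool.Agent.MP_47bb2a_mp.H42.Tens

/-! A transportation inequality for product states. -/

open scoped ComplexOrder MatrixOrder
open Matrix

namespace Pool.Agent.MP_47bb2a_mp.H42

variable {ι A : Type*} [Fintype ι] [DecidableEq ι] [Fintype A] [DecidableEq A]
  {Q : Finset ι} {u : ι}

theorem tens_ins (hu : u ∉ Q) (f g : ι → Matrix A A ℂ) {a : Matrix A A ℂ} (h : a * g u = f u) :
    emb u a * tens (fun i => if i ∈ Q then f i else g i) =
      tens fun i => if i ∈ insert u Q then f i else g i := by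
  rw [emb_mul_tens]
  congr 1
  funext i
  by_cases hi : i = u <;> simp [hi, hu, h]

variable [Nonempty A]

theorem E_emb_one (hu : u ∉ Q) {w : Matrix A A ℂ} (h : w.trace = 1) :
    E Q (emb u ((Fintype.card A : ℝ) • w)) = 1 := by
  rw [emb_rsmul, E_rsmul, E_emb hu, h, one_smul, smul_inv_smul₀ card_pos.ne']

theorem out_tens {w : ι → Matrix A A ℂ} (h : ∀ u, (w u).trace = 1) (R : Finset ι) :
    ∀ Q, Disjoint Q R → Out Q (tens fun i => if i ∈ R then (Fintype.card A : ℝ) • w i else 1) ∧
      E Q (tens fun i => if i ∈ R then (Fintype.card A : ℝ) • w i else 1) = 1 := by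
  induction R using Finset.induction_on with
  | empty => exact fun Q _ => by simp [tens_one, out_one, E_one]
  | insert u R hu ih =>
    intro Q hQ
    obtain ⟨h1, h2⟩ := Finset.disjoint_insert_right.1 hQ
    rw [← tens_ins hu _ _ (mul_one _)]
    refine ⟨(out_emb h1 _).mul (ih Q h2).1, ?_⟩
    rw [← E_tower (Finset.subset_insert u Q), E_mul (alg_emb (Finset.mem_insert_self _ _) _),
      (ih _ (Finset.disjoint_insert_left.2 ⟨hu, h2⟩)).2, mul_one, E_emb_one h1 (h u)]

/-- The product state with the given marginals on `Q`, maximally mixed off `Q`. -/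
noncomputable def prd (Q : Finset ι) (w : ι → Matrix A A ℂ) : Matrix (ι → A) (ι → A) ℂ :=
  tens fun i => if i ∈ Q then w i else (Fintype.card A : ℝ)⁻¹ • 1

theorem prd_ins (hu : u ∉ Q) (w : ι → Matrix A A ℂ) :
    emb u ((Fintype.card A : ℝ) • w u) * prd Q w = prd (insert u Q) w :=
  tens_ins hu _ _ (by simp [smul_smul])

theorem prd_pd {w : ι → Matrix A A ℂ} (h : ∀ u, (w u).PosDef) : (prd Q w).PosDef :=
  tens_pd fun i => by
    split_ifs
    · exact h i
    · exact pd_smul PosDef.one (inv_pos.2 card_pos)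

theorem alg_prd (w : ι → Matrix A A ℂ) : Alg Q (prd Q w) := fun u hu a =>
  tens_comm (by simp [hu])

theorem prd_empty (w : ι → Matrix A A ℂ) :
    prd ∅ w = (Fintype.card (ι → A) : ℝ)⁻¹ • 1 := by
  simp [prd, tens_smul, tens_one]

theorem E_empty (Z : Matrix (ι → A) (ι → A) ℂ) :
    E ∅ Z = Z.trace • (Fintype.card (ι → A) : ℝ)⁻¹ • 1 := by
  obtain ⟨c, hc⟩ := alg_empty (alg_E ∅ Z)
  have h2 : (Fintype.card (ι → A) : ℂ) ≠ 0 := by exact_mod_cast Fintype.card_ne_zero
  rw [← E_trace ∅, hc, trace_smul, trace_one, ← Complex.coe_smul, smul_smul]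
  push_cast
  rw [smul_eq_mul, mul_inv_cancel_right₀ h2]

theorem marton {w : ι → Matrix A A ℂ} (hw : ∀ u, (w u).PosDef) (hw1 : ∀ u, (w u).trace = 1)
    {t L : Matrix (ι → A) (ι → A) ℂ} (ht : t.PosDef) (ht1 : t.trace = 1) {Λ r : ℝ} (hΛ : 0 < Λ)
    (hr : 0 < r) (hL : ∀ u, ∃ L', (∀ a, Commute L' (emb u a)) ∧ -Λ • 1 ≤ L - L' ∧ L - L' ≤ Λ • 1) :
    tr (tens w * L) - tr (t * L) ≤ Λ * (Fintype.card ι * r + D t (tens w) / r) := by
  let P : Finset ι → Matrix (ι → A) (ι → A) ℂ := fun Q =>
    tens fun i => if i ∈ Qᶜ then (Fintype.card A : ℝ) • w i else 1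
  have key : ∀ Q : Finset ι, tr (tens w * L) - tr (P Q * E Q t * L) ≤
      Λ * (Q.card * r + D (E Q t) (prd Q w) / r) := fun Q => by
    induction Q using Finset.induction_on with
    | empty => simp [P, E_empty, prd_empty, ht1, D, tens_smul, smul_smul]
    | insert u Q hu ih =>
      obtain ⟨L', h1, h2, h3⟩ := hL u
      have hF := emb_pd u (pd_smul (hw u) (card_pos (A := A)))
      have hO := out_emb hu ((Fintype.card A : ℝ) • w u)
      have hE := E_emb_one hu (hw1 u)
      have hA := alg_emb (Finset.mem_insert_self u Q) ((Fintype.card A : ℝ) • w u)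
      have eP : P Q = emb u ((Fintype.card A : ℝ) • w u) * P (insert u Q) := by
        rw [tens_ins (by simp) _ _ (mul_one _)]
        simp [P, Finset.compl_insert, hu]
      obtain ⟨o1, o2⟩ : Out (insert u Q) (P (insert u Q)) ∧ E (insert u Q) (P (insert u Q)) = 1 :=
        out_tens hw1 _ _ disjoint_compl_right
      have o3 : 0 ≤ P (insert u Q) := tens_nn fun i => by
        split_ifs
        · exact smul_nn (pd_nn (hw i)) card_pos.le
        · exact one_nn
      have o4 : ∀ a, Commute (P (insert u Q)) (emb u a) := fun a => tens_comm (by simp)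
      rw [← prd_ins hu, chain hO hF (E_pd _ ht) (prd_pd hw) (alg_prd w),
        E_tower (Finset.subset_insert u Q), Finset.card_insert_of_notMem hu]
      rw [eP, ← (o4 _).eq, mul_assoc (P _)] at ih
      generalize P (insert u Q) = R at *
      generalize emb u ((Fintype.card A : ℝ) • w u) = F at *
      have hX := (alg_E (insert u Q) t).sub (hA.mul ((alg_E Q t).mono (Finset.subset_insert u Q)))
      have hc := con_smul hΛ h2 h3
      have c1 : Con (E (insert u Q) (R * Λ⁻¹ • (L - L'))) := by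
        have b1 := E_out_nn o1 o3 hc.add_nn
        have b2 := E_out_nn o1 o3 hc.sub_nn
        rw [mul_add, mul_one, map_add, o2] at b1
        rw [mul_sub, mul_one, map_sub, o2] at b2
        exact ⟨neg_le_iff_add_nonneg'.2 b1, sub_nonneg.1 b2⟩
      have t1 : tr (E (insert u Q) t) = 1 := by rw [tr_E, tr_def, ht1, Complex.one_re]
      have c2 := pins (E_pd (insert u Q) ht) (pd_mul hF (E_pd Q ht) (hO _ (alg_E Q t)))
        (by rw [← tr_E Q (F * _), E_mul' (alg_E Q t), hE, one_mul, tr_E, tr_E]) c1.neg hr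
      have c3 : tr (R * (E (insert u Q) t - F * E Q t) * L') = 0 := by
        rw [tr_comm, ← mul_assoc, tr_def, ← T_trace u,
          (T_mul (fun a => (h1 a).mul_left (o4 a)) _).1, ← E_ins hu hX, map_sub,
          E_tower (Finset.subset_insert u Q), E_mul' (alg_E Q t), hE]
        simp
      rw [neg_mul, map_neg, tr_comm, tr_mul_E hX, t1, ← mul_assoc, ← (o1 _ hX).eq, mul_smul_comm,
        map_smul, mul_sub _ L, map_sub, c3, mul_sub R, sub_mul, map_sub, smul_eq_mul, ← mul_neg,
        inv_mul_le_iff₀ hΛ] at c2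
      push_cast
      rw [add_div]
      linarith
  simpa [P, tens_one, E_alg (Q := Finset.univ) (fun u hu => absurd (Finset.mem_univ u) hu),
    prd] using key Finset.univ

theorem lip {σ : Matrix (ι → A) (ι → A) ℂ} (hσ : σ.PosDef) {δ : ℝ} (hδ : 0 < δ)
    (h : δ • T u σ ≤ σ) : (∀ a, Commute (lg (T u σ)) (emb u a)) ∧
      Real.log δ • (1 : Matrix _ _ ℂ) ≤ lg σ - lg (T u σ) ∧
      lg σ - lg (T u σ) ≤ Real.log ((Fintype.card A : ℝ) ^ 2) • 1 :=
  ⟨fun a => (T_comm u σ a).cfc_real _, le_lg_sub (T_pd u hσ) hδ h,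
    lg_sub_le hσ (T_pd u hσ) (pow_pos card_pos 2) (le_T u (pd_nn hσ))⟩

end Pool.Agent.MP_47bb2a_mp.H42
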