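import Pool.Agent.MP_47bb2a_mp.H42.Loc

/-! The product-vector norm of a tensor product is at most the product of the two-norm
quantities. -/

open scoped ComplexOrder MatrixOrder Kronecker
open Matrix

namespace Pool.Agent.MP_47bb2a_mp.H42

open H97

variable {A B : Type*} [Fintype A] [Fintype B] [DecidableEq A] [DecidableEq B] {c g : ℝ}

theorem nsq_smul {κ : Type*} [Fintype κ] (r : ℝ) (v : κ → ℂ) : nsq (r • v) = r ^ 2 * nsq v := by
  simp [nsq, mul_pow, Finset.mul_sum]

theorem bd_base (hc : 0 < c) : Bd A B c (Real.log c) := fun ι _ _ G h x y => by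
  have := q_le (tens_le (fun i => (h i).nn) fun i => (h i).bd) (pv x y)
  rwa [tens_smul, tens_one, q_rsmul, q_one, nsq_pv, Finset.prod_const, Finset.card_univ,
    ← Real.exp_log hc, ← Real.exp_nat_mul, mul_comm (_ : ℝ) (Real.log c)] at this

theorem Bd.mono (h : Bd A B c g) {g' : ℝ} (hg : g ≤ g') : Bd A B c g' := fun ι _ _ G hG x y =>
  (h ι G hG x y).trans (mul_le_mul_of_nonneg_right (by gcongr)
    (mul_nonneg (nsq_nonneg _) (nsq_nonneg _)))

variable [Nonempty A]

theorem plv (A : Type*) [Fintype A] [DecidableEq A] [Nonempty A] {ε : ℝ} (hε : 0 < ε) :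
    ∃ L : ℕ, 0 < L ∧ ∀ (ι : Type) [Fintype ι] [DecidableEq ι] (m : ℕ), L * m ≤ Fintype.card ι →
      ∀ v : (ι → A) → ℂ, nsq v = 1 → ∀ t : ℝ, 0 < t → t ≤ 1 →
        ∃ (S : Finset ι) (τ : ι → Matrix A A ℂ) (x : (ι → A) → ℂ), m ≤ S.card ∧
          (∀ u, (τ u).PosDef ∧ (τ u).trace = 1) ∧ E S (vecMulVec x (star x)) ≤ prd S τ ∧
            Real.exp (-ε * S.card) - t ≤ (star v ⬝ᵥ x).re := by
  obtain ⟨L, hL, h⟩ := pl A hε
  refine ⟨L, hL, fun ι _ _ m hm v hv t ht ht1 => ?_⟩
  have hd := card_pos (A := ι → A)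
  have t2 : 0 ≤ 1 - t ^ 2 := by nlinarith
  have v0 := (posSemidef_vecMulVec_self_star v).nonneg
  have v1 : tr (vecMulVec v (star v)) = 1 := by
    rw [← one_mul (vecMulVec _ _), tr_def, tr_vecMulVec, q_one, hv]
  obtain ⟨S, τ, X, h1, h2, h3, h4⟩ := h ι m hm ((1 - t ^ 2) • vecMulVec v (star v) +
    (t ^ 2 / Fintype.card (ι → A)) • 1) (PosDef.posSemidef_add (smul_nn v0 t2).posSemidef
      (pd_smul PosDef.one (by positivity)))
    (by rw [map_add, map_smul, map_smul, v1, tr_one, smul_eq_mul, smul_eq_mul]; field_simp; ring)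
  have x0 := (posSemidef_self_mul_conjTranspose X).nonneg
  have x1 := (v0.posSemidef.mul_mul_conjTranspose_same X).nonneg
  simp only [mul_add, add_mul, mul_smul_comm, smul_mul_assoc, mul_one] at h3 h4
  refine ⟨S, τ, (1 - t ^ 2) • X *ᵥ v, h1, h2, le_trans ?_ h3, ?_⟩
  · rw [← sub_nonneg, ← map_sub]
    refine E_nn S (sub_nonneg.2 (le_add_of_le_of_nonneg ?_ (smul_nn x0 (by positivity))))
    rw [star_smul, smul_vecMulVec, vecMulVec_smul, star_mulVec, ← vecMulVec_mul, ← mul_vecMulVec,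
      star_trivial]
    exact smul_le ((le_smul x1 (by nlinarith)).trans_eq (one_smul _ _)) t2
  · have a1 := tr_le h3
    have a2 : tr (prd S τ) = 1 := by
      rw [prd, tr_def, tens_trace, Finset.prod_eq_one fun i _ => by
        split_ifs <;> simp [h2], Complex.one_re]
    have a3 := tr_nn (posSemidef_self_mul_conjTranspose
      (t • X - (1 : Matrix (ι → A) (ι → A) ℂ))).nonneg
    have a4 := tr_nn x1
    rw [tr_E, a2] at a1
    simp only [conjTranspose_sub, conjTranspose_smul, conjTranspose_one, star_trivial, mul_sub,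
      sub_mul, mul_one, one_mul, map_sub, map_smul, map_add, smul_eq_mul, tr_one, tr_ct,
      mul_smul_comm, smul_mul_assoc] at a1 a3 h4
    rw [tr_def (X * vecMulVec _ _), tr_vecMulVec, q] at h4
    rw [dotProduct_smul, Complex.smul_re, smul_eq_mul]
    have a5 : t ^ 2 / Fintype.card (ι → A) * tr X ≤ t := by
      have a6 : t ^ 2 / Fintype.card (ι → A) * tr (X * Xᴴ) ≤ 1 := by nlinarith
      rw [div_mul_eq_mul_div, div_le_iff₀ hd] at a6 ⊢
      nlinarith
    linarith

theorem improve {ε : ℝ} (hε : 0 < ε) : ∃ L : ℕ, 0 < L ∧ ∀ g, 3 * ε ≤ g → Bd A B c g →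
    Bd A B c (g - ε / L) := by
  obtain ⟨L, hL, h⟩ := plv A hε
  have key : ∀ g, 3 * ε ≤ g → Bd A B c g → ∀ (ι : Type) [Fintype ι] [DecidableEq ι] (m : ℕ),
      L * m ≤ Fintype.card ι → ∀ G : ι → Matrix (A × B) (A × B) ℂ, (∀ i, Good c (G i)) → ∀ x y,
      q (tens G) (pv x y) ≤ Real.exp (g * Fintype.card ι - ε * m) * (nsq x * nsq y) := by
    intro g hg hB ι _ _ m hm G hG x y
    let V : Matrix (ι → A × B) (ι → A) ℂ :=
      of fun z w => if w = fun i => (z i).1 then y fun i => (z i).2 else 0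
    have hV : ∀ w, q (tens G) (pv w y) = q (Vᴴ * tens G * V) w := fun w => by
      rw [q_conj]
      congr 1
      funext z
      simp [V, pv, mulVec, dotProduct, mul_comm]
    have hM := ((tens_nn fun i => (hG i).nn).posSemidef.conjTranspose_mul_mul_same V).nonneg
    have x0 := nsq_nonneg x
    have y0 := nsq_nonneg y
    have a0 := form_cs (one_nn (κ := ι → A)) x ((Vᴴ * tens G * V) *ᵥ x)
    rw [one_mulVec, q_one, q_one, ← q, ← hV] at a0
    refine le_of_not_gt fun hlt => ?_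
    have Q0 : 0 < q (tens G) (pv x y) := lt_of_le_of_lt (by positivity) hlt
    have N0 : 0 < nsq ((Vᴴ * tens G * V) *ᵥ x) := by
      by_contra hh
      nlinarith [pow_pos Q0 2]
    have s0 := Real.sqrt_pos.2 N0
    have s2 := Real.sq_sqrt N0.le
    refine hlt.not_ge (le_of_eps (c := 2 * q (tens G) (pv x y)) fun t ht => ?_)
    rcases le_total 1 t with t1 | t1
    · nlinarith [mul_nonneg (Real.exp_pos (g * Fintype.card ι - ε * m)).le (mul_nonneg x0 y0)]
    have e1 : Real.exp (-ε * Fintype.card ι) ≤ 1 :=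
      Real.exp_le_one_iff.2 (by nlinarith [Nat.cast_nonneg (α := ℝ) (Fintype.card ι)])
    obtain ⟨S, τ, x', h1, h2, h3, h4⟩ := h ι m hm
      ((√(nsq ((Vᴴ * tens G * V) *ᵥ x)))⁻¹ • (Vᴴ * tens G * V) *ᵥ x)
      (by rw [nsq_smul, inv_pow, s2, inv_mul_cancel₀ N0.ne']) (t * Real.exp (-ε * Fintype.card ι))
      (by positivity) (mul_le_one₀ t1 (Real.exp_pos _).le e1)
    obtain ⟨X, hX⟩ : ∃ X : Matrix ({i // i ∈ S} → A) ({i // i ∉ S} → A) ℂ, x' = fun z =>
        X (sp (Equiv.sumCompl (· ∈ S)) A z).1 (sp (Equiv.sumCompl (· ∈ S)) A z).2 :=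
      ⟨of fun s r => x' ((sp (Equiv.sumCompl (· ∈ S)) A).symm (s, r)), by simp⟩
    have b1 := cut_le hB (Equiv.sumCompl (· ∈ S)) hG (fun i => h2 i)
      (marg_le S τ X x' hX (fun u => (h2 u).1) h3) y
    have b2 := form_cs hM x x'
    have hS := S.card_le_univ
    rw [← hX, Fintype.card_subtype_compl, Fintype.card_coe, Nat.cast_sub hS] at b1
    rw [star_smul, smul_dotProduct, Complex.smul_re, star_mulVec, ← dotProduct_mulVec,
      hM.posSemidef.1.eq, star_trivial, smul_eq_mul, le_inv_mul_iff₀ s0] at h4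
    rw [← hV, ← hV] at b2
    have hS' : (S.card : ℝ) ≤ Fintype.card ι := by exact_mod_cast hS
    have h1' : (m : ℝ) ≤ S.card := by exact_mod_cast h1
    have e2 : Real.exp (-ε * Fintype.card ι) ≤ Real.exp (-ε * S.card) :=
      Real.exp_le_exp.2 (by nlinarith)
    have e3 : Real.exp (g * (Fintype.card ι - S.card)) ≤
        Real.exp (g * Fintype.card ι - ε * m) * Real.exp (-ε * S.card) ^ 2 := by
      rw [← Real.exp_nat_mul, ← Real.exp_add]
      exact Real.exp_le_exp.2 (by push_cast; nlinarith [Nat.cast_nonneg (α := ℝ) m])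
    have o0 := Real.exp_pos (-ε * S.card)
    have b3 := b1.trans (mul_le_mul_of_nonneg_right e3 y0)
    have b4 : √(nsq ((Vᴴ * tens G * V) *ᵥ x)) * ((1 - t) * Real.exp (-ε * S.card)) ≤ _ :=
      le_trans (mul_le_mul_of_nonneg_left (by nlinarith) s0.le) h4
    have b5 := (pow_le_pow_left₀ (mul_nonneg s0.le (mul_nonneg (sub_nonneg.2 t1) o0.le)) b4 2).trans
      (b2.trans (mul_le_mul_of_nonneg_left b3 Q0.le))
    rw [mul_pow, s2] at b5
    generalize Real.exp (-ε * S.card) = o at *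
    generalize Real.exp (g * Fintype.card ι - ε * m) = k at *
    generalize q (tens G) (pv x y) = Q at *
    have b6 : Q * (1 - t) ^ 2 ≤ k * (nsq x * nsq y) := by
      refine le_of_mul_le_mul_left ?_ (mul_pos Q0 (pow_pos o0 2))
      nlinarith [mul_le_mul_of_nonneg_right a0 (sq_nonneg ((1 - t) * o)),
        mul_le_mul_of_nonneg_left b5 x0]
    nlinarith [mul_nonneg Q0.le (sq_nonneg t)]
  refine ⟨L, hL, fun g hg hB ι _ _ G hG x y => ?_⟩
  have h1 := key g hg hB (Fin L × ι) (Fintype.card ι) (by simp) (fun p => G p.2) (fun p => hG p.2)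
    (fun z => ∏ k, x fun i => z (k, i)) fun z => ∏ k, y fun i => z (k, i)
  have e : pv (fun z : Fin L × ι → A => ∏ k, x fun i => z (k, i))
      (fun z => ∏ k, y fun i => z (k, i)) = fun z => ∏ k, pv x y fun i => z (k, i) :=
    funext fun z => Finset.prod_mul_distrib.symm
  rw [e, q_pow L fun i => (hG i).nn, nsq_pow, nsq_pow] at h1
  refine le_of_pow_le_pow_left₀ hL.ne' (mul_nonneg (Real.exp_pos _).le
    (mul_nonneg (nsq_nonneg _) (nsq_nonneg _))) (h1.trans_eq ?_)
  rw [mul_pow, mul_pow, ← Real.exp_nat_mul, Fintype.card_prod, Fintype.card_fin]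
  congr 2
  push_cast
  field_simp

theorem bd_pos (hc : 0 < c) {ε : ℝ} (hε : 0 < ε) : Bd A B c (3 * ε) := by
  obtain ⟨L, hL, h⟩ := improve (A := A) (B := B) (c := c) hε
  have key : ∀ k : ℕ, Bd A B c (max (3 * ε) (Real.log c - k * (ε / L))) := fun k => by
    have : 0 < ε / L := by positivity
    induction k with
    | zero => exact (bd_base hc).mono (by simp)
    | succ k ih =>
      refine (h _ (le_max_left _ _) ih).mono ?_
      rw [sub_le_iff_le_add, max_le_iff]
      push_cast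
      constructor <;> linarith [le_max_left (3 * ε) (Real.log c - (k + 1) * (ε / L)),
        le_max_right (3 * ε) (Real.log c - (k + 1) * (ε / L))]
  obtain ⟨k, hk⟩ := exists_nat_gt (Real.log c / (ε / L))
  rw [div_lt_iff₀ (by positivity)] at hk
  exact (key k).mono (max_le le_rfl (by linarith))

theorem bd_zero (hc : 0 < c) : Bd A B c 0 := fun ι _ _ G hG x y => by
  have hcont : Continuous fun ε : ℝ => Real.exp (3 * ε * Fintype.card ι) * (nsq x * nsq y) := by
    fun_prop
  simpa using ge_of_tendsto (hcont.tendsto 0 |>.mono_left nhdsWithin_le_nhds)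
    (eventually_nhdsWithin_of_forall (s := Set.Ioi 0) fun ε hε => bd_pos hc hε ι G hG x y)

/-- Theorem M for families. -/
theorem thmM_family {ι : Type} [Fintype ι] [DecidableEq ι] (G : ι → Matrix (A × B) (A × B) ℂ)
    (hG : ∀ i, (G i).PosSemidef) (hN : ∀ i (a : Matrix A A ℂ) (b : Matrix B B ℂ), a.PosDef →
      b.PosDef → (a ⊗ₖ b * G i * a ⊗ₖ b * G i).trace.re ≤ (a * a).trace.re * (b * b).trace.re)
    (x : (ι → A) → ℂ) (y : (ι → B) → ℂ) : q (tens G) (pv x y) ≤ nsq x * nsq y := by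
  have h0 : 0 ≤ ∑ i, N1 (G i) := Finset.sum_nonneg fun i _ => N1_nonneg _
  have := bd_zero (A := A) (B := B) (c := ∑ i, N1 (G i) + 1) (by linarith) ι G (fun i =>
    ⟨(hG i).nonneg, (psd_of_q ((pd_smul PosDef.one (add_pos_of_nonneg_of_pos h0 one_pos)).1.sub (hG i).1) fun v => by
      rw [q_sub, q_rsmul, q_one, sub_nonneg]
      exact (q_le_N1 _ v).trans (mul_le_mul_of_nonneg_right (le_add_of_le_of_nonneg
        (Finset.single_le_sum (fun i _ => N1_nonneg (G i)) (Finset.mem_univ i)) zero_le_one)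
        (nsq_nonneg v)) :), hN i⟩) x y
  simpa using this

/-- Theorem M. -/
theorem thmM (G : Matrix (A × B) (A × B) ℂ) (hG : G.PosSemidef)
    (hN : ∀ (a : Matrix A A ℂ) (b : Matrix B B ℂ), a.PosDef → b.PosDef →
      (a ⊗ₖ b * G * a ⊗ₖ b * G).trace.re ≤ (a * a).trace.re * (b * b).trace.re) (n : ℕ)
    (x : (Fin n → A) → ℂ) (y : (Fin n → B) → ℂ) :
    q (tp n G) (fun z => x (fun i => (z i).1) * y fun i => (z i).2) ≤ nsq x * nsq y :=
  thmM_family (fun _ => G) (fun _ => hG) (fun _ => hN) x y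

end Pool.Agent.MP_47bb2a_mp.H42
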