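import Pool.Agent.MP_47bb2a_mp.H42.Dom

/-! Joint convexity of the relative entropy. -/

open scoped ComplexOrder MatrixOrder Kronecker Topology
open Matrix Filter

namespace Pool.Agent.MP_47bb2a_mp.H42

open H97

variable {κ : Type*} [Fintype κ] [DecidableEq κ] {X X' W W' : Matrix κ κ ℂ}

theorem gm_le {P Q P' Q' a a' b : Matrix κ κ ℂ} {s t : ℝ} (hs : 0 ≤ s) (ht : 0 ≤ t) (hP : Pᴴ = P)
    (hQ : Qᴴ = Q) (hP' : P'ᴴ = P') (hQ' : Q'ᴴ = Q') (h : 0 ≤ P * Q) (h' : 0 ≤ P' * Q')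
    (ha : aᴴ = a) (ha' : 0 ≤ a') (hb : 0 ≤ b) (h1 : a * a' = 1) (h2 : Commute a' b)
    (h3 : a * a = s • (P * P) + t • (P' * P')) (h4 : s • (Q * Q) + t • (Q' * Q') ≤ b * b) :
    s • (P * Q) + t • (P' * Q') ≤ a * b := by
  have c1 : Q * P = P * Q := by simpa [hP, hQ] using h.posSemidef.1.eq
  have c2 : Q' * P' = P' * Q' := by simpa [hP', hQ'] using h'.posSemidef.1.eq
  have y0 := add_nonneg (smul_nn h hs) (smul_nn h' ht)
  have key : ∀ Z : Matrix κ κ ℂ, (s • (P * Q) + t • (P' * Q')) * Z +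
      Zᴴ * (s • (P * Q) + t • (P' * Q')) ≤ b * b + Zᴴ * (a * a) * Z := fun Z => by
    refine le_trans ?_ (add_le_add_left h4 _)
    rw [← sub_nonneg]
    refine (add_nonneg (smul_nn (posSemidef_conjTranspose_mul_self (Q - P * Z)).nonneg hs)
      (smul_nn (posSemidef_conjTranspose_mul_self (Q' - P' * Z)).nonneg ht)).trans_eq ?_
    simp only [h3, conjTranspose_sub, conjTranspose_mul, hP, hQ, hP', hQ', mul_sub, sub_mul,
      mul_add, add_mul, smul_mul_assoc, mul_smul_comm, ← mul_assoc, c1, c2]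
    simp only [mul_assoc]
    module
  generalize s • (P * Q) + t • (P' * Q') = Y at *
  have h1' := mul_eq_one_comm.1 h1
  have hY := y0.posSemidef.1.eq
  have ha'' := ha'.posSemidef.1.eq
  have k1 := key (a' * a' * Y)
  have e1 : (a' * a' * Y)ᴴ * (a * a) * (a' * a' * Y) = Y * (a' * a' * Y) := by
    simp only [conjTranspose_mul, hY, ha'', mul_assoc, ← mul_assoc a' a, h1', one_mul]
  rw [e1, add_comm (b * b), add_le_add_iff_left] at k1
  have k2 := le_of_sq_le (y0.posSemidef.mul_mul_conjTranspose_same a').nonneg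
    (h2.mul_nonneg ha' hb) (by
      have := conj_le k1 a'
      simp only [conjTranspose_mul, hY, ha'', mul_assoc] at this ⊢
      rwa [h2.eq])
  have k3 := conj_le k2 a
  rw [h2.eq] at k3
  simpa only [ha, ha'', mul_assoc, ← mul_assoc a a', h1, h1', one_mul, mul_one] using k3

/-- Real powers. -/
noncomputable def pw (r : ℝ) (X : Matrix κ κ ℂ) : Matrix κ κ ℂ :=
  cfc (fun x => Real.exp (r * Real.log x)) X

theorem pw_add (r s : ℝ) (X : Matrix κ κ ℂ) : pw r X * pw s X = pw (r + s) X := by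
  rw [pw, pw, ← cfc_mul _ _ _ (cont _ _) (cont _ _)]
  simp only [pw, add_mul, Real.exp_add]

theorem pw_psd (r : ℝ) (X : Matrix κ κ ℂ) : (pw r X).PosSemidef :=
  (cfc_nonneg fun _ _ => (Real.exp_pos _).le).posSemidef

theorem pw_zero (h : X.PosDef) : pw 0 X = 1 := by
  simpa [pw] using cfc_const_one ℝ X h.1.isSelfAdjoint

theorem pw_one (h : X.PosDef) : pw 1 X = X :=
  (cfc_congr fun x hx => by
    rw [one_mul, Real.exp_log ((isStrictlyPositive_iff_posDef.2 h).spectrum_pos hx)]).trans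
    (cfc_id' ℝ X h.1.isSelfAdjoint)

theorem lieb_dyadic (hX : X.PosDef) (hX' : X'.PosDef) (hW : W.PosDef) (hW' : W'.PosDef) {s t : ℝ}
    (hs : 0 < s) (ht : 0 < t) (k : ℕ) :
    s • pw (1 - (1 / 2) ^ k) X ⊗ₖ (pw ((1 / 2) ^ k) W)ᵀ +
      t • pw (1 - (1 / 2) ^ k) X' ⊗ₖ (pw ((1 / 2) ^ k) W')ᵀ ≤
      pw (1 - (1 / 2) ^ k) (s • X + t • X') ⊗ₖ (pw ((1 / 2) ^ k) (s • W + t • W'))ᵀ := by
  have h1 := (pd_smul hX hs).add (pd_smul hX' ht)
  have h2 := (pd_smul hW hs).add (pd_smul hW' ht)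
  induction k with
  | zero => simp [pw_zero, pw_one, hX, hX', hW, hW', h1, h2, kronecker_add, kronecker_smul]
  | succ k ih =>
    have l : ∀ (r : ℝ) (X : Matrix κ κ ℂ), (pw r X ⊗ₖ (1 : Matrix κ κ ℂ)).PosSemidef :=
      fun r X => (pw_psd r X).kronecker PosSemidef.one
    have r : ∀ (r r' : ℝ) (X W : Matrix κ κ ℂ), (pw r X ⊗ₖ (pw r' W)ᵀ).PosSemidef :=
      fun r r' X W => (pw_psd r X).kronecker (pw_psd r' W).transpose
    have e : ∀ X W : Matrix κ κ ℂ, pw (1 - (1 / 2) ^ (k + 1)) X ⊗ₖ (pw ((1 / 2) ^ (k + 1)) W)ᵀ =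
        pw (1 / 2) X ⊗ₖ 1 * pw (1 / 2 - (1 / 2) ^ (k + 1)) X ⊗ₖ (pw ((1 / 2) ^ (k + 1)) W)ᵀ :=
      fun X W => by
        rw [← mul_kronecker_mul, one_mul, pw_add]
        congr 2
        ring
    have e1 : (1 / 2 : ℝ) - (1 / 2) ^ (k + 1) + (1 / 2 - (1 / 2) ^ (k + 1)) = 1 - (1 / 2) ^ k := by
      ring
    have e2 : (1 / 2 : ℝ) ^ (k + 1) + (1 / 2) ^ (k + 1) = (1 / 2) ^ k := by ring
    have p := fun X W : Matrix κ κ ℂ => ((r _ _ X W).nonneg).trans_eq (e X W)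
    rw [e, e, e]
    refine gm_le hs.le ht.le (l _ _).1 (r _ _ _ _).1 (l _ _).1 (r _ _ _ _).1 (p _ _) (p _ _)
      (l _ _).1 (l (-(1 / 2)) (s • X + t • X')).nonneg (r _ _ _ _).nonneg ?_ ?_ ?_ ?_
    · rw [← mul_kronecker_mul, pw_add, add_neg_cancel, pw_zero h1, one_mul, one_kronecker_one]
    · simp [Commute, SemiconjBy, ← mul_kronecker_mul, pw_add, add_comm]
    · simp only [← mul_kronecker_mul, pw_add, add_halves, pw_one h1, pw_one hX, pw_one hX',
        add_kronecker, smul_kronecker]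
    · simpa only [← mul_kronecker_mul, ← transpose_mul, pw_add, e1, e2] using ih

theorem D_deriv (hX : X.PosDef) (hW : W.PosDef) :
    HasDerivAt (fun r : ℝ => tr (pw (1 - r) X * pw r W)) (-D X W) 0 := by
  obtain ⟨P, -, hP⟩ := spec2 hX.1 hW.1
  have a3 := hP (fun x => x * Real.log x) fun _ => 1
  have a4 := hP (fun x => x) Real.log
  rw [cfc_mul _ _ _ (cont _ _) (cont _ _)] at a3
  simp only [cfc_id' ℝ X hX.1.isSelfAdjoint, cfc_const_one ℝ W hW.1.isSelfAdjoint,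
    mul_one] at a3 a4
  simp only [pw, hP]
  rw [D, mul_sub, map_sub, lg, lg, a3, a4, neg_sub]
  simp only [← Finset.sum_sub_distrib]
  refine HasDerivAt.fun_sum fun i _ => HasDerivAt.fun_sum fun j _ => ?_
  have := (((((hasDerivAt_id' (0 : ℝ)).const_sub 1).mul_const (Real.log (hX.1.eigenvalues i))).exp).fun_mul
    (((hasDerivAt_id' (0 : ℝ)).mul_const (Real.log (hW.1.eigenvalues j))).exp)).const_mul (P i j)
  refine this.congr_deriv ?_
  simp only [sub_zero, one_mul, zero_mul, Real.exp_zero, Real.exp_log (hX.eigenvalues_pos i)]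
  ring

/-- Joint convexity. -/
theorem D_convex (hX : X.PosDef) (hX' : X'.PosDef) (hW : W.PosDef) (hW' : W'.PosDef) {s t : ℝ}
    (hs : 0 < s) (ht : 0 < t) :
    D (s • X + t • X') (s • W + t • W') ≤ s * D X W + t * D X' W' := by
  have h1 := (pd_smul hX hs).add (pd_smul hX' ht)
  have h2 := (pd_smul hW hs).add (pd_smul hW' ht)
  have h3 := ((D_deriv h1 h2).fun_sub (((D_deriv hX hW).const_mul s).fun_add
    ((D_deriv hX' hW').const_mul t))).tendsto_slope_zero_right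
  have h4 : Tendsto (fun k : ℕ => (1 / 2 : ℝ) ^ k) atTop (𝓝[>] 0) :=
    tendsto_pow_atTop_nhdsWithin_zero_of_lt_one (by norm_num) (by norm_num)
  have e : ∀ A B : Matrix κ κ ℂ, q (A ⊗ₖ Bᵀ) (fun z => (1 : Matrix κ κ ℂ) z.1 z.2) = tr (A * B) :=
    fun A B => by simp [q_kron, tr_def]
  have h5 := ge_of_tendsto' (h3.comp h4) (b := 0) fun k => by
    have := q_le (lieb_dyadic hX hX' hW hW' hs ht k) fun z => (1 : Matrix κ κ ℂ) z.1 z.2
    rw [q_add, q_rsmul, q_rsmul, e, e, e] at this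
    simp only [Function.comp, zero_add, sub_zero, pw_one h1, pw_one hX, pw_one hX', pw_zero h2,
      pw_zero hW, pw_zero hW', mul_one, map_add, map_smul, smul_eq_mul, sub_self]
    exact mul_nonneg (by positivity) (sub_nonneg.2 this)
  linarith

end Pool.Agent.MP_47bb2a_mp.H42
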