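import Pool.Agent.MP_47bb2a_mp.H42.PL

/-! Cauchy-Schwarz inequalities and regrouping of tensor factors. -/

open scoped ComplexOrder MatrixOrder Kronecker
open Matrix

namespace Pool.Agent.MP_47bb2a_mp.H42

open H97

section
variable {m n κ : Type*} [Fintype m] [Fintype n] [Fintype κ]

theorem q_equiv (e : κ ≃ m) (M : Matrix m m ℂ) (v : m → ℂ) :
    q (M.submatrix e e) (fun z => v (e z)) = q M v := by
  simp only [q, dotProduct, mulVec, submatrix_apply, Pi.star_apply]
  rw [← e.sum_comp]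
  simp only [← e.sum_comp (fun j => M _ j * v j)]

theorem nsq_equiv (e : κ ≃ m) (v : m → ℂ) : nsq (fun z => v (e z)) = nsq v :=
  e.sum_comp fun j => ‖v j‖ ^ 2

theorem trace_equiv (e : κ ≃ m) (M : Matrix m m ℂ) : (M.submatrix e e).trace = M.trace :=
  e.sum_comp (diag M)

theorem q_kron (P : Matrix m m ℂ) (Q : Matrix n n ℂ) (U : Matrix m n ℂ) :
    q (P ⊗ₖ Q) (fun z => U z.1 z.2) = (Uᴴ * P * U * Qᵀ).trace.re := by
  simp only [q, dotProduct, mulVec, trace, diag_apply, mul_apply, Fintype.sum_prod_type,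
    Finset.mul_sum, Finset.sum_mul, kroneckerMap_apply, Pi.star_apply, conjTranspose_apply,
    transpose_apply]
  congr 1
  rw [Finset.sum_comm]
  refine Finset.sum_congr rfl fun j _ => ?_
  rw [Finset.sum_comm]
  conv_rhs => rw [Finset.sum_comm]
  refine Finset.sum_congr rfl fun i' _ => ?_
  rw [Finset.sum_comm]
  exact Finset.sum_congr rfl fun _ _ => Finset.sum_congr rfl fun _ _ => by ring

theorem nsq_mat (U : Matrix m n ℂ) : nsq (fun z : m × n => U z.1 z.2) = (Uᴴ * U).trace.re := by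
  classical
  rw [← q_one, ← one_kronecker_one, q_kron]
  simp

theorem q_conj (M : Matrix m m ℂ) (V : Matrix m n ℂ) (w : n → ℂ) :
    q (Vᴴ * M * V) w = q M (V *ᵥ w) := by
  rw [q, q, star_mulVec, ← mulVec_mulVec, ← mulVec_mulVec, dotProduct_mulVec]

theorem form_cs {M : Matrix m m ℂ} (h : 0 ≤ M) (x y : m → ℂ) :
    (star x ⬝ᵥ M *ᵥ y).re ^ 2 ≤ q M x * q M y := by
  obtain ⟨C, rfl⟩ := exists_ct h.posSemidef
  rw [q_ct_mul, q_ct_mul, ← mulVec_mulVec, dotProduct_mulVec, ← star_mulVec]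
  exact (sq_le_sq' (neg_le.1 ((neg_le_abs _).trans (Complex.abs_re_le_norm _)))
    (Complex.re_le_norm _)).trans (cs _ _)

theorem le_of_eps {a b c : ℝ} (h : ∀ t, 0 < t → a ≤ b + t * c) : a ≤ b := by
  refine le_of_forall_pos_le_add fun t ht => (h (t / (|c| + 1)) (by positivity)).trans ?_
  rw [add_le_add_iff_left, div_mul_eq_mul_div, div_le_iff₀ (by positivity)]
  nlinarith [le_abs_self c]

variable [DecidableEq m] [DecidableEq n]

theorem tr_cs {X Y : Matrix m m ℂ} (hX : Xᴴ = X) (hY : Yᴴ = Y) :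
    tr (X * Y) ^ 2 ≤ tr (X * X) * tr (Y * Y) := by
  have := discrim_le_zero (a := tr (Y * Y)) (b := 2 * tr (X * Y)) (c := tr (X * X)) fun t => by
    have h := tr_nn (posSemidef_conjTranspose_mul_self (X + t • Y)).nonneg
    simp only [conjTranspose_add, conjTranspose_smul, hX, hY, star_trivial, mul_add, add_mul,
      smul_mul_assoc, mul_smul_comm, map_add, map_smul, smul_eq_mul, tr_comm Y X] at h
    linarith
  rw [discrim] at this
  linarith

theorem hcs {P s s' : Matrix m m ℂ} {Q : Matrix n n ℂ} (W : Matrix m n ℂ) (hP : Pᴴ = P)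
    (hQ : Qᴴ = Q) (hs : sᴴ = s) (hs' : s'ᴴ = s') (h : s * s' = 1) : tr (Wᴴ * P * W * Q) ^ 2 ≤
      tr (s * s * P * (s * s) * P) * tr (Wᴴ * (s' * s') * W * Q * (Wᴴ * (s' * s') * W) * Q) := by
  have h' := mul_eq_one_comm.1 h
  have h1 := tr_cs (X := s * P * s) (Y := s' * (W * Q * Wᴴ) * s')
    (by simp [hP, hs, Matrix.mul_assoc]) (by simp [hQ, hs', Matrix.mul_assoc])
  have e1 : tr (s * P * s * (s' * (W * Q * Wᴴ) * s')) = tr (Wᴴ * P * W * Q) := by
    rw [← mul_assoc, tr_comm]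
    simp only [← mul_assoc, h', one_mul]
    rw [mul_assoc P, h, mul_one, tr_def, ← Matrix.mul_assoc, trace_mul_comm, tr_def]
    simp only [Matrix.mul_assoc]
  have e2 : tr (s * P * s * (s * P * s)) = tr (s * s * P * (s * s) * P) := by
    rw [← mul_assoc, tr_comm]
    simp only [mul_assoc]
  have e3 : tr (s' * (W * Q * Wᴴ) * s' * (s' * (W * Q * Wᴴ) * s')) =
      tr (Wᴴ * (s' * s') * W * Q * (Wᴴ * (s' * s') * W) * Q) := by
    rw [← mul_assoc, tr_comm]
    simp only [← Matrix.mul_assoc]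
    rw [tr_def, trace_mul_comm, tr_def]
    simp only [Matrix.mul_assoc]
  rwa [e1, e2, e3] at h1

theorem rest_le {a : Matrix m m ℂ} (ha : a.PosDef) (X : Matrix m n ℂ) (h : X * Xᴴ ≤ a * a) :
    ((Xᴴ * (isq a * isq a) * X)ᴴ * (Xᴴ * (isq a * isq a) * X)).trace.re ≤ (Xᴴ * X).trace.re := by
  have h1 : (isq a * isq a)ᴴ = isq a * isq a := by rw [conjTranspose_mul, isq, cfc_herm]
  have h2 : isq a * isq a * a = 1 := by
    conv_lhs => rw [mul_assoc, ← one_mul (isq a * a), ← (isq_mul ha).1]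
    rw [← (isq_mul ha).1]
    congr 1
    conv_lhs => rw [(isq_mul ha).1, one_mul]
    conv_lhs => enter [2]; rw [← sq_mul (pd_nn ha)]
    rw [← mul_assoc, (isq_mul ha).1, one_mul]
  have h3 := conj_le h (isq a * isq a)
  generalize isq a * isq a = b at *
  rw [h1, ← mul_assoc b a a, h2, one_mul, mul_eq_one_comm.1 h2] at h3
  have h4 := tr_mul_le (posSemidef_self_mul_conjTranspose X).nonneg h3
  rw [mul_one, tr_def, tr_def, trace_mul_comm X, Matrix.mul_assoc, trace_mul_comm] at h4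
  simpa only [conjTranspose_mul, conjTranspose_conjTranspose, h1, Matrix.mul_assoc] using h4

end

variable {ι ι₁ ι₂ A B : Type*}

/-- Product vectors. -/
def pv (x : (ι → A) → ℂ) (y : (ι → B) → ℂ) : (ι → A × B) → ℂ :=
  fun z => x (fun i => (z i).1) * y fun i => (z i).2

/-- Product operators. -/
def ct (X : Matrix (ι₁ → A) (ι₂ → A) ℂ) (Y : Matrix (ι₁ → B) (ι₂ → B) ℂ) :
    Matrix (ι₁ → A × B) (ι₂ → A × B) ℂ :=
  (X ⊗ₖ Y).submatrix (Equiv.arrowProdEquivProdArrow _ _ _) (Equiv.arrowProdEquivProdArrow _ _ _)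

/-- Splitting the sites into two parts. -/
def sp (σ : ι₁ ⊕ ι₂ ≃ ι) (A : Type*) : (ι → A) ≃ (ι₁ → A) × (ι₂ → A) :=
  (σ.symm.arrowCongr (Equiv.refl A)).trans (Equiv.sumArrowEquivProdArrow _ _ _)

theorem ct_ct (X : Matrix (ι₁ → A) (ι₂ → A) ℂ) (Y : Matrix (ι₁ → B) (ι₂ → B) ℂ) :
    (ct X Y)ᴴ = ct Xᴴ Yᴴ := by
  rw [ct, conjTranspose_submatrix, conjTranspose_kronecker, ct]

variable [Fintype ι] [Fintype ι₁] [Fintype ι₂]

theorem tens_sp (σ : ι₁ ⊕ ι₂ ≃ ι) (f : ι → Matrix A A ℂ) : tens f =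
    (tens (fun i => f (σ (.inl i))) ⊗ₖ tens fun i => f (σ (.inr i))).submatrix
      (sp σ A) (sp σ A) := by
  ext x y
  rw [tens, of_apply, ← σ.prod_comp, Fintype.prod_sum_type]
  rfl

theorem tens_kron (f : ι → Matrix A A ℂ) (g : ι → Matrix B B ℂ) :
    tens (fun i => f i ⊗ₖ g i) = ct (tens f) (tens g) := by
  ext x y
  exact Finset.prod_mul_distrib

theorem tens_tr (f : ι → Matrix A B ℂ) : (tens f)ᵀ = tens fun i => (f i)ᵀ := rfl

variable [DecidableEq ι] [DecidableEq ι₁] [DecidableEq ι₂] [Fintype A] [Fintype B]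

theorem ct_mul {ι₃ : Type*} (X : Matrix (ι₁ → A) (ι₂ → A) ℂ) (Y : Matrix (ι₁ → B) (ι₂ → B) ℂ)
    (X' : Matrix (ι₂ → A) (ι₃ → A) ℂ) (Y' : Matrix (ι₂ → B) (ι₃ → B) ℂ) :
    ct X Y * ct X' Y' = ct (X * X') (Y * Y') := by
  rw [ct, ct, submatrix_mul_equiv, ← mul_kronecker_mul, ct]

theorem nsq_pv (x : (ι → A) → ℂ) (y : (ι → B) → ℂ) : nsq (pv x y) = nsq x * nsq y := by
  refine (nsq_equiv (Equiv.arrowProdEquivProdArrow ι _ _) fun z => x z.1 * y z.2).trans ?_
  simp [nsq, Fintype.sum_prod_type, Finset.sum_mul_sum, mul_pow]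

theorem q_sp (σ : ι₁ ⊕ ι₂ ≃ ι) (f : ι → Matrix A A ℂ) (U : Matrix (ι₁ → A) (ι₂ → A) ℂ) :
    q (tens f) (fun z => U (sp σ A z).1 (sp σ A z).2) =
      (Uᴴ * tens (fun i => f (σ (.inl i))) * U * tens fun i => (f (σ (.inr i)))ᵀ).trace.re := by
  rw [tens_sp σ, ← tens_tr, ← q_kron, ← q_equiv (sp σ A)]

theorem dot_tens {κ : Type*} [Fintype κ] (M : Matrix κ κ ℂ) (v : κ → ℂ) :
    (star fun z : ι → κ => ∏ i, v (z i)) ⬝ᵥ tens (fun _ => M) *ᵥ (fun z => ∏ i, v (z i)) =
      (star v ⬝ᵥ M *ᵥ v) ^ Fintype.card ι := by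
  rw [← Finset.card_univ, ← Finset.prod_const]
  simp only [dotProduct, mulVec, tens, of_apply, Pi.star_apply, star_prod, Finset.mul_sum,
    Fintype.prod_sum, Finset.prod_mul_distrib]

theorem q_tens {κ : Type*} [Fintype κ] {M : Matrix κ κ ℂ} (h : M.IsHermitian) (v : κ → ℂ) :
    q (tens fun _ : ι => M) (fun z => ∏ i, v (z i)) = q M v ^ Fintype.card ι := by
  have : star v ⬝ᵥ M *ᵥ v = q M v := Complex.ext rfl (h.im_star_dotProduct_mulVec_self v)
  rw [q, dot_tens, this, ← Complex.ofReal_pow, Complex.ofReal_re]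

variable [DecidableEq A] [DecidableEq B]

theorem ct_one : ct (1 : Matrix (ι → A) (ι → A) ℂ) (1 : Matrix (ι → B) (ι → B) ℂ) = 1 := by
  rw [ct, one_kronecker_one, submatrix_one_equiv]

theorem tens_le {f g : ι → Matrix A A ℂ} (h0 : ∀ i, 0 ≤ f i) (h : ∀ i, f i ≤ g i) :
    tens f ≤ tens g := by
  have key : ∀ s : Finset ι, tens f ≤ tens fun i => if i ∈ s then g i else f i := fun s => by
    induction s using Finset.induction_on with
    | empty => simp
    | insert u s hu ih =>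
      refine ih.trans (sub_nonneg.1 ((tens_nn (f := Function.update
        (fun i => if i ∈ s then g i else f i) u (g u - f u)) fun i => ?_).trans_eq ?_))
      · by_cases hi : i = u
        · simp [hi, h]
        · rw [Function.update_of_ne hi]
          split_ifs
          exacts [(h0 i).trans (h i), h0 i]
      · have e1 : (fun i => if i ∈ insert u s then g i else f i) = Function.update
            (fun i => if i ∈ s then g i else f i) u (g u) := by
          funext i
          by_cases hi : i = u <;> simp [hi]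
        have e2 : (fun i => if i ∈ s then g i else f i) = Function.update
            (fun i => if i ∈ s then g i else f i) u (f u) := by
          funext i
          by_cases hi : i = u <;> simp [hi, hu]
        ext x y
        rw [Matrix.sub_apply, e1]
        conv_rhs => enter [2]; rw [e2]
        simp only [tens_update, Matrix.sub_apply, sub_mul]
  simpa using key Finset.univ

theorem q_pow (L : ℕ) {G : ι → Matrix A A ℂ} (h : ∀ i, 0 ≤ G i) (v : (ι → A) → ℂ) :
    q (tens fun p : Fin L × ι => G p.2) (fun z => ∏ k, v fun i => z (k, i)) =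
      q (tens G) v ^ L := by
  have e : (tens fun p : Fin L × ι => G p.2) = (tens fun _ : Fin L => tens G).submatrix
      (Equiv.curry _ _ _) (Equiv.curry _ _ _) := by
    ext x y
    exact Fintype.prod_prod_type _
  rw [e]
  exact ((q_equiv (Equiv.curry (Fin L) ι A) _ _).trans
    (q_tens (tens_nn h).posSemidef.1 v)).trans (by simp)

theorem nsq_pow (L : ℕ) (v : (ι → A) → ℂ) :
    nsq (fun z : Fin L × ι → A => ∏ k, v fun i => z (k, i)) = nsq v ^ L := by
  simpa only [tens_one, q_one] using q_pow L (G := fun _ : ι => (1 : Matrix A A ℂ))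
    (fun _ => one_nn) v

/-- The marginal of a vector state is dominated by a product. -/
theorem marg_le [Nonempty A] (S : Finset ι) (τ : ι → Matrix A A ℂ)
    (X : Matrix ({i // i ∈ S} → A) ({i // i ∉ S} → A) ℂ) (x : (ι → A) → ℂ)
    (hx : x = fun z => X (sp (Equiv.sumCompl (· ∈ S)) A z).1 (sp (Equiv.sumCompl (· ∈ S)) A z).2)
    (hτ : ∀ u, (τ u).PosDef) (h : E S (vecMulVec x (star x)) ≤ prd S τ) :
    X * Xᴴ ≤ tens fun i : {i // i ∈ S} => τ i := by
  refine (psd_of_q ((tens_pd fun i => hτ _).1.sub (isHermitian_mul_conjTranspose_self X))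
    fun w => ?_ :)
  set e := sp (Equiv.sumCompl (· ∈ S)) A with he
  have h0 := posSemidef_vecMulVec_self_star w
  have h1 : Alg S ((vecMulVec w (star w) ⊗ₖ (1 : Matrix ({i // i ∉ S} → A) _ ℂ)).submatrix e e) :=
    fun u hu a => by
      have : (fun i : {i // i ∈ S} => Function.update (fun _ => (1 : Matrix A A ℂ)) u a
          (Equiv.sumCompl (· ∈ S) (.inl i))) = fun _ => 1 := funext fun i =>
        Function.update_of_ne (fun h : i.1 = u => hu (h ▸ i.2)) _ _
      rw [Commute, SemiconjBy, emb_def, tens_sp (Equiv.sumCompl (· ∈ S)), this, tens_one, ← he,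
        submatrix_mul_equiv, submatrix_mul_equiv, ← mul_kronecker_mul, ← mul_kronecker_mul]
      simp
  have h2 := tr_mul_le ((h0.kronecker PosSemidef.one).submatrix e).nonneg h
  rw [tr_mul_E h1, tr_def, tr_vecMulVec, hx, q_equiv e _ fun z => X z.1 z.2, q_kron, prd,
    tens_sp (Equiv.sumCompl (· ∈ S)), ← he, submatrix_mul_equiv, ← mul_kronecker_mul, tr_def,
    trace_equiv, trace_kronecker, one_mul, tens_trace] at h2
  rw [q_sub, ← tr_vecMulVec, ← tr_vecMulVec, sub_nonneg, trace_mul_comm (tens _),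
    Matrix.mul_assoc, trace_mul_comm]
  have h3 : ∀ i : {i // i ∉ S}, ((i : ι) ∈ S) = False := fun i => eq_false i.2
  simpa [h3] using h2

end Pool.Agent.MP_47bb2a_mp.H42
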