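import Pool.Agent.MP_47bb2a_mp.H97.Defs

/-! The single-copy relative entropy of entanglement. -/

namespace Pool.Agent.MP_47bb2a_mp.H42

open H97

/-- Relative entropy of entanglement of a state on one copy of `AB`. -/
noncomputable def relEntSep1 {A B : Type*} [Fintype A] [Fintype B] [DecidableEq A] [DecidableEq B]
    (ρ : Matrix (A × B) (A × B) ℂ) : EReal :=
  ⨅ τ ∈ Sep1 A B, relEnt ρ τ

end Pool.Agent.MP_47bb2a_mp.H42
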