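import Pool.Agent.MP_47bb2a_mp.H42.ThmM
import Pool.Agent.MP_47bb2a_mp.H97.Sep
import Pool.Agent.MP_47bb2a_mp.H20.Ent

/-! The convex set that dominates symmetric separable states. -/

open scoped ComplexOrder MatrixOrder Kronecker
open Matrix

namespace Pool.Agent.MP_47bb2a_mp.H42

open H97

section
variable {κ : Type*} [Fintype κ] [DecidableEq κ] {X Y G σ : Matrix κ κ ℂ}

theorem sq_sq (h : 0 ≤ X) : sq (X * X) = X := by
  have h1 : 0 ≤ X * X := (Commute.refl X).mul_nonneg h h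
  rw [← CFC.sqrt_unique (sq_mul h1) (sq_nn _), CFC.sqrt_mul_self X h]

open scoped Matrix.Norms.L2Operator in
theorem le_of_sq_le (hX : 0 ≤ X) (hY : 0 ≤ Y) (h : X * X ≤ Y * Y) : X ≤ Y := by
  rw [← CFC.sqrt_mul_self X hX, ← CFC.sqrt_mul_self Y hY]
  exact CFC.sqrt_le_sqrt _ _ h

theorem isq_ct (X : Matrix κ κ ℂ) : (isq X)ᴴ = isq X := cfc_herm _ _

theorem isq_nn (X : Matrix κ κ ℂ) : 0 ≤ isq X :=
  cfc_nonneg fun _ _ => inv_nonneg.2 (Real.sqrt_nonneg _)

/-- Joint concavity of the geometric mean, commuting case. -/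
theorem gm {P Q P' Q' a a' b : Matrix κ κ ℂ} {s t : ℝ} (hs : 0 ≤ s) (ht : 0 ≤ t) (hP : Pᴴ = P)
    (hQ : Qᴴ = Q) (hP' : P'ᴴ = P') (hQ' : Q'ᴴ = Q') (h : 0 ≤ P * Q) (h' : 0 ≤ P' * Q')
    (ha : aᴴ = a) (ha' : 0 ≤ a') (hb : 0 ≤ b) (h1 : a * a' = 1) (h2 : Commute a' b)
    (h3 : a * a = s • (P * P) + t • (P' * P')) (h4 : b * b = s • (Q * Q) + t • (Q' * Q')) :
    s • (P * Q) + t • (P' * Q') ≤ a * b := by
  have c1 : Q * P = P * Q := by simpa [hP, hQ] using h.posSemidef.1.eq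
  have c2 : Q' * P' = P' * Q' := by simpa [hP', hQ'] using h'.posSemidef.1.eq
  have y0 := add_nonneg (smul_nn h hs) (smul_nn h' ht)
  have key : ∀ Z : Matrix κ κ ℂ, (s • (P * Q) + t • (P' * Q')) * Z +
      Zᴴ * (s • (P * Q) + t • (P' * Q')) ≤ b * b + Zᴴ * (a * a) * Z := fun Z => by
    rw [← sub_nonneg]
    refine (add_nonneg (smul_nn (posSemidef_conjTranspose_mul_self (Q - P * Z)).nonneg hs)
      (smul_nn (posSemidef_conjTranspose_mul_self (Q' - P' * Z)).nonneg ht)).trans_eq ?_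
    simp only [h3, h4, conjTranspose_sub, conjTranspose_mul, hP, hQ, hP', hQ', mul_sub, sub_mul,
      mul_add, add_mul, smul_mul_assoc, mul_smul_comm, ← mul_assoc, c1, c2]
    simp only [mul_assoc]
    module
  generalize s • (P * Q) + t • (P' * Q') = Y at *
  have h1' := mul_eq_one_comm.1 h1
  have hY := y0.posSemidef.1.eq
  have ha'' := ha'.posSemidef.1.eq
  have k1 := key (a' * a' * Y)
  have e1 : (a' * a' * Y)ᴴ * (a * a) * (a' * a' * Y) = Y * (a' * a' * Y) := by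
    simp only [conjTranspose_mul, hY, ha'', mul_assoc, ← mul_assoc a' a, h1', one_mul]
  rw [e1, add_comm (b * b), add_le_add_iff_left] at k1
  have k2 := le_of_sq_le (y0.posSemidef.mul_mul_conjTranspose_same a').nonneg
    (h2.mul_nonneg ha' hb) (by
      have := conj_le k1 a'
      simp only [conjTranspose_mul, hY, ha'', mul_assoc] at this ⊢
      rwa [h2.eq])
  have k3 := conj_le k2 a
  rw [h2.eq] at k3
  simpa only [ha, ha'', mul_assoc, ← mul_assoc a a', h1, h1', one_mul, mul_one] using k3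

/-- Concavity of the Wigner-Yanase expression. -/
theorem lieb {ρ ρ' : Matrix κ κ ℂ} (h : ρ.PosDef) (h' : ρ'.PosDef) {s t : ℝ} (hs : 0 ≤ s)
    (ht : 0 ≤ t) (hσ : (s • ρ + t • ρ').PosDef) (hG : Gᴴ = G) :
    s * tr (sq ρ * G * sq ρ * G) + t * tr (sq ρ' * G * sq ρ' * G) ≤
      tr (sq (s • ρ + t • ρ') * G * sq (s • ρ + t • ρ') * G) := by
  have e : ∀ X : Matrix κ κ ℂ, tr (X * G * X * G) = q (X ⊗ₖ 1 * 1 ⊗ₖ Xᵀ) fun z => G z.1 z.2 :=
    fun X => by
      rw [← mul_kronecker_mul, mul_one, one_mul, q_kron, hG, tr_comm]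
      simp only [mul_assoc, tr_def, transpose_transpose]
  have p : ∀ X : Matrix κ κ ℂ, 0 ≤ sq X ⊗ₖ 1 * (1 : Matrix κ κ ℂ) ⊗ₖ (sq X)ᵀ := fun X => by
    rw [← mul_kronecker_mul, mul_one, one_mul]
    exact ((sq_nn X).posSemidef.kronecker (sq_nn X).posSemidef.transpose).nonneg
  have l : ∀ X : Matrix κ κ ℂ, (sq X ⊗ₖ (1 : Matrix κ κ ℂ)).PosSemidef := fun X =>
    (sq_nn X).posSemidef.kronecker PosSemidef.one
  have r : ∀ X : Matrix κ κ ℂ, ((1 : Matrix κ κ ℂ) ⊗ₖ (sq X)ᵀ).PosSemidef := fun X =>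
    PosSemidef.one.kronecker (sq_nn X).posSemidef.transpose
  rw [e, e, e, ← q_rsmul, ← q_rsmul, ← q_add]
  refine q_le (gm hs ht (l _).1 (r _).1 (l _).1 (r _).1 (p _) (p _) (l _).1
    ((isq_nn (s • ρ + t • ρ')).posSemidef.kronecker PosSemidef.one).nonneg (r _).nonneg
    ?_ ?_ ?_ ?_) _
  · rw [← mul_kronecker_mul, (isq_mul hσ).2, one_mul, one_kronecker_one]
  · simp [Commute, SemiconjBy, ← mul_kronecker_mul]
  · simp only [← mul_kronecker_mul, sq_mul (pd_nn hσ), sq_mul (pd_nn h), sq_mul (pd_nn h'),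
      add_kronecker, smul_kronecker]
  · simp only [← mul_kronecker_mul, ← transpose_mul, sq_mul (pd_nn hσ), sq_mul (pd_nn h),
      sq_mul (pd_nn h'), transpose_add, transpose_smul, kronecker_add, kronecker_smul]

/-- The sandwiched collision divergence. -/
noncomputable def Q2 (X σ : Matrix κ κ ℂ) : ℝ := tr (X * isq σ * (X * isq σ))

theorem cs_Q2 (hσ : σ.PosDef) (hG : Gᴴ = G) (hX : Xᴴ = X) :
    tr (G * X) ^ 2 ≤ tr (sq σ * G * sq σ * G) * Q2 X σ := by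
  have h := sq_pd hσ
  have e : isq (sq σ) * isq (sq σ) = isq σ := by
    rw [← mul_one (isq (sq σ) * _), ← (isq_mul hσ).2, ← sq_mul (pd_nn h), ← mul_assoc, ← mul_assoc,
      mul_assoc (isq _) (isq _), sq_mul (pd_nn h), (isq_mul h).1, mul_one, (isq_mul h).1, one_mul]
  have := hcs 1 hG hX (sq_ct (sq σ)) (isq_ct (sq σ)) (isq_mul h).2
  simp only [conjTranspose_one, one_mul, mul_one, sq_mul (pd_nn h), e] at this
  rwa [Q2, ← mul_assoc, tr_comm _ (isq σ), ← mul_assoc, ← mul_assoc]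

theorem Q2_conj (hσ : σ.PosDef) (G : Matrix κ κ ℂ) :
    Q2 (sq σ * G * sq σ) σ = tr (sq σ * G * sq σ * G) := by
  simp only [Q2, mul_assoc, (isq_mul hσ).2, mul_one]

theorem Q2_smul (r : ℝ) (X σ : Matrix κ κ ℂ) : Q2 (r • X) σ = r ^ 2 * Q2 X σ := by
  simp [Q2, pow_two, mul_assoc]

theorem relEnt_le {ω : Matrix κ κ ℂ} (hω : IsState ω) (hσ : σ.PosDef) {t : ℝ} (ht : 0 < t)
    (h : Q2 (t • ω) σ ≤ 1) : relEnt ω σ ≤ (-2 * Real.log t : ℝ) := by
  rw [H20.relEnt_eq _ hσ, EReal.coe_le_coe_iff]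
  obtain ⟨U, r, hU, hr, rfl⟩ := H20.exists_sp_pd hσ
  rw [Q2_smul, Q2, isq, H20.cfc_sp hU, ← le_div_iff₀' (by positivity)] at h
  refine (H20.rel_le_two hω hU hr (by positivity) h).trans_eq ?_
  simp

end

variable {A B : Type*} [Fintype A] [Fintype B] [DecidableEq A] [DecidableEq B]

/-- Generators of the dominating set. -/
def Gen (A B : Type*) [Fintype A] [Fintype B] [DecidableEq A] [DecidableEq B] :
    Set (Matrix (A × B) (A × B) ℂ) :=
  {X | X.PosDef ∧ ∃ α β, IsState α ∧ IsState β ∧ α.PosDef ∧ β.PosDef ∧ Q2 X (α ⊗ₖ β) ≤ 1}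

theorem hull_sep {X : Matrix (A × B) (A × B) ℂ} (h : X ∈ convexHull ℝ (Gen A B)) :
    X.PosDef ∧ ∃ σ ∈ Sep1 A B, σ.PosDef ∧ Q2 X σ ≤ 1 := by
  refine convexHull_min (t := {X | X.PosDef ∧ ∃ σ ∈ Sep1 A B, σ.PosDef ∧ Q2 X σ ≤ 1}) ?_ ?_ h
  · rintro X ⟨h1, α, β, h2, h3, h4, h5, h6⟩
    exact ⟨h1, _, subset_convexHull _ _ ⟨α, β, h2, h3, rfl⟩, h4.kronecker h5, h6⟩
  refine convex_iff_forall_pos.2 ?_
  rintro X ⟨h1, ρ, h2, h3, h4⟩ X' ⟨h1', ρ', h2', h3', h4'⟩ s t hs ht e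
  have hX := (pd_smul h1 hs).add (pd_smul h1' ht)
  have hσ := (pd_smul h3 hs).add (pd_smul h3' ht)
  refine ⟨hX, _, convex_convexHull _ _ h2 h2' hs.le ht.le e, hσ, ?_⟩
  have hG : (isq (s • ρ + t • ρ') * (s • X + t • X') * isq (s • ρ + t • ρ'))ᴴ =
      isq (s • ρ + t • ρ') * (s • X + t • X') * isq (s • ρ + t • ρ') := by
    simp only [conjTranspose_mul, isq_ct, hX.1.eq, mul_assoc]
  have a1 := lieb h3 h3' hs.le ht.le hσ hG
  have a2 := cs_Q2 h3 hG h1.1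
  have a3 := cs_Q2 h3' hG h1'.1
  have a4 := Q2_conj hσ (isq (s • ρ + t • ρ') * (s • X + t • X') * isq (s • ρ + t • ρ'))
  have a5 : Q2 (s • X + t • X') (s • ρ + t • ρ') = tr (isq (s • ρ + t • ρ') * (s • X + t • X') *
      isq (s • ρ + t • ρ') * (s • X + t • X')) := by
    rw [Q2, ← mul_assoc, tr_comm]
    simp only [mul_assoc]
  have n : ∀ σ G : Matrix (A × B) (A × B) ℂ, Gᴴ = G → 0 ≤ tr (sq σ * G * sq σ * G) := fun σ G h => by
    simpa only [h, mul_assoc] using tr_mul_nn (sq_nn σ)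
      ((sq_nn σ).posSemidef.mul_mul_conjTranspose_same G).nonneg
  have n1 := n ρ _ hG
  have n2 := n ρ' _ hG
  have a6 : sq (s • ρ + t • ρ') * (isq (s • ρ + t • ρ') * (s • X + t • X') *
      isq (s • ρ + t • ρ')) * sq (s • ρ + t • ρ') = s • X + t • X' := by
    rw [← mul_assoc, ← mul_assoc, (isq_mul hσ).2, one_mul, mul_assoc, (isq_mul hσ).1, mul_one]
  rw [← a4, a6] at a1
  rw [mul_add, map_add, mul_smul_comm, mul_smul_comm, map_smul, map_smul, smul_eq_mul,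
    smul_eq_mul] at a5
  have b2 := a2.trans (mul_le_of_le_one_right n1 h4)
  have b3 := a3.trans (mul_le_of_le_one_right n2 h4')
  nlinarith [mul_le_mul_of_nonneg_left b2 hs.le, mul_le_mul_of_nonneg_left b3 ht.le,
    mul_nonneg hs.le (sq_nonneg (tr (isq (s • ρ + t • ρ') * (s • X + t • X') *
      isq (s • ρ + t • ρ') * X) - 1)), mul_nonneg ht.le (sq_nonneg (tr (isq (s • ρ + t • ρ') *
      (s • X + t • X') * isq (s • ρ + t • ρ') * X') - 1))]

variable [Nonempty A] [Nonempty B]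

theorem base_gen : Base (convexHull ℝ (Gen A B))
    ((Fintype.card A : ℝ)⁻¹ * (Fintype.card B : ℝ)⁻¹) where
  convex := convex_convexHull _ _
  psd _ h := (hull_sep h).1.posSemidef
  tr X h := by
    obtain ⟨h1, σ, h2, h3, h4⟩ := hull_sep h
    have := cs_Q2 h3 conjTranspose_one h1.1
    simp only [mul_one, one_mul, sq_mul (pd_nn h3), tr_def σ, (sep1_state h2).2,
      Complex.one_re] at this
    exact (sq_le_one_iff_abs_le_one _).1 (this.trans h4) |> (le_abs_self _).trans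
  pos := mul_pos (inv_pos.2 card_pos) (inv_pos.2 card_pos)
  one := by
    have a := pd_smul (PosDef.one (n := A) (R := ℂ)) (inv_pos.2 (card_pos (A := A)))
    have b := pd_smul (PosDef.one (n := B) (R := ℂ)) (inv_pos.2 (card_pos (A := B)))
    have h := Q2_conj (a.kronecker b) 1
    have h1 := (kron_state (one_state (ι := A)) (one_state (ι := B))).2
    simp only [mul_one, sq_mul (pd_nn (a.kronecker b)), tr_def, h1, Complex.one_re] at h
    refine subset_convexHull _ _ ⟨pd_smul PosDef.one (mul_pos (inv_pos.2 card_pos)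
      (inv_pos.2 card_pos)), _, _, one_state, one_state, a, b, le_of_eq_of_le ?_ h.le⟩
    rw [smul_kronecker, kronecker_smul, one_kronecker_one, smul_smul]

theorem norm_state {κ : Type*} [Fintype κ] [DecidableEq κ] {X : Matrix κ κ ℂ} (h : 0 ≤ X)
    (h' : 0 < tr X) : IsState ((tr X)⁻¹ • X) := ⟨(smul_nn h (inv_pos.2 h').le).posSemidef, by
  rw [trace_smul, tr_eq h, Complex.real_smul, ← Complex.ofReal_mul, inv_mul_cancel₀ h'.ne',
    Complex.ofReal_one]⟩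

theorem polar_gen {G : Matrix (A × B) (A × B) ℂ} (hG : Polar (convexHull ℝ (Gen A B)) G)
    (a : Matrix A A ℂ) (b : Matrix B B ℂ) (ha : a.PosDef) (hb : b.PosDef) :
    tr (a ⊗ₖ b * G * a ⊗ₖ b * G) ≤ tr (a * a) * tr (b * b) := by
  have a2 := pd_mul ha ha (Commute.refl _)
  have b2 := pd_mul hb hb (Commute.refl _)
  have a3 := tr_pos a2
  have b3 := tr_pos b2
  have a4 := pd_smul a2 (inv_pos.2 a3)
  have b4 := pd_smul b2 (inv_pos.2 b3)
  have hσ := a4.kronecker b4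
  have m0 := Real.sqrt_pos.2 (mul_pos a3 b3)
  have m2 := Real.mul_self_sqrt (mul_pos a3 b3).le
  have e : sq (((tr (a * a))⁻¹ • (a * a)) ⊗ₖ ((tr (b * b))⁻¹ • (b * b))) =
      (√(tr (a * a) * tr (b * b)))⁻¹ • a ⊗ₖ b := by
    rw [← sq_sq (pd_nn (pd_smul (ha.kronecker hb) (inv_pos.2 m0))), smul_mul_smul_comm, ← mul_inv,
      m2, smul_kronecker, kronecker_smul, smul_smul, mul_inv, mul_kronecker_mul]
  have key : tr (sq (((tr (a * a))⁻¹ • (a * a)) ⊗ₖ ((tr (b * b))⁻¹ • (b * b))) * G *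
      sq (((tr (a * a))⁻¹ • (a * a)) ⊗ₖ ((tr (b * b))⁻¹ • (b * b))) * G) ≤ 1 := by
    have s1 := norm_state (pd_nn a2) a3
    have s2 := norm_state (pd_nn b2) b3
    generalize (tr (a * a))⁻¹ • (a * a) = α at *
    generalize (tr (b * b))⁻¹ • (b * b) = β at *
    refine le_of_eps (c := 1) fun t ht => ?_
    have t0 := Real.sqrt_pos.2 ht
    have g1 : (G + √t • 1).PosDef := PosDef.posSemidef_add hG.1 (pd_smul PosDef.one t0)
    have hs := sq_pd hσ
    have g2 : (sq (α ⊗ₖ β) * (G + √t • 1) * sq (α ⊗ₖ β)).PosDef := by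
      simpa only [star_eq_conjTranspose, sq_ct] using
        hs.isUnit.posDef_star_right_conjugate_iff.2 g1
    have g3 : 0 < tr (sq (α ⊗ₖ β) * (G + √t • 1) * sq (α ⊗ₖ β) * (G + √t • 1)) := by
      rw [← sq_mul (pd_nn g1), ← mul_assoc, tr_comm, ← mul_assoc, sq_mul (pd_nn g1)]
      simpa only [star_eq_conjTranspose, sq_ct] using
        tr_pos ((sq_pd g1).isUnit.posDef_star_right_conjugate_iff.2 g2)
    have g4 := Real.sqrt_pos.2 g3
    have g5 := Real.sq_sqrt g3.le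
    have g6 := hG.2 _ (subset_convexHull _ _ ⟨pd_smul g2 (inv_pos.2 g4), α, β, s1, s2, a4, b4, by
      rw [Q2_smul, Q2_conj hσ, inv_pow, g5, inv_mul_cancel₀ g3.ne']⟩)
    rw [← tr_def, mul_smul_comm, map_smul, smul_eq_mul, inv_mul_le_iff₀ g4, tr_comm] at g6
    generalize √(tr (sq (α ⊗ₖ β) * (G + √t • 1) * sq (α ⊗ₖ β) * (G + √t • 1))) = r at *
    have g7 : tr (sq (α ⊗ₖ β) * G * sq (α ⊗ₖ β)) = tr (α ⊗ₖ β * G) := by
      rw [tr_comm, ← mul_assoc, sq_mul (pd_nn hσ)]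
    simp only [mul_add, add_mul, mul_smul_comm, smul_mul_assoc, mul_one, map_add, map_smul,
      smul_eq_mul, sq_mul (pd_nn hσ), g7, tr_def (α ⊗ₖ β), (kron_state s1 s2).2,
      Complex.one_re] at g5 g6
    nlinarith [Real.mul_self_sqrt ht.le, sq_nonneg (r - 1)]
  simp only [e, smul_mul_assoc, mul_smul_comm, map_smul, smul_eq_mul, ← mul_assoc, ← mul_inv,
    m2] at key
  rwa [inv_mul_le_iff₀ (mul_pos a3 b3), mul_one] at key

/-- Symmetric separable states pass all tests of the polar set. -/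
theorem sep_polar {n : ℕ} {σ : Matrix (Fin n → A × B) (Fin n → A × B) ℂ} (hσ : σ ∈ Sep A B n)
    (G : Matrix (A × B) (A × B) ℂ) (hG : Polar (convexHull ℝ (Gen A B)) G) :
    (tp n G * σ).trace.re ≤ 1 :=
  sep_bound (thmM G hG.1 (polar_gen hG) n) hσ

end Pool.Agent.MP_47bb2a_mp.H42
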