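import Pool.Agent.MP_47bb2a_mp.H42.Povm

/-! Ensembles obtained by measuring sites. -/

open scoped ComplexOrder MatrixOrder
open Matrix

namespace Pool.Agent.MP_47bb2a_mp.H42

universe v

variable {ι : Type*} {A : Type v} [Fintype ι] [DecidableEq ι] [Fintype A] [DecidableEq A]

/-- A measurement of the sites in `M`. -/
structure Ens (ι : Type*) (A : Type v) [Fintype ι] [DecidableEq ι] [Fintype A]
    [DecidableEq A] where
  M : Finset ι
  C : Type v
  fin : Fintype C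
  F : C → Matrix (ι → A) (ι → A) ℂ
  out : ∀ Q, Disjoint Q M → ∀ c, Out Q (F c)
  sum : ∑ c, F c = 1
  low : ∀ c, c0 A ^ M.card • 1 ≤ F c

instance (e : Ens ι A) : Fintype e.C := e.fin

/-- Refinement. -/
def Ref (e e' : Ens ι A) : Prop := e.M ⊆ e'.M ∧ ∃ π : e'.C → e.C,
  ∀ Φ : e.C → Matrix (ι → A) (ι → A) ℂ → ℝ, (∀ c X Y, Φ c (X + Y) = Φ c X + Φ c Y) →
    ∑ c, Φ c (e.F c) = ∑ c, Φ (π c) (e'.F c)

theorem Ref.refl (e : Ens ι A) : Ref e e := ⟨subset_rfl, id, fun _ _ => by simp⟩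

theorem Ref.trans {e e' e'' : Ens ι A} (h : Ref e e') (h' : Ref e' e'') : Ref e e'' := by
  obtain ⟨h1, π, h2⟩ := h
  obtain ⟨h3, π', h4⟩ := h'
  exact ⟨h1.trans h3, π ∘ π', fun Φ hΦ => (h2 Φ hΦ).trans (h4 (fun c => Φ (π c)) fun _ => hΦ _)⟩

variable [Nonempty A] {Q : Finset ι} {u : ι} {ρ F : Matrix (ι → A) (ι → A) ℂ} (e : Ens ι A)

theorem Ens.pd (c : e.C) : (e.F c).PosDef :=
  pd_of_le (pd_smul PosDef.one (pow_pos c0_pos _)) (e.low c)

omit [Nonempty A] in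
theorem Ens.comm (hu : u ∉ e.M) (c : e.C) (a : Matrix A A ℂ) : Commute (emb u a) (e.F c) :=
  (e.out {u} (by simpa using hu) c _ (alg_emb (by simp) a)).symm

/-- No measurement. -/
def Ens.triv : Ens ι A := ⟨∅, PUnit, inferInstance, fun _ => 1, fun _ _ _ => out_one, by simp,
  fun _ => by simp⟩

theorem sum_G (u : ι) (F : Matrix (ι → A) (ι → A) ℂ) : ∑ k, emb u (ff k) * F = F := by
  rw [← Finset.sum_mul, ← map_sum, sum_ff, map_one, one_mul]

/-- Measure one more site. -/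
noncomputable def Ens.meas (hu : u ∉ e.M) : Ens ι A where
  M := insert u e.M
  C := e.C × O A
  fin := inferInstance
  F c := emb u (ff c.2) * e.F c.1
  out Q h c := (out_emb (Finset.disjoint_insert_right.1 h).1 _).mul
    (e.out Q (Finset.disjoint_insert_right.1 h).2 _)
  sum := by simp only [Fintype.sum_prod_type (α₁ := e.C), sum_G, e.sum]
  low c := by
    have h1 := (e.comm hu c.1 (ff c.2 - c0 A • 1)).mul_nonneg
      (emb_nn u (sub_nonneg.2 (ff_low c.2))) (pd_nn (e.pd c.1))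
    rw [map_sub, emb_rsmul, map_one, sub_mul, smul_mul_assoc, one_mul, sub_nonneg] at h1
    rw [Finset.card_insert_of_notMem hu, pow_succ', ← smul_smul]
    exact (smul_le (e.low c.1) c0_pos.le).trans h1

theorem Ens.ref_meas (hu : u ∉ e.M) : Ref e (e.meas hu) :=
  ⟨Finset.subset_insert _ _, Prod.fst, fun Φ hΦ => by
    refine Eq.trans ?_ (Fintype.sum_prod_type (α₁ := e.C) (α₂ := O A) _).symm
    refine Finset.sum_congr rfl fun c _ => ?_
    conv_lhs => rw [← sum_G u (e.F c)]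
    exact map_sum (AddMonoidHom.mk' (Φ c) (hΦ c)) _ _⟩

theorem p_pos (hρ : ρ.PosDef) (hF : F.PosDef) (h : Out Q F) : 0 < tr (F * ρ) := by
  rw [← tr_E Q]
  exact tr_pos (E_out_pd h hF hρ)

theorem Ens.p_pos (hρ : ρ.PosDef) (c : e.C) : 0 < tr (e.F c * ρ) :=
  H42.p_pos hρ (e.pd c) (e.out ∅ (by simp) c)

omit [Nonempty A] in
theorem Ens.sum_p (h : tr ρ = 1) : ∑ c, tr (e.F c * ρ) = 1 := by
  rw [← map_sum, ← Finset.sum_mul, e.sum, one_mul, h]

/-- Conditional probability of the outcome `k` at the site `u`. -/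
noncomputable def be (ρ : Matrix (ι → A) (ι → A) ℂ) (u : ι) (k : O A)
    (F : Matrix (ι → A) (ι → A) ℂ) : ℝ := tr (emb u (ff k) * F * ρ) / tr (F * ρ)

/-- The sites in `Q` are nearly independent of the outcome at `u`. -/
def Ens.Dev (ρ : Matrix (ι → A) (ι → A) ℂ) (Q : Finset ι) (u : ι) (θ : ℝ) : Prop :=
  ∀ Y : e.C → O A → Matrix (ι → A) (ι → A) ℂ, (∀ c k, Con (Y c k)) → ∑ c, ∑ k, tr (Y c k *
    (E Q (emb u (ff k) * e.F c * ρ) - be ρ u k (e.F c) • E Q (e.F c * ρ))) ≤ θ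

/-- Energy. -/
noncomputable def Ens.en (ρ : Matrix (ι → A) (ι → A) ℂ) (u : ι) : ℝ :=
  ∑ c, ∑ k, tr (e.F c * ρ) * be ρ u k (e.F c) ^ 2

/-- Entropy defect. -/
noncomputable def Ens.psi (ρ : Matrix (ι → A) (ι → A) ℂ) (Q : Finset ι) : ℝ :=
  ∑ c, D (E Q (e.F c * ρ)) ((tr (e.F c * ρ) / Fintype.card (ι → A)) • 1)

/-- Mutual information. -/
noncomputable def Ens.mi (ρ : Matrix (ι → A) (ι → A) ℂ) (Q : Finset ι) (u : ι) : ℝ :=
  ∑ c, ∑ k, D (E Q (emb u (ff k) * e.F c * ρ)) (be ρ u k (e.F c) • E Q (e.F c * ρ))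

variable (hρ : ρ.PosDef) (hρ1 : tr ρ = 1)
include hρ

theorem Ens.be_pos (hu : u ∉ e.M) (c : e.C) (k : O A) : 0 < be ρ u k (e.F c) :=
  div_pos ((e.meas hu).p_pos hρ (c, k)) (e.p_pos hρ c)

theorem Ens.be_mul (c : e.C) (k : O A) :
    be ρ u k (e.F c) * tr (e.F c * ρ) = tr (emb u (ff k) * e.F c * ρ) :=
  div_mul_cancel₀ _ (e.p_pos hρ c).ne'

theorem Ens.psi_meas (hu : u ∉ e.M) (hQ : Disjoint Q e.M) :
    (e.meas hu).psi ρ Q = e.psi ρ Q + e.mi ρ Q u := by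
  refine (Fintype.sum_prod_type (α₁ := e.C) (α₂ := O A) _).trans ?_
  rw [Ens.psi, Ens.mi, ← Finset.sum_add_distrib]
  refine Finset.sum_congr rfl fun c _ => ?_
  have hs := E_out_pd (e.out Q hQ c) (e.pd c) hρ
  have hp := div_pos (e.p_pos hρ c) (card_pos (A := ι → A))
  have e1 : ∀ k, D (E Q (emb u (ff k) * e.F c * ρ))
      ((tr (emb u (ff k) * e.F c * ρ) / Fintype.card (ι → A)) • 1) =
      tr (E Q (emb u (ff k) * e.F c * ρ) * (lg (E Q (e.F c * ρ)) -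
        lg ((tr (e.F c * ρ) / Fintype.card (ι → A)) • 1))) +
      D (E Q (emb u (ff k) * e.F c * ρ)) (be ρ u k (e.F c) • E Q (e.F c * ρ)) := fun k => by
    rw [← e.be_mul hρ c k, mul_div_assoc, ← smul_smul,
      D_smul (pd_smul PosDef.one hp) (e.be_pos hρ hu c k), D_smul hs (e.be_pos hρ hu c k)]
    simp only [D, mul_sub, map_sub]
    ring
  refine (Finset.sum_congr rfl fun k _ => e1 k).trans ?_
  rw [Finset.sum_add_distrib, ← map_sum, ← Finset.sum_mul, ← map_sum, ← Finset.sum_mul, sum_G, D]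

theorem Ens.psi_nn (hQ : Disjoint Q e.M) : 0 ≤ e.psi ρ Q := Finset.sum_nonneg fun c _ => by
  refine le_trans (le_of_eq ?_) (klein (E_out_pd (e.out Q hQ c) (e.pd c) hρ)
    (pd_smul PosDef.one (div_pos (e.p_pos hρ c) card_pos)))
  rw [tr_E, map_smul, tr_one, smul_eq_mul, div_mul_cancel₀ _ card_pos.ne', sub_self]

include hρ1

theorem Ens.psi_le (hQ : Disjoint Q e.M) :
    e.psi ρ Q ≤ Q.card * Real.log ((Fintype.card A : ℝ) ^ 2) := by
  rw [← Real.log_pow, ← mul_one (Real.log _), ← e.sum_p hρ1, Finset.mul_sum]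
  refine Finset.sum_le_sum fun c _ => ?_
  have hs := E_out_pd (e.out Q hQ c) (e.pd c) hρ
  have := le_scalar (alg_E Q (e.F c * ρ)) (pd_nn hs)
  rw [tr_E, ← smul_smul] at this
  simpa only [tr_E] using D_le hs (pd_smul PosDef.one (div_pos (e.p_pos hρ c) card_pos))
    (pow_pos (pow_pos card_pos 2) _) this

theorem Ens.dev_of_mi (hu : u ∉ e.M) (huQ : u ∉ Q) (hQ : Disjoint Q e.M) {r : ℝ} (hr : 0 < r)
    (h : e.mi ρ Q u ≤ r ^ 2) : e.Dev ρ Q u (2 * r) := fun Y hY => by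
  have h1 : ∑ c, ∑ k, tr (emb u (ff k) * e.F c * ρ) = 1 :=
    (Fintype.sum_prod_type (α₁ := e.C) (α₂ := O A) _).symm.trans ((e.meas hu).sum_p hρ1)
  have h2 : e.mi ρ Q u / r ≤ r := by rwa [div_le_iff₀ hr, ← pow_two]
  refine le_trans ?_ (show r * 1 + e.mi ρ Q u / r ≤ 2 * r by linarith)
  rw [← h1, Ens.mi]
  simp only [Finset.mul_sum, Finset.sum_div, ← Finset.sum_add_distrib]
  refine Finset.sum_le_sum fun c _ => Finset.sum_le_sum fun k _ => ?_
  have := pins (E_out_pd ((e.meas hu).out Q (Finset.disjoint_insert_right.2 ⟨huQ, hQ⟩) (c, k))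
    ((e.meas hu).pd (c, k)) hρ) (pd_smul (E_out_pd (e.out Q hQ c) (e.pd c) hρ)
    (e.be_pos hρ hu c k)) (by rw [map_smul, tr_E, tr_E, smul_eq_mul, e.be_mul hρ]; rfl) (hY c k) hr
  rwa [tr_E] at this

theorem Ens.en_le (hu : u ∉ e.M) : e.en ρ u ≤ 1 := by
  rw [← e.sum_p hρ1]
  refine Finset.sum_le_sum fun c _ => ?_
  have h1 : ∑ k, be ρ u k (e.F c) = 1 := by
    simp only [be]
    rw [← Finset.sum_div, ← map_sum, ← Finset.sum_mul, sum_G, div_self (e.p_pos hρ c).ne']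
  rw [← Finset.mul_sum]
  refine mul_le_of_le_one_right (e.p_pos hρ c).le ?_
  rw [← one_pow 2, ← h1]
  exact Finset.sum_sq_le_sq_sum_of_nonneg fun k _ => (e.be_pos hρ hu c k).le

omit hρ1 in
theorem en_ref {e e' : Ens ι A} {π : e'.C → e.C}
    (h : ∀ Φ : e.C → Matrix (ι → A) (ι → A) ℂ → ℝ, (∀ c X Y, Φ c (X + Y) = Φ c X + Φ c Y) →
      ∑ c, Φ c (e.F c) = ∑ c, Φ (π c) (e'.F c)) (u : ι) : e'.en ρ u - e.en ρ u =
      ∑ c, ∑ k, tr (e'.F c * ρ) * (be ρ u k (e'.F c) - be ρ u k (e.F (π c))) ^ 2 := by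
  have h1 := h (fun c X => ∑ k, (2 * be ρ u k (e.F c) * tr (emb u (ff k) * X * ρ) -
    be ρ u k (e.F c) ^ 2 * tr (X * ρ))) fun c X Y => by
      simp only [mul_add, add_mul, map_add, ← Finset.sum_add_distrib]
      exact Finset.sum_congr rfl fun _ _ => by ring
  simp only [← e.be_mul hρ, ← e'.be_mul hρ] at h1
  have h2 : e.en ρ u = _ := Eq.trans (Finset.sum_congr rfl fun _ _ =>
    Finset.sum_congr rfl fun _ _ => by ring) h1
  rw [h2, Ens.en]
  simp only [← Finset.sum_sub_distrib]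
  exact Finset.sum_congr rfl fun _ _ => Finset.sum_congr rfl fun _ _ => by ring

omit hρ1 in
theorem Ref.en_le {e e' : Ens ι A} (h : Ref e e') (u : ι) : e.en ρ u ≤ e'.en ρ u := by
  obtain ⟨_, π, h⟩ := h
  rw [← sub_nonneg, en_ref hρ h]
  exact Finset.sum_nonneg fun c _ => Finset.sum_nonneg fun _ _ =>
    mul_nonneg (e'.p_pos hρ c).le (sq_nonneg _)

theorem Ref.dev {e e' : Ens ι A} (h : Ref e e') (hQ : Disjoint Q e'.M) {θ r : ℝ} (hr : 0 < r)
    (hd : e'.Dev ρ Q u θ) :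
    e.Dev ρ Q u (θ + (Fintype.card (O A) * r + (e'.en ρ u - e.en ρ u) / r)) := fun Y hY => by
  obtain ⟨_, π, h⟩ := h
  have h1 := h (fun c X => ∑ k, tr (Y c k *
    (E Q (emb u (ff k) * X * ρ) - be ρ u k (e.F c) • E Q (X * ρ)))) fun c X Y => by
      simp only [mul_add, add_mul, map_add, ← Finset.sum_add_distrib, mul_sub, map_sub, smul_add]
      exact Finset.sum_congr rfl fun _ _ => by ring
  have h2 : (Fintype.card (O A) : ℝ) * r = ∑ c, ∑ _k : O A, tr (e'.F c * ρ) * r := by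
    simp only [Finset.sum_const, Finset.card_univ, nsmul_eq_mul, ← Finset.mul_sum,
      ← Finset.sum_mul, e'.sum_p hρ1, one_mul]
  rw [h1, en_ref hρ h, h2]
  refine le_trans ?_ (add_le_add_left (hd (fun c => Y (π c)) fun c => hY _) _)
  simp only [Finset.sum_div, ← Finset.sum_add_distrib]
  refine Finset.sum_le_sum fun c _ => Finset.sum_le_sum fun k _ => ?_
  have h3 := abs_le.1 ((hY (π c) k).tr_le (E_out_nn (e'.out Q hQ c) (pd_nn (e'.pd c)) (pd_nn hρ)))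
  simp only [mul_sub, map_sub, mul_smul_comm, map_smul, smul_eq_mul, tr_E] at h3 ⊢
  generalize tr (Y (π c) k * E Q (e'.F c * ρ)) = t at *
  generalize tr (e'.F c * ρ) = p at *
  have h4 : (be ρ u k (e'.F c) - be ρ u k (e.F (π c))) * t ≤ p * r +
      p * (be ρ u k (e'.F c) - be ρ u k (e.F (π c))) ^ 2 / r := by
    generalize be ρ u k (e'.F c) - be ρ u k (e.F (π c)) = x
    rw [← sub_le_iff_le_add', le_div_iff₀ hr]
    nlinarith [mul_nonneg (sub_nonneg.2 h3.1) (sq_nonneg (x - r)),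
      mul_nonneg (sub_nonneg.2 h3.2) (sq_nonneg (x + r)),
      mul_nonneg (sub_nonneg.2 (h3.1.trans h3.2)) (add_nonneg (sq_nonneg x) (sq_nonneg r))]
  linarith

omit hρ1 in
theorem Ens.phase (hQ : Disjoint Q e.M) (η : ℝ) (k : ℕ) : ∃ e' : Ens ι A, Ref e e' ∧
    Disjoint Q e'.M ∧ e'.M.card ≤ e.M.card + k ∧
      ((∀ u ∉ e'.M, u ∉ Q → e'.mi ρ Q u ≤ η) ∨ k * η ≤ e'.psi ρ Q) := by
  induction k with
  | zero => exact ⟨e, Ref.refl e, hQ, le_rfl, Or.inr (by simpa using e.psi_nn hρ hQ)⟩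
  | succ k ih =>
    obtain ⟨e', h1, h2, h3, h4⟩ := ih
    by_cases h : ∀ u ∉ e'.M, u ∉ Q → e'.mi ρ Q u ≤ η
    · exact ⟨e', h1, h2, by omega, Or.inl h⟩
    have h5 := h4.resolve_left h
    push Not at h
    obtain ⟨u, hu, huQ, h⟩ := h
    refine ⟨e'.meas hu, h1.trans (e'.ref_meas hu), Finset.disjoint_insert_right.2 ⟨huQ, h2⟩,
      (Finset.card_insert_le _ _).trans (by omega), Or.inr ?_⟩
    rw [e'.psi_meas hρ hu h2]
    push_cast
    linarith

end Pool.Agent.MP_47bb2a_mp.H42
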