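import Pool.Agent.MP_47bb2a_mp.H97.Tensor

/-! Relative entropy of positive definite matrices: elementary inequalities. -/

open scoped ComplexOrder MatrixOrder
open Matrix

namespace Pool.Agent.MP_47bb2a_mp.H42

variable {κ : Type*} [Fintype κ] [DecidableEq κ] {X Y Z W : Matrix κ κ ℂ}

/-- Real part of the trace. -/
noncomputable def tr : Matrix κ κ ℂ →ₗ[ℝ] ℝ := Complex.reLm ∘ₗ traceLinearMap κ ℝ ℂ

theorem tr_def (X : Matrix κ κ ℂ) : tr X = X.trace.re := rfl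

theorem tr_comm (X Y : Matrix κ κ ℂ) : tr (X * Y) = tr (Y * X) := by
  rw [tr_def, trace_mul_comm, tr_def]

theorem tr_one : tr (1 : Matrix κ κ ℂ) = Fintype.card κ := by simp [tr_def]

theorem tr_ct (X : Matrix κ κ ℂ) : tr Xᴴ = tr X := by simp [tr_def, trace_conjTranspose]

theorem tr_nn (h : 0 ≤ X) : 0 ≤ tr X := (Complex.nonneg_iff.1 h.posSemidef.trace_nonneg).1

theorem tr_le (h : X ≤ Y) : tr X ≤ tr Y := by
  have := tr_nn (sub_nonneg.2 h)
  rwa [map_sub, sub_nonneg] at this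

theorem tr_pos [Nonempty κ] (h : X.PosDef) : 0 < tr X := (Complex.pos_iff.1 h.trace_pos).1

theorem tr_eq (h : 0 ≤ X) : X.trace = tr X :=
  Complex.ext rfl (Complex.nonneg_iff.1 h.posSemidef.trace_nonneg).2.symm

theorem tr_mul_nn (h : 0 ≤ X) (h' : 0 ≤ Y) : 0 ≤ tr (X * Y) :=
  H97.tr_nonneg h.posSemidef h'.posSemidef

theorem tr_mul_le (h : 0 ≤ X) (h' : Y ≤ Z) : tr (X * Y) ≤ tr (X * Z) :=
  H97.tr_mono h.posSemidef h'

theorem pd_nn (h : X.PosDef) : 0 ≤ X := h.posSemidef.nonneg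

theorem pd_of_le (h : X.PosDef) (h' : X ≤ Y) : Y.PosDef := by
  simpa using h.add_posSemidef h'

theorem pd_smul (h : X.PosDef) {r : ℝ} (hr : 0 < r) : (r • X).PosDef := h.smul hr

theorem pd_mul (h : X.PosDef) (h' : Y.PosDef) (hc : Commute X Y) : (X * Y).PosDef :=
  (hc.mul_nonneg (pd_nn h) (pd_nn h')).posSemidef.posDef_iff_isUnit.2 (h.isUnit.mul h'.isUnit)

theorem smul_nn (h : 0 ≤ X) {r : ℝ} (hr : 0 ≤ r) : 0 ≤ r • X := (h.posSemidef.smul hr).nonneg

theorem smul_le (h : X ≤ Y) {r : ℝ} (hr : 0 ≤ r) : r • X ≤ r • Y := by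
  rw [← sub_nonneg, ← smul_sub]
  exact smul_nn (sub_nonneg.2 h) hr

theorem le_smul (h : 0 ≤ X) {r s : ℝ} (hr : r ≤ s) : r • X ≤ s • X := by
  rw [← sub_nonneg, ← sub_smul]
  exact smul_nn h (sub_nonneg.2 hr)

theorem one_nn : (0 : Matrix κ κ ℂ) ≤ 1 := PosSemidef.one.nonneg

theorem conj_le {κ' : Type*} [Fintype κ'] (h : X ≤ Y) (B : Matrix κ' κ ℂ) :
    B * X * Bᴴ ≤ B * Y * Bᴴ := by
  have := PosSemidef.mul_mul_conjTranspose_same (le_iff.1 h) B
  rwa [Matrix.mul_sub, Matrix.sub_mul] at this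

/-- Logarithm. -/
noncomputable def lg (X : Matrix κ κ ℂ) : Matrix κ κ ℂ := cfc Real.log X

/-- Square root. -/
noncomputable def sq (X : Matrix κ κ ℂ) : Matrix κ κ ℂ := cfc Real.sqrt X

/-- Relative entropy. -/
noncomputable def D (Z W : Matrix κ κ ℂ) : ℝ := tr (Z * (lg Z - lg W))

theorem cfc_herm (f : ℝ → ℝ) (X : Matrix κ κ ℂ) : (cfc f X)ᴴ = cfc f X :=
  (cfc_predicate f X : IsSelfAdjoint _)

theorem cont (f : ℝ → ℝ) (X : Matrix κ κ ℂ) : ContinuousOn f (spectrum ℝ X) :=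
  X.finite_real_spectrum.continuousOn _

theorem sq_nn (X : Matrix κ κ ℂ) : 0 ≤ sq X := cfc_nonneg fun _ _ => Real.sqrt_nonneg _

theorem sq_ct (X : Matrix κ κ ℂ) : (sq X)ᴴ = sq X := cfc_herm _ _

theorem sq_mul (h : 0 ≤ X) : sq X * sq X = X := by
  rw [sq, ← cfc_mul _ _ _ (cont _ _) (cont _ _)]
  exact (cfc_congr fun x hx => Real.mul_self_sqrt (spectrum_nonneg_of_nonneg h hx)).trans
    (cfc_id' ℝ X h.posSemidef.1.isSelfAdjoint)

theorem sq_pd (h : X.PosDef) : (sq X).PosDef :=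
  (sq_nn X).posSemidef.posDef_iff_isUnit.2
    (isUnit_mul_self_iff.1 ((sq_mul (pd_nn h)).symm ▸ h.isUnit))

open scoped Matrix.Norms.L2Operator in
theorem lg_mono (h : X.PosDef) (h' : X ≤ Y) : lg X ≤ lg Y :=
  CFC.log_le_log h' (isStrictlyPositive_iff_posDef.2 h)

open scoped Matrix.Norms.L2Operator in
theorem lg_smul (h : X.PosDef) {r : ℝ} (hr : 0 < r) : lg (r • X) = Real.log r • 1 + lg X := by
  rw [← Algebra.algebraMap_eq_smul_one]
  exact CFC.log_smul' X hr (isStrictlyPositive_iff_posDef.2 h)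

theorem lg_one : lg (1 : Matrix κ κ ℂ) = 0 := by simp [lg]

open scoped Matrix.Norms.L2Operator in
theorem lg_mul (h : X.PosDef) (h' : Y.PosDef) (hc : Commute X Y) : lg (X * Y) = lg X + lg Y := by
  have h1 : NormedSpace.exp (lg X) = X := CFC.exp_log X (isStrictlyPositive_iff_posDef.2 h)
  have h2 : NormedSpace.exp (lg Y) = Y := CFC.exp_log Y (isStrictlyPositive_iff_posDef.2 h')
  have h3 : Commute (lg X) (lg Y) := ((hc.cfc_real _).symm.cfc_real _).symm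
  have h4 : IsSelfAdjoint (lg X + lg Y) :=
    IsSelfAdjoint.add (cfc_predicate _ X) (cfc_predicate _ Y)
  have h5 := CFC.log_exp _ h4
  rw [Matrix.exp_add_of_commute _ _ h3, h1, h2] at h5
  exact h5

theorem spec2 (hZ : Z.IsHermitian) (hW : W.IsHermitian) :
    ∃ P : κ → κ → ℝ, (∀ i j, 0 ≤ P i j) ∧ ∀ f g : ℝ → ℝ, tr (cfc f Z * cfc g W) =
      ∑ i, ∑ j, P i j * (f (hZ.eigenvalues i) * g (hW.eigenvalues j)) := by
  set U := (hZ.eigenvectorUnitary : Matrix κ κ ℂ) with hU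
  set V := (hW.eigenvectorUnitary : Matrix κ κ ℂ) with hV
  refine ⟨fun i j => ‖(Uᴴ * V) i j‖ ^ 2, fun _ _ => sq_nonneg _, fun f g => ?_⟩
  have e : cfc f Z * cfc g W = U * (diagonal (fun i => (f (hZ.eigenvalues i) : ℂ)) * (Uᴴ * V) *
      diagonal (fun i => (g (hW.eigenvalues i) : ℂ)) * Vᴴ) := by
    rw [hZ.cfc_eq, hW.cfc_eq, IsHermitian.cfc, IsHermitian.cfc, Unitary.conjStarAlgAut_apply,
      Unitary.conjStarAlgAut_apply]
    simp only [Matrix.mul_assoc]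
    rfl
  have e2 : Vᴴ * U = (Uᴴ * V)ᴴ := by simp
  rw [e, tr_comm, Matrix.mul_assoc, e2, tr_def]
  generalize Uᴴ * V = M
  simp only [trace, diag_apply, mul_apply (M := _ * _ * _), mul_diagonal, diagonal_mul,
    conjTranspose_apply, Complex.re_sum]
  refine Finset.sum_congr rfl fun i _ => Finset.sum_congr rfl fun j _ => ?_
  rw [show (f (hZ.eigenvalues i) : ℂ) * M i j * g (hW.eigenvalues j) * star (M i j) =
    ((‖M i j‖ ^ 2 * (f (hZ.eigenvalues i) * g (hW.eigenvalues j)) : ℝ) : ℂ) by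
      push_cast
      rw [← Complex.mul_conj']
      simp only [RCLike.star_def]
      ring, Complex.ofReal_re]

theorem D_ge (hZ : Z.PosDef) (hW : W.PosDef) (b : ℝ) :
    b * tr Z + (tr Z - Real.exp b * tr W) ≤ D Z W ∧
    2 * b * tr Z + 2 * (tr Z - Real.exp b * tr (sq Z * sq W)) ≤ D Z W := by
  obtain ⟨P, P0, hP⟩ := spec2 hZ.1 hW.1
  have a1 := hP (fun x => x) fun _ => 1
  have a2 := hP (fun _ => 1) fun x => x
  have a3 := hP (fun x => x * Real.log x) fun _ => 1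
  have a4 := hP (fun x => x) Real.log
  have a5 := hP Real.sqrt Real.sqrt
  rw [cfc_mul _ _ _ (cont _ _) (cont _ _)] at a3
  simp only [cfc_id' ℝ Z hZ.1.isSelfAdjoint, cfc_id' ℝ W hW.1.isSelfAdjoint,
    cfc_const_one ℝ Z hZ.1.isSelfAdjoint, cfc_const_one ℝ W hW.1.isSelfAdjoint, mul_one,
    one_mul] at a1 a2 a3 a4
  have key : ∀ z w : ℝ, 0 < z → 0 < w →
      b * z + (z - Real.exp b * w) ≤ z * Real.log z - z * Real.log w := fun z w hz hw => by
    have := Real.log_le_sub_one_of_pos (div_pos (mul_pos (Real.exp_pos b) hw) hz)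
    rw [Real.log_div (by positivity) hz.ne', Real.log_mul (by positivity) hw.ne', Real.log_exp,
      div_sub_one hz.ne', le_div_iff₀ hz] at this
    linarith
  rw [D, Matrix.mul_sub, map_sub, lg, lg, sq, sq, a1, a2, a3, a4, a5]
  simp only [Finset.mul_sum, ← Finset.sum_add_distrib, ← Finset.sum_sub_distrib]
  constructor <;> refine Finset.sum_le_sum fun i _ => Finset.sum_le_sum fun j _ => ?_
  · nlinarith [mul_le_mul_of_nonneg_left (key _ _ (hZ.eigenvalues_pos i) (hW.eigenvalues_pos j))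
      (P0 i j)]
  · have hz := hZ.eigenvalues_pos i
    have hw := hW.eigenvalues_pos j
    have h1 := mul_le_mul_of_nonneg_left (key _ _ (Real.sqrt_pos.2 hz) (Real.sqrt_pos.2 hw))
      (mul_nonneg (P0 i j) (Real.sqrt_nonneg (hZ.1.eigenvalues i)))
    rw [Real.log_sqrt hz.le, Real.log_sqrt hw.le] at h1
    have h2 := Real.mul_self_sqrt hz.le
    generalize √(hZ.1.eigenvalues i) = s at *
    generalize Real.log (hZ.1.eigenvalues i) = l at *
    rw [← h2]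
    nlinarith

theorem klein (hZ : Z.PosDef) (hW : W.PosDef) : tr Z - tr W ≤ D Z W := by
  simpa using (D_ge hZ hW 0).1

theorem fid (hZ : Z.PosDef) (hW : W.PosDef) {b : ℝ} (h : D Z W ≤ 2 * b * tr Z) :
    Real.exp (-b) * tr Z ≤ tr (sq Z * sq W) := by
  rw [Real.exp_neg, inv_mul_le_iff₀ (Real.exp_pos b)]
  linarith [(D_ge hZ hW b).2]

theorem D_smul (hW : W.PosDef) {r : ℝ} (hr : 0 < r) :
    D Z (r • W) = D Z W - Real.log r * tr Z := by
  simp only [D, lg_smul hW hr, Matrix.mul_sub, Matrix.mul_add, map_sub, map_add, Matrix.mul_smul,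
    map_smul, Matrix.mul_one, smul_eq_mul]
  ring

theorem lg_sub_le (hZ : Z.PosDef) (hW : W.PosDef) {r : ℝ} (hr : 0 < r) (h : Z ≤ r • W) :
    lg Z - lg W ≤ Real.log r • 1 := by
  rw [sub_le_iff_le_add, ← lg_smul hW hr]
  exact lg_mono hZ h

theorem le_lg_sub (hW : W.PosDef) {r : ℝ} (hr : 0 < r) (h : r • W ≤ Z) :
    Real.log r • (1 : Matrix κ κ ℂ) ≤ lg Z - lg W := by
  rw [le_sub_iff_add_le, ← lg_smul hW hr]
  exact lg_mono (pd_smul hW hr) h

theorem D_le (hZ : Z.PosDef) (hW : W.PosDef) {r : ℝ} (hr : 0 < r) (h : Z ≤ r • W) :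
    D Z W ≤ Real.log r * tr Z := by
  simpa [D] using tr_mul_le (pd_nn hZ) (lg_sub_le hZ hW hr h)

/-- Hermitian contractions. -/
def Con (Y : Matrix κ κ ℂ) : Prop := -1 ≤ Y ∧ Y ≤ 1

theorem Con.neg (h : Con Y) : Con (-Y) := ⟨neg_le_neg h.2, neg_le.1 h.1⟩

theorem Con.add_nn (h : Con Y) : 0 ≤ 1 + Y := neg_le_iff_add_nonneg'.1 h.1

theorem Con.sub_nn (h : Con Y) : 0 ≤ 1 - Y := sub_nonneg.2 h.2

theorem Con.tr_le (h : Con Y) (hX : 0 ≤ X) : |tr (Y * X)| ≤ tr X := by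
  have h1 := tr_mul_le hX h.1
  have h2 := tr_mul_le hX h.2
  rw [tr_comm, abs_le]
  exact ⟨by simpa using h1, by simpa using h2⟩

theorem con_smul {r : ℝ} (hr : 0 < r) (h1 : -r • 1 ≤ Y) (h2 : Y ≤ r • 1) : Con (r⁻¹ • Y) := by
  have a1 := smul_le h1 (inv_pos.2 hr).le
  have a2 := smul_le h2 (inv_pos.2 hr).le
  rw [smul_smul, mul_neg, inv_mul_cancel₀ hr.ne', neg_one_smul] at a1
  rw [smul_smul, inv_mul_cancel₀ hr.ne', one_smul] at a2
  exact ⟨a1, a2⟩

/-- A weak form of Pinsker's inequality. -/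
theorem pins (hZ : Z.PosDef) (hW : W.PosDef) (h : tr Z = tr W) (hY : Con Y) {r : ℝ} (hr : 0 < r) :
    tr (Y * (Z - W)) ≤ r * tr Z + D Z W / r := by
  have a1 := (D_ge hZ hW 0).2
  have z2 := sq_mul (pd_nn hZ)
  have w2 := sq_mul (pd_nn hW)
  have z1 := sq_ct Z
  have w1 := sq_ct W
  generalize sq Z = a at *
  generalize sq W = b at *
  have sqn : ∀ s t : ℝ, 0 ≤ (s • a + t • b) * (s • a + t • b) := fun s t => by
    have := posSemidef_conjTranspose_mul_self (s • a + t • b)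
    rw [conjTranspose_add, conjTranspose_smul, conjTranspose_smul, z1, w1] at this
    exact this.nonneg
  have a2 := tr_mul_nn hY.add_nn (sqn (r / 2 - 1) (r / 2 + 1))
  have a3 := tr_mul_nn hY.sub_nn (sqn (r / 2 + 1) (r / 2 - 1))
  have a4 := tr_nn (sqn 1 (-1))
  simp only [Matrix.mul_add, Matrix.add_mul, Matrix.sub_mul, Matrix.mul_smul, Matrix.smul_mul,
    Matrix.one_mul, map_add, map_sub, map_smul, smul_eq_mul, z2, w2, tr_comm b a] at a2 a3 a4
  rw [Matrix.mul_sub, map_sub, ← sub_le_iff_le_add', le_div_iff₀ hr]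
  simp only [Real.exp_zero] at a1
  rw [← h] at a2 a3 a4
  nlinarith [mul_nonneg (sq_nonneg r) a4]

/-- A reverse form of Pinsker's inequality. -/
theorem rev (hZ : Z.PosDef) (hW : W.PosDef) {k s : ℝ} (hs : 0 < s) (hk : 0 ≤ k) (h : Z ≤ k • W) :
    D Z W ≤ tr (Z * (lg (Z + s • W) - lg W)) ∧
      tr (W * (lg (Z + s • W) - lg W)) ≤ tr Z + (s - 1) * tr W ∧
      Real.log s • (1 : Matrix κ κ ℂ) ≤ lg (Z + s • W) - lg W ∧
      lg (Z + s • W) - lg W ≤ Real.log (k + s) • 1 := by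
  have h1 : Z ≤ Z + s • W := le_add_of_nonneg_right (smul_nn (pd_nn hW) hs.le)
  refine ⟨tr_mul_le (pd_nn hZ) (sub_le_sub_right (lg_mono hZ h1) _), ?_,
    le_lg_sub hW hs (le_add_of_nonneg_left (pd_nn hZ)),
    lg_sub_le (pd_of_le hZ h1) hW (by positivity) (by rw [add_smul]; exact add_le_add_left h _)⟩
  have := klein hW (pd_of_le hZ h1)
  simp only [D, Matrix.mul_sub, map_sub, map_add, map_smul, smul_eq_mul] at this ⊢
  linarith

end Pool.Agent.MP_47bb2a_mp.H42
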