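import Pool.Agent.MP_47bb2a_mp.H42.Tenth

/-! A test operator against a perturbed separable state. -/

open scoped ComplexOrder MatrixOrder Kronecker
open Matrix MeasureTheory

namespace Pool.Agent.MP_47bb2a_mp.H42

open H97

variable {A B : Type*} [Fintype A] [Fintype B] [DecidableEq A] [DecidableEq B]

theorem D_smul_smul {W : Matrix (A × B) (A × B) ℂ} (hW : W.PosDef) {r s : ℝ} (hr : 0 < r)
    (hs : 0 < s) : D (r • W) (s • W) = r * tr W * (Real.log r - Real.log s) := by
  simp only [D, lg_smul hW hr, lg_smul hW hs, add_sub_add_right_eq_sub, ← sub_smul,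
    mul_smul_comm, mul_one, map_smul, smul_eq_mul]
  ring

variable [Nonempty A] [Nonempty B]

theorem test {G S W : Matrix (A × B) (A × B) ℂ} (hG : Polar (Neg A B) G) (g1 : G.PosDef)
    (hS : S.PosDef) (h1 : tr (S * S) = 1) (hW : W.PosDef)
    (hc : (1 + tr W)⁻¹ • (S * S + W) ∈ Sep1 A B) {w z : ℝ} (hw : Real.exp (-1) < w) (hz : 0 < z)
    (h : tr (S * G * S) ^ 2 * (w * Real.log w) + tr (S * G * S * G) * (tr W * (z * Real.log z)) ≤
      (tr (S * G * S * G) - tr (S * G * S) ^ 2) * Real.exp (-1)) :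
    w * tr (S * G * S) + z * tr (G * W) ≤ 1 + tr W := by
  have hρ : (S * S).PosDef := pd_mul hS hS (Commute.refl _)
  have e : sq (S * S) = S := sq_sq (pd_nn hS)
  have g2 : (S * G * S).PosDef := by
    simpa only [star_eq_conjTranspose, hS.1.eq] using
      hS.isUnit.posDef_star_right_conjugate_iff.2 g1
  have m0 := tr_pos g2
  have c1 := cs_Q2 hρ conjTranspose_one g2.1
  have c2 := Q2_conj hρ G
  have c3 : tr (G * (S * S)) = tr (S * G * S) := by
    rw [← mul_assoc, tr_comm (G * S) S, ← mul_assoc]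
  have c4 := tr_comm G (S * G * S)
  simp only [e] at c1 c2
  simp only [mul_one, one_mul, h1, c2] at c1
  have w0 := tr_pos hW
  have e0 := Real.exp_pos (-1)
  generalize S * G * S = Y at *
  generalize S * S = ρ at *
  have r0 : 0 < tr (Y * G) := (pow_pos m0 2).trans_le c1
  have k0 : 0 < 1 + tr W := by positivity
  have w1 : 0 < w := e0.trans hw
  have x0 : 0 < Real.exp (-1) / (1 + tr W) := div_pos e0 k0
  have c0 : 0 < (w - Real.exp (-1)) / (1 + tr W) := div_pos (sub_pos.2 hw) k0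
  have y0 : 0 < (w - Real.exp (-1)) / (1 + tr W) * tr Y / tr (Y * G) := by positivity
  have z0 : 0 < z / (1 + tr W) := div_pos hz k0
  have d := D_path hρ (pd_smul g2 y0) h1 x0 c0 (p := tr Y ^ 2 / tr (Y * G))
    (by rw [map_smul, smul_eq_mul]; field_simp)
    (by rw [Q2_smul, c2, map_smul, smul_eq_mul]; field_simp)
  have p1 := (pd_smul hρ x0).add (pd_smul g2 y0)
  have p2 := pd_smul hW z0
  have p3 := pd_smul hρ (inv_pos.2 k0)
  have p4 := pd_smul hW (inv_pos.2 k0)
  have d2 := D_convex p1 p2 p3 p4 one_pos one_pos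
  simp only [one_smul, one_mul] at d2
  rw [D_smul hρ (inv_pos.2 k0), D_smul_smul hW z0 (inv_pos.2 k0), map_add, map_smul, map_smul, h1,
    smul_eq_mul, smul_eq_mul, Real.log_inv, Real.log_div hz.ne' k0.ne'] at d2
  rw [← add_div, add_sub_cancel, Real.log_div e0.ne' k0.ne', Real.log_div w1.ne' k0.ne',
    Real.log_exp] at d
  have n : (1 - tr Y ^ 2 / tr (Y * G)) * (Real.exp (-1) / (1 + tr W) * (-1 - Real.log (1 + tr W))) +
      tr Y ^ 2 / tr (Y * G) * (w / (1 + tr W) * (Real.log w - Real.log (1 + tr W))) -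
      -Real.log (1 + tr W) * (Real.exp (-1) / (1 + tr W) * 1 +
        (w - Real.exp (-1)) / (1 + tr W) * tr Y / tr (Y * G) * tr Y) +
      z / (1 + tr W) * tr W * (Real.log z - Real.log (1 + tr W) - -Real.log (1 + tr W)) =
      (tr Y ^ 2 * (w * Real.log w) + tr (Y * G) * (tr W * (z * Real.log z)) -
        (tr (Y * G) - tr Y ^ 2) * Real.exp (-1)) / (tr (Y * G) * (1 + tr W)) := by
    field_simp
    ring
  have n2 := div_nonpos_of_nonpos_of_nonneg (sub_nonpos.2 h) (mul_pos r0 k0).le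
  rw [smul_add] at hc
  have g5 := hG.2 _ ⟨p1.add p2, _, hc, p3.add p4, by linarith⟩
  rw [← tr_def, mul_add, mul_add, map_add, map_add, mul_smul_comm, mul_smul_comm, mul_smul_comm,
    map_smul, map_smul, map_smul, c3, c4, smul_eq_mul, smul_eq_mul, smul_eq_mul,
    div_mul_cancel₀ _ r0.ne'] at g5
  rw [← div_le_one k0]
  refine le_of_eq_of_le ?_ g5
  field_simp
  ring

end Pool.Agent.MP_47bb2a_mp.H42
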