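import Pool.Agent.MP_47bb2a_mp.H42.Tenth
import Pool.Agent.MP_47bb2a_mp.H20.Succ

/-! The reduction without loss, from a bound on product states. -/

open scoped ComplexOrder MatrixOrder Kronecker
open Matrix MeasureTheory

namespace Pool.Agent.MP_47bb2a_mp.H42

open H97

theorem tp_posDef {ι : Type*} [Fintype ι] [DecidableEq ι] {M : Matrix ι ι ℂ} (h : M.PosDef)
    (n : ℕ) : (tp n M).PosDef := by
  refine (tp_psd h.posSemidef).posDef_iff_isUnit.2 ?_
  obtain ⟨N, hN⟩ := h.isUnit.exists_right_inv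
  exact IsUnit.of_mul_eq_one (tp n N) (by rw [tp_mul, hN, tp_one])

theorem rel_tp {ι : Type*} [Fintype ι] [DecidableEq ι] {M N : Matrix ι ι ℂ} (h : M.PosDef)
    (h' : N.PosDef) (t : M.trace = 1) (n : ℕ) :
    H20.rel (tp n M) (tp n N) = n * H20.rel M N := by
  induction n with
  | zero =>
    have : tp 0 M = tp 0 N := by
      ext x y
      simp [tp]
    simp [this, H20.rel, H20.tr]
  | succ n ih =>
    have a := tp_posDef h n
    have b := tp_posDef h' n
    rw [H20.tp_succ, H20.tp_succ, H20.k1, H20.k1,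
      H20.rel_sub_equiv _ (h.kronecker a).1 (h'.kronecker b).1,
      H20.rel_kron h h' a b t (by rw [tp_trace, t, one_pow]), ih]
    push_cast
    ring

variable {A B : Type*} [Fintype A] [Fintype B] [DecidableEq A] [DecidableEq B] [Nonempty A]
  [Nonempty B]

theorem dominated_exact
    (h : ∀ G, Polar (Neg A B) G → ∀ (a : Matrix A A ℂ) (b : Matrix B B ℂ), a.PosDef → b.PosDef →
      tr (a ⊗ₖ b * G * a ⊗ₖ b * G) ≤ tr (a * a) * tr (b * b)) :
    ∃ μ : Measure (States (A × B)), IsProbabilityMeasure μ ∧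
      ∀ Δ > (0 : ℝ), ∃ N : ℕ, ∀ n, N ≤ n → ∀ σ ∈ Sep A B n, Symm σ → Dominated μ
        (fun ω => (EReal.exp (-relEntSep (tp n ω.1) + (n * Δ : ℝ))).toReal) σ := by
  obtain ⟨μ, h1, -, h2⟩ := (base_neg (A := A) (B := B)).dominated
  refine ⟨μ, h1, fun Δ hΔ => (h2 Δ hΔ).imp fun N hN n hn σ hσ hs => ?_⟩
  have lb : ∀ ω : States (A × B), ((-Fintype.card (Fin n → A × B) : ℝ) : EReal) ≤
      relEntSep (tp n ω.1) := fun ω =>
    le_iInf₂ fun τ hτ => relEnt_ge (tp_psd ω.2.1) (sep_state hτ)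
  have ub : ∀ ω : States (A × B), EReal.exp (-relEntSep (tp n ω.1) + (n * Δ : ℝ)) ≤
      ENNReal.ofReal (Real.exp (Fintype.card (Fin n → A × B) + n * Δ)) := fun ω => by
    rw [← EReal.exp_coe, EReal.exp_le_exp_iff, EReal.coe_add]
    exact add_le_add_left (EReal.neg_le.2 (lb ω)) _
  refine hN n hn _ (fun _ => ENNReal.toReal_nonneg) ⟨_, fun ω =>
      ENNReal.toReal_le_of_le_ofReal (Real.exp_pos _).le (ub ω)⟩ (fun ω t t0 ht => ?_) σ
      (sep_state hσ).1 hs fun G hG => sep_bound (thmM G hG.1 (h G hG) n) hσ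
  obtain ⟨a1, τ, a2, a3, a4⟩ := ht
  have t1 : 0 < t := lt_of_le_of_ne t0 fun h => by
    have := tr_pos a1
    simp [← h] at this
  have a5 : ω.1.PosDef := by
    simpa [smul_smul, t1.ne'] using pd_smul a1 (inv_pos.2 t1)
  have a6 : H20.rel ω.1 τ ≤ -Real.log t := by
    change D ω.1 τ ≤ _
    simp only [D, lg_smul a5 t1, mul_sub, mul_add, smul_mul_assoc, mul_smul_comm, mul_one,
      map_sub, map_add, map_smul, smul_eq_mul, tr_def ω.1, ω.2.2, Complex.one_re] at a4 ⊢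
    nlinarith
  have : relEntSep (tp n ω.1) ≤ ((n * -Real.log t : ℝ) : EReal) :=
    (iInf₂_le _ (tp_sep a2)).trans (by
      rw [H20.relEnt_eq _ (tp_posDef a3 n), EReal.coe_le_coe_iff, rel_tp a5 a3 ω.2.2]
      exact mul_le_mul_of_nonneg_left a6 (Nat.cast_nonneg n))
  rw [← ENNReal.ofReal_le_iff_le_toReal ((ub ω).trans_lt ENNReal.ofReal_lt_top).ne]
  refine le_trans (ENNReal.ofReal_le_ofReal
    (?_ : _ ≤ Real.exp (-(n * -Real.log t) + n * Δ))) ?_
  · rw [show -(n * -Real.log t) + n * Δ = n * Δ + n * Real.log t by ring, Real.exp_add,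
      Real.exp_nat_mul (Real.log t), Real.exp_log t1]
  rw [← EReal.exp_coe, EReal.exp_le_exp_iff, EReal.coe_add, EReal.coe_neg]
  exact add_le_add_left (EReal.neg_le_neg_iff.2 this) _

end Pool.Agent.MP_47bb2a_mp.H42
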