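import Pool.Agent.MP_47bb2a_mp.H42.Dom
import Pool.Agent.MP_47bb2a_mp.H42.Defs

/-! The reduction with half the single-copy relative entropy of entanglement. -/

open scoped ComplexOrder MatrixOrder Kronecker
open Matrix MeasureTheory

namespace Pool.Agent.MP_47bb2a_mp.H42

open H97

variable {A B : Type*} [Fintype A] [Fintype B] [DecidableEq A] [DecidableEq B] [Nonempty A]
  [Nonempty B]

theorem dominated_half :
    ∃ μ : Measure (States (A × B)), IsProbabilityMeasure μ ∧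
      ∀ Δ > (0 : ℝ), ∃ N : ℕ, ∀ n, N ≤ n → ∀ σ ∈ Sep A B n, Symm σ → Dominated μ
        (fun ω => (EReal.exp (-((n / 2 : ℝ) * relEntSep1 ω.1) + (n * Δ : ℝ))).toReal) σ := by
  obtain ⟨μ, h1, -, h2⟩ := (base_gen (A := A) (B := B)).dominated
  refine ⟨μ, h1, fun Δ hΔ => (h2 Δ hΔ).imp fun N hN n hn σ hσ hs => ?_⟩
  have n0 : (0 : EReal) ≤ (n / 2 : ℝ) := EReal.coe_nonneg.2 (by positivity)
  have lb : ∀ ω : States (A × B), ((-Fintype.card (A × B) : ℝ) : EReal) ≤ relEntSep1 ω.1 :=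
    fun ω => le_iInf₂ fun τ hτ => relEnt_ge ω.2.1 (sep1_state hτ)
  have ub : ∀ ω : States (A × B), EReal.exp (-((n / 2 : ℝ) * relEntSep1 ω.1) + (n * Δ : ℝ)) ≤
      ENNReal.ofReal (Real.exp (-(n / 2 * -Fintype.card (A × B)) + n * Δ)) := fun ω => by
    rw [← EReal.exp_coe, EReal.exp_le_exp_iff, EReal.coe_add, EReal.coe_neg, EReal.coe_mul]
    exact add_le_add_left (EReal.neg_le_neg_iff.2 (mul_le_mul_of_nonneg_left (lb ω) n0)) _
  refine hN n hn _ (fun _ => ENNReal.toReal_nonneg) ⟨_, fun ω =>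
      ENNReal.toReal_le_of_le_ofReal (Real.exp_pos _).le (ub ω)⟩ (fun ω t t0 ht => ?_) σ
      (sep_state hσ).1 hs (sep_polar hσ)
  obtain ⟨a1, τ, a2, a3, a4⟩ := hull_sep ht
  have t1 : 0 < t := lt_of_le_of_ne t0 fun h => by
    have := tr_pos a1
    simp [← h] at this
  have : relEntSep1 ω.1 ≤ (-2 * Real.log t : ℝ) := (iInf₂_le τ a2).trans (relEnt_le ω.2 a3 t1 a4)
  rw [← ENNReal.ofReal_le_iff_le_toReal ((ub ω).trans_lt ENNReal.ofReal_lt_top).ne,
    ← Real.exp_log t1, ← Real.exp_nat_mul, ← Real.exp_add, ← EReal.exp_coe, EReal.exp_le_exp_iff,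
    show n * Δ + n * Real.log t = -(n / 2 * (-2 * Real.log t)) + n * Δ by ring, EReal.coe_add,
    EReal.coe_neg, EReal.coe_mul]
  exact add_le_add_left (EReal.neg_le_neg_iff.2 (mul_le_mul_of_nonneg_left this n0)) _

end Pool.Agent.MP_47bb2a_mp.H42
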