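import Pool.Agent.MP_47bb2a_mp.H42.Cut

/-! The bound across a cut when one party has product marginals. -/

open scoped ComplexOrder MatrixOrder Kronecker ComplexStarModule
open Matrix

namespace Pool.Agent.MP_47bb2a_mp.H42

open H97

variable {A B : Type*} [Fintype A] [Fintype B] [DecidableEq A] [DecidableEq B]

/-- The class of tests. -/
structure Good (c : ℝ) (G : Matrix (A × B) (A × B) ℂ) : Prop where
  nn : 0 ≤ G
  bd : G ≤ c • 1
  n1 : ∀ (a : Matrix A A ℂ) (b : Matrix B B ℂ), a.PosDef → b.PosDef →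
    tr (a ⊗ₖ b * G * a ⊗ₖ b * G) ≤ tr (a * a) * tr (b * b)

/-- An exponential bound on product vectors. -/
def Bd (A B : Type*) [Fintype A] [Fintype B] [DecidableEq A] [DecidableEq B] (c g : ℝ) : Prop :=
  ∀ (ι : Type) [Fintype ι] [DecidableEq ι] (G : ι → Matrix (A × B) (A × B) ℂ),
    (∀ i, Good c (G i)) → ∀ x y,
      q (tens G) (pv x y) ≤ Real.exp (g * Fintype.card ι) * (nsq x * nsq y)

variable {c g : ℝ} {G : Matrix (A × B) (A × B) ℂ}

theorem Good.tr (h : Good c G) : Good c Gᵀ := by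
  refine ⟨h.nn.posSemidef.transpose.nonneg, le_iff.2 (by simpa using (le_iff.1 h.bd).transpose),
    fun a b ha hb => ?_⟩
  have := h.n1 aᵀ bᵀ ha.transpose hb.transpose
  simp only [tr_def, ← transpose_mul, trace_transpose, kroneckerMap_transpose] at this ⊢
  rw [← trace_transpose]
  simp only [transpose_mul, transpose_transpose]
  rwa [trace_mul_comm, ← mul_assoc]

theorem Good.herm (h : Good c G) {a : Matrix A A ℂ} (ha : a.PosDef) {b : Matrix B B ℂ}
    (hb : b.IsHermitian) : H42.tr (a ⊗ₖ b * G * a ⊗ₖ b * G) ≤ H42.tr (a * a) * H42.tr (b * b) := by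
  refine le_of_eps (c := H42.tr (a * a) * Fintype.card B) fun t ht => ?_
  have hb' := cfc_id' ℝ b hb.isSelfAdjoint
  have p1 : cfc (fun x : ℝ => √(x * x + t)) b * cfc (fun x : ℝ => √(x * x + t)) b =
      b * b + t • 1 := by
    rw [← cfc_mul _ _ _ (cont _ _) (cont _ _),
      cfc_congr fun x _ => Real.mul_self_sqrt (by nlinarith [mul_self_nonneg x]),
      cfc_add _ _ _ (cont _ _) (cont _ _), cfc_mul _ _ _ (cont _ _) (cont _ _), hb',
      cfc_const _ _ hb.isSelfAdjoint, Algebra.algebraMap_eq_smul_one]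
  have p2 : ∀ s : ℝ, s * s = 1 → 0 ≤ cfc (fun x : ℝ => √(x * x + t)) b + s • b := fun s hs => by
    conv_rhs => enter [2]; rw [← hb', ← cfc_const_mul _ _ _ (cont _ _)]
    rw [← cfc_add _ _ _ (cont _ _) (cont _ _)]
    exact cfc_nonneg fun x _ => neg_le_iff_add_nonneg.1 (Real.le_sqrt_of_sq_le (by nlinarith))
  have p3 : (cfc (fun x : ℝ => √(x * x + t)) b).PosDef := by
    refine (cfc_nonneg fun _ _ => Real.sqrt_nonneg _).posSemidef.posDef_iff_isUnit.2
      (isUnit_mul_self_iff.1 ?_)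
    rw [p1]
    refine (PosDef.posSemidef_add ?_ (pd_smul PosDef.one ht)).isUnit
    simpa only [hb.eq] using posSemidef_conjTranspose_mul_self b
  generalize cfc (fun x : ℝ => √(x * x + t)) b = P at *
  have h1 := h.n1 a P ha p3
  have h2 := tr_mul_nn (ha.posSemidef.kronecker (p2 1 (by ring)).posSemidef).nonneg
    ((ha.posSemidef.kronecker (p2 (-1) (by ring)).posSemidef).mul_mul_conjTranspose_same G).nonneg
  have h3 : H42.tr (a ⊗ₖ b * G * a ⊗ₖ P * G) = H42.tr (a ⊗ₖ P * G * a ⊗ₖ b * G) := by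
    rw [mul_assoc, tr_comm, ← mul_assoc]
  simp only [h.nn.posSemidef.1.eq, kronecker_add, kronecker_smul, mul_add, add_mul, smul_mul_assoc,
    mul_smul_comm, map_add, map_smul, smul_eq_mul, ← mul_assoc, h3] at h2
  rw [p1, map_add, map_smul, tr_one, smul_eq_mul] at h1
  linarith

theorem Good.any (h : Good c G) {a : Matrix A A ℂ} (ha : a.PosDef) (b : Matrix B B ℂ) :
    H42.tr ((a ⊗ₖ b)ᴴ * G * a ⊗ₖ b * G) ≤ H42.tr (a * a) * H42.tr (bᴴ * b) := by
  obtain ⟨x, y, hx, hy, rfl⟩ : ∃ x y : Matrix B B ℂ, x.IsHermitian ∧ y.IsHermitian ∧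
      b = x + Complex.I • y :=
    ⟨ℜ b, ℑ b, (ℜ b).2, (ℑ b).2, (realPart_add_I_smul_imaginaryPart b).symm⟩
  have h1 := h.herm ha hx
  have h2 := h.herm ha hy
  have h3 : (a ⊗ₖ y * G * a ⊗ₖ x * G).trace = (a ⊗ₖ x * G * a ⊗ₖ y * G).trace := by
    rw [mul_assoc, trace_mul_comm, ← mul_assoc]
  simp only [tr_def, conjTranspose_kronecker, conjTranspose_add, conjTranspose_smul, ha.1.eq, hx.eq,
    hy.eq, kronecker_add, kronecker_smul, mul_add, add_mul, smul_mul_assoc, mul_smul_comm,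
    trace_add, trace_smul, h3, trace_mul_comm y x] at h1 h2 ⊢
  simp
  linarith

variable {ι ι₁ ι₂ : Type} [Fintype ι] [Fintype ι₁] [Fintype ι₂] [DecidableEq ι] [DecidableEq ι₁]
  [DecidableEq ι₂]

theorem loc {G : ι → Matrix (A × B) (A × B) ℂ} (h : ∀ i, Good c (G i)) {a : ι → Matrix A A ℂ}
    (ha : ∀ i, (a i).PosDef ∧ tr (a i * a i) = 1) (b : Matrix (ι → B) (ι → B) ℂ) :
    tr ((ct (tens a) b)ᴴ * tens G * ct (tens a) b * tens G) ≤ tr (bᴴ * b) := by
  let V : ι → Matrix ((A × B) × A × B) (B × B) ℂ := fun i =>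
    of fun z p => a i z.1.1 z.2.1 * if (z.1.2, z.2.2) = p then 1 else 0
  have K0 : ∀ i, ((V i)ᴴ * G i ⊗ₖ (G i)ᵀ * V i).PosSemidef := fun i =>
    ((h i).nn.posSemidef.kronecker (h i).tr.nn.posSemidef).conjTranspose_mul_mul_same _
  have K1 : ∀ i, (V i)ᴴ * G i ⊗ₖ (G i)ᵀ * V i ≤ 1 := fun i =>
    (psd_of_q (isHermitian_one.sub (K0 i).1) fun w => by
      have e : V i *ᵥ w = fun z => (a i ⊗ₖ of fun k l => w (k, l)) z.1 z.2 := by
        funext z
        simp [V, mulVec, dotProduct]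
      have := (h i).any (ha i).1 (of fun k l => w (k, l))
      rw [(ha i).2, one_mul, tr_def, tr_def, ← nsq_mat] at this
      rwa [q_sub, q_one, q_conj, e, q_kron, sub_nonneg] :)
  have h1 := q_le (tens_le (fun i => (K0 i).nonneg) K1) fun p => b (fun i => (p i).1) fun i => (p i).2
  have e : tens V *ᵥ (fun p => b (fun i => (p i).1) fun i => (p i).2) =
      fun z => ct (tens a) b (fun i => (z i).1) fun i => (z i).2 := by
    funext z
    simp only [V, mulVec, dotProduct, tens, of_apply, Finset.prod_mul_distrib, Finset.prod_boole,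
      Finset.mem_univ, true_imp_iff]
    rw [Finset.sum_eq_single fun i => ((z i).1.2, (z i).2.2)]
    · rw [if_pos fun _ => rfl, mul_one]
      rfl
    · exact fun p _ hp => by rw [if_neg fun hh => hp (funext hh).symm, mul_zero, zero_mul]
    · simp
  rw [tens_one, q_one, ← tens_mul, ← tens_mul, ← tens_ct, q_conj, e, tens_kron] at h1
  exact ((q_kron _ _ _).symm.trans (q_equiv (Equiv.arrowProdEquivProdArrow ι _ _) _
    fun z => ct (tens a) b z.1 z.2).symm).trans_le (h1.trans_eq ((nsq_equiv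
      (Equiv.arrowProdEquivProdArrow ι _ _) fun z => b z.1 z.2).trans (nsq_mat b)))

omit [DecidableEq A] in
theorem nsq_sp (σ : ι₁ ⊕ ι₂ ≃ ι) (U : Matrix (ι₁ → A) (ι₂ → A) ℂ) :
    nsq (fun z => U (sp σ A z).1 (sp σ A z).2) = (Uᴴ * U).trace.re :=
  (nsq_equiv (sp σ A) fun z => U z.1 z.2).trans (nsq_mat U)

theorem cut_le (hB : Bd A B c g) (σ : ι₁ ⊕ ι₂ ≃ ι) {G : ι → Matrix (A × B) (A × B) ℂ}
    (h : ∀ i, Good c (G i)) {τ : ι₁ → Matrix A A ℂ} (hτ : ∀ i, (τ i).PosDef ∧ (τ i).trace = 1)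
    {X : Matrix (ι₁ → A) (ι₂ → A) ℂ} (hX : X * Xᴴ ≤ tens τ) (y : (ι → B) → ℂ) :
    q (tens G) (pv (fun z => X (sp σ A z).1 (sp σ A z).2) y) ≤
      Real.exp (g * Fintype.card ι₂) * nsq y := by
  obtain ⟨Y, rfl⟩ : ∃ Y : Matrix (ι₁ → B) (ι₂ → B) ℂ, y = fun z => Y (sp σ B z).1 (sp σ B z).2 :=
    ⟨of fun s r => y ((sp σ B).symm (s, r)), by simp⟩
  have ny := nsq_sp σ Y
  have y0 := nsq_nonneg fun z => Y (sp σ B z).1 (sp σ B z).2
  refine (q_sp σ G (ct X Y)).trans_le (le_of_sq_le_sq ?_ (by positivity))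
  generalize (nsq fun z => Y (sp σ B z).1 (sp σ B z).2) = N at *
  refine (le_of_eps (b := N * (Real.exp (g * Fintype.card (ι₂ ⊕ ι₂)) * N)) (c := Fintype.card
    (ι₁ → B) * (Real.exp (g * Fintype.card (ι₂ ⊕ ι₂)) * N)) fun t ht => ?_).trans_eq ?_
  rotate_left
  · rw [Fintype.card_sum, Nat.cast_add, mul_add, Real.exp_add]
    ring
  have ha : (tens fun i => sq (τ i)).PosDef := tens_pd fun i => sq_pd (hτ i).1
  have hb0 : (Y * Yᴴ + t • 1).PosDef :=
    PosDef.posSemidef_add (posSemidef_self_mul_conjTranspose Y) (pd_smul PosDef.one ht)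
  have hb := sq_pd hb0
  have a2 : (tens fun i => sq (τ i)) * (tens fun i => sq (τ i)) = tens τ := by
    simp only [tens_mul, sq_mul (pd_nn (hτ _).1)]
  have b2 := sq_mul (pd_nn hb0)
  have l1 := loc (fun i => h (σ (.inl i))) (a := fun i => sq (τ i)) (fun i => ⟨sq_pd (hτ i).1,
    by rw [sq_mul (pd_nn (hτ i).1), tr_def, (hτ i).2, Complex.one_re]⟩) (sq (Y * Yᴴ + t • 1))
  have r1 := rest_le ha X (a2 ▸ hX)
  have r2 := rest_le hb Y (by rw [b2]; exact le_add_of_nonneg_right (smul_nn one_nn ht.le))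
  have r3 : (Xᴴ * X).trace.re ≤ 1 := by simpa [tr_def, trace_mul_comm X, tens_trace, hτ] using tr_le hX
  generalize (tens fun i => sq (τ i)) = a at *
  generalize sq (Y * Yᴴ + t • 1) = b at *
  have c1 := hcs (P := tens fun i => G (σ (.inl i))) (Q := tens fun i => (G (σ (.inr i)))ᵀ)
    (s := ct (sq a) (sq b)) (s' := ct (isq a) (isq b)) (ct X Y)
    (tens_nn fun i => (h _).nn).posSemidef.1 (tens_nn fun i => (h _).tr.nn).posSemidef.1
    (by rw [ct_ct, sq_ct, sq_ct]) (by rw [ct_ct, isq, isq, cfc_herm, cfc_herm])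
    (by rw [ct_mul, (isq_mul ha).2, (isq_mul hb).2, ct_one])
  rw [ct_mul, ct_mul (isq a), sq_mul (pd_nn ha), sq_mul (pd_nn hb), ct_ct X, ct_mul, ct_mul] at c1
  rw [ct_ct, ha.1.eq, hb.1.eq, b2, map_add, map_smul, tr_one, tr_def (Y * Yᴴ), trace_mul_comm,
    ← ny] at l1
  have u1 : (Xᴴ * (isq a * isq a) * X)ᴴ = Xᴴ * (isq a * isq a) * X := by
    simp [isq, cfc_herm, Matrix.mul_assoc]
  have u2 : (Yᴴ * (isq b * isq b) * Y)ᴴ = Yᴴ * (isq b * isq b) * Y := by
    simp [isq, cfc_herm, Matrix.mul_assoc]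
  generalize Xᴴ * (isq a * isq a) * X = U at *
  generalize Yᴴ * (isq b * isq b) * Y = V at *
  have c2 := hB (ι₂ ⊕ ι₂) (Sum.elim (fun i => (G (σ (.inr i)))ᵀ) fun i => G (σ (.inr i)))
    (by rintro (i | i); exacts [(h _).tr, h _])
    (fun z => U (sp (Equiv.refl _) A z).1 (sp (Equiv.refl _) A z).2)
    fun z => V (sp (Equiv.refl _) B z).1 (sp (Equiv.refl _) B z).2
  have c3 := (q_sp (Equiv.refl _) _ (ct U V)).symm.trans_le c2
  rw [nsq_sp, nsq_sp, ct_ct U, u1, u2] at c3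
  rw [u1] at r1
  rw [u2, ← ny] at r2
  have v0 : 0 ≤ (V * V).trace.re := by
    simpa only [u2, tr_def] using tr_nn (posSemidef_conjTranspose_mul_self V).nonneg
  have c4 := c3.trans (mul_le_mul_of_nonneg_left
    ((mul_le_mul (r1.trans r3) r2 v0 zero_le_one).trans_eq (one_mul _)) (Real.exp_pos _).le)
  rw [ct_ct, ← mul_assoc t, ← add_mul]
  refine c1.trans (mul_le_mul l1 c4 ?_ (by positivity))
  have hU : (ct U V)ᴴ = ct U V := by rw [ct_ct, u1, u2]
  have hQ := tens_nn fun i => (h (σ (.inr i))).tr.nn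
  simpa only [hU] using tr_mul_nn (hQ.posSemidef.mul_mul_conjTranspose_same (ct U V)).nonneg hQ

end Pool.Agent.MP_47bb2a_mp.H42
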