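import Pool.Agent.MP_47bb2a_mp.H42.Step

/-! Every state on many sites is close to a product state on a positive fraction of the sites,
after a local operation. -/

open scoped ComplexOrder MatrixOrder
open Matrix

namespace Pool.Agent.MP_47bb2a_mp.H42

universe v

variable {ι : Type*} {A : Type v} [Fintype ι] [DecidableEq ι] [Fintype A] [DecidableEq A]
  [Nonempty A] {Q : Finset ι} {u : ι} {ρ : Matrix (ι → A) (ι → A) ℂ} (e : Ens ι A)

/-- Inverse square root. -/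
noncomputable def isq {κ : Type*} [Fintype κ] [DecidableEq κ] (X : Matrix κ κ ℂ) : Matrix κ κ ℂ :=
  cfc (fun x => (√x)⁻¹) X

theorem isq_mul {κ : Type*} [Fintype κ] [DecidableEq κ] {X : Matrix κ κ ℂ} (h : X.PosDef) :
    isq X * sq X = 1 ∧ sq X * isq X = 1 := by
  have : isq X * sq X = 1 := by
    rw [isq, sq, ← cfc_mul _ _ _ (cont _ _) (cont _ _)]
    exact (cfc_congr fun x hx => inv_mul_cancel₀ (Real.sqrt_pos.2
      ((isStrictlyPositive_iff_posDef.2 h).spectrum_pos hx)).ne').trans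
      (cfc_const_one ℝ X h.1.isSelfAdjoint)
  exact ⟨this, mul_eq_one_comm.1 this⟩

/-- Conditionally on the outcomes the sites in `Q` are nearly independent. -/
def Ens.Inv (ρ : Matrix (ι → A) (ι → A) ℂ) (Q : Finset ι) (δ : ℝ) : Prop :=
  ∃ τ : e.C → ι → Matrix A A ℂ, (∀ c u, (τ c u).PosDef ∧ (τ c u).trace = 1) ∧
    ∑ c, D (E Q (e.F c * ρ)) (tr (e.F c * ρ) • prd Q (τ c)) ≤ δ * Q.card

/-- Total energy. -/
noncomputable def Ens.tot (ρ : Matrix (ι → A) (ι → A) ℂ) : ℝ :=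
  ∑ u, if u ∈ e.M then 1 else e.en ρ u

variable (hρ : ρ.PosDef) (hρ1 : tr ρ = 1)
include hρ

theorem Ens.inv_empty (δ : ℝ) : e.Inv ρ ∅ δ := by
  refine ⟨fun _ _ => (Fintype.card A : ℝ)⁻¹ • 1,
    fun _ _ => ⟨pd_smul PosDef.one (inv_pos.2 card_pos), by simp⟩, ?_⟩
  have h : ∀ c, (e.F c * ρ).trace = tr (e.F c * ρ) := fun c => by
    rw [← E_trace ∅, tr_eq (pd_nn (E_out_pd (e.out ∅ (by simp) c) (e.pd c) hρ)), tr_E]
  simp [E_empty, prd_empty, h, D]

include hρ1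

theorem Ens.inv_step (hu : u ∉ e.M) (huQ : u ∉ Q) (hQ : Disjoint Q e.M) {s : ℝ} (hs : 0 < s)
    (hs1 : s ≤ 1 / 2) (hd : e.Dev ρ Q u (s / (r0 A s * c1 A))) (h : e.Inv ρ Q (5 * s)) :
    e.Inv ρ (insert u Q) (5 * s) := by
  obtain ⟨τ, h1, h2⟩ := h
  have hQ' := Finset.disjoint_insert_left.2 ⟨hu, hQ⟩
  choose t Y t1 t2 t3 t4 using fun c => step hρ (e.pd c) huQ (e.out _ hQ' c) hs hs1
  have hr := mul_pos (r0_pos (A := A) hs hs1) (c1_pos (A := A))
  have h3 := Finset.sum_le_sum fun c (_ : c ∈ Finset.univ) => t4 c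
  have h4 := hd Y t3
  rw [Finset.sum_add_distrib, ← Finset.mul_sum, ← Finset.mul_sum, e.sum_p hρ1] at h3
  rw [le_div_iff₀' hr] at h4
  refine ⟨fun c => Function.update (τ c) u (t c), fun c v => ?_, ?_⟩
  · by_cases hv : v = u
    · simp [hv, t1, t2]
    · simp [hv, h1]
  have e1 : ∀ c, prd (insert u Q) (Function.update (τ c) u (t c)) =
      emb u ((Fintype.card A : ℝ) • t c) * prd Q (τ c) := fun c => by
    rw [← prd_ins huQ, Function.update_self]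
    refine congrArg (fun f => _ * tens f) (funext fun v => ?_)
    by_cases hv : v = u <;> simp [hv, huQ]
  have e2 : ∀ c, D (E (insert u Q) (e.F c * ρ)) (tr (e.F c * ρ) •
      (emb u ((Fintype.card A : ℝ) • t c) * prd Q (τ c))) = _ := fun c => by
    rw [← mul_smul_comm, chain (out_emb huQ _) (emb_pd u (pd_smul (t1 c) card_pos))
      (E_out_pd (e.out _ hQ' c) (e.pd c) hρ) (pd_smul (prd_pd fun v => (h1 c v).1) (e.p_pos hρ c))
      ((alg_prd _).smul _), E_tower (Finset.subset_insert u Q)]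
  simp only [e1, e2]
  rw [Finset.sum_add_distrib, Finset.card_insert_of_notMem huQ]
  push_cast
  linarith

theorem Ens.greedy {s : ℝ} (hs : 0 < s) (hs1 : s ≤ 1 / 2) (j : ℕ) :
    (∃ S, Disjoint S e.M ∧ S.card = j ∧ e.Inv ρ S (5 * s)) ∨ ∃ Q, Disjoint Q e.M ∧ Q.card < j ∧
      ∀ u ∉ e.M, u ∉ Q → ¬e.Dev ρ Q u (s / (r0 A s * c1 A)) := by
  induction j with
  | zero => exact Or.inl ⟨∅, by simp, rfl, e.inv_empty hρ _⟩
  | succ j ih =>
    rcases ih with ⟨S, h1, h2, h3⟩ | ⟨Q, h1, h2, h3⟩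
    · by_cases h : ∀ u ∉ e.M, u ∉ S → ¬e.Dev ρ S u (s / (r0 A s * c1 A))
      · exact Or.inr ⟨S, h1, by omega, h⟩
      push Not at h
      obtain ⟨u, a, b, c⟩ := h
      exact Or.inl ⟨insert u S, Finset.disjoint_insert_left.2 ⟨a, h1⟩,
        by rw [Finset.card_insert_of_notMem b, h2], e.inv_step hρ hρ1 a b h1 hs hs1 c h3⟩
    · exact Or.inr ⟨Q, h1, by omega, h3⟩

theorem Ens.tot_le : e.tot ρ ≤ Fintype.card ι := by
  refine (Finset.sum_le_card_nsmul _ _ 1 fun u _ => ?_).trans (by simp)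
  split_ifs with h
  exacts [le_rfl, e.en_le hρ hρ1 h]

theorem Ens.round (hQ : Disjoint Q e.M) {θ : ℝ} (hθ : 0 < θ) {k : ℕ}
    (hk : Q.card * Real.log ((Fintype.card A : ℝ) ^ 2) < k * (θ / 4) ^ 2)
    (h : ∀ u ∉ e.M, u ∉ Q → ¬e.Dev ρ Q u θ) : ∃ e' : Ens ι A, e'.M.card ≤ e.M.card + k ∧
      e.tot ρ + (Fintype.card ι - (e.M.card + k + Q.card : ℕ)) *
        (θ ^ 2 / (16 * Fintype.card (O A))) ≤ e'.tot ρ := by
  obtain ⟨e', h1, h2, h3, h4⟩ := e.phase hρ hQ ((θ / 4) ^ 2) k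
  have h5 := h4.resolve_right (hk.trans_le' (e'.psi_le hρ hρ1 h2)).not_ge
  have hK := card_pos (A := O A)
  refine ⟨e', h3, le_trans ?_ (Finset.sum_le_sum (f := fun u => (if u ∈ e.M then 1 else e.en ρ u) +
    if u ∈ (e'.M ∪ Q)ᶜ then θ ^ 2 / (16 * Fintype.card (O A)) else 0) fun u _ => ?_)⟩
  · rw [Finset.sum_add_distrib, Finset.sum_ite_mem, Finset.univ_inter, Finset.sum_const,
      nsmul_eq_mul, Finset.card_compl, Nat.cast_sub (Finset.card_le_univ _), Ens.tot]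
    gcongr
    exact (Finset.card_union_le _ _).trans (by omega)
  by_cases a : u ∈ e'.M
  · by_cases b : u ∈ e.M <;> simp [a, b, e.en_le hρ hρ1]
  have b : u ∉ e.M := fun b => a (h1.1 b)
  by_cases c : u ∈ Q
  · simpa [a, b, c] using h1.en_le hρ u
  simp only [a, b, c, if_false, Finset.mem_compl, Finset.mem_union, or_self, not_false_eq_true,
    if_true]
  by_contra hh
  refine h u b c fun Y hY => (h1.dev hρ hρ1 h2 (r := θ / (4 * Fintype.card (O A))) (by positivity)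
    (e'.dev_of_mi hρ hρ1 a c h2 (by positivity) (h5 u a c)) Y hY).trans ?_
  have h6 : (e'.en ρ u - e.en ρ u) / (θ / (4 * Fintype.card (O A))) ≤ θ / 4 := by
    rw [div_le_iff₀ (by positivity)]
    have : θ / 4 * (θ / (4 * Fintype.card (O A))) = θ ^ 2 / (16 * Fintype.card (O A)) := by
      field_simp
      norm_num
    linarith
  have h7 : (Fintype.card (O A) : ℝ) * (θ / (4 * Fintype.card (O A))) = θ / 4 := by field_simp
  linarith

theorem rounds {s : ℝ} (hs : 0 < s) (hs1 : s ≤ 1 / 2) {a b m R : ℕ}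
    (hb : Real.log ((Fintype.card A : ℝ) ^ 2) < b * (s / (r0 A s * c1 A) / 4) ^ 2)
    (hn : 2 * ((1 + a * b) ^ R * (1 + a)) * m ≤ Fintype.card ι) (r : ℕ) (hr : r ≤ R) :
    (∃ (e : Ens ι A) (S : Finset ι) (m' : ℕ), m ≤ m' ∧ e.M.card ≤ m' ∧ Disjoint S e.M ∧
      S.card = a * m' ∧ e.Inv ρ S (5 * s)) ∨ ∃ e : Ens ι A, e.M.card ≤ (1 + a * b) ^ r * m ∧
        r * (Fintype.card ι / 2 * ((s / (r0 A s * c1 A)) ^ 2 / (16 * Fintype.card (O A)))) ≤
          e.tot ρ := by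
  have hθ := div_pos hs (mul_pos (r0_pos (A := A) hs hs1) (c1_pos (A := A)))
  induction r with
  | zero =>
    refine Or.inr ⟨Ens.triv, Nat.zero_le _, (le_of_eq (by simp)).trans
      (Finset.sum_nonneg fun u _ => ?_)⟩
    split_ifs
    exacts [zero_le_one, Finset.sum_nonneg fun c _ => Finset.sum_nonneg fun _ _ =>
      mul_nonneg (Ens.p_pos _ hρ c).le (sq_nonneg _)]
  | succ r ih =>
    rcases ih (by omega) with h | ⟨e, h1, h2⟩
    · exact Or.inl h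
    rcases e.greedy hρ hρ1 hs hs1 (a * ((1 + a * b) ^ r * m)) with ⟨S, h3, h4, h5⟩ | ⟨Q, h3, h4, h5⟩
    · exact Or.inl ⟨e, S, _, Nat.le_mul_of_pos_left _ (by positivity), h1, h3, h4, h5⟩
    have l0 : 0 ≤ Real.log ((Fintype.card A : ℝ) ^ 2) :=
      Real.log_nonneg (one_le_pow₀ (by exact_mod_cast Fintype.card_pos))
    obtain ⟨e', h6, h7⟩ := e.round hρ hρ1 h3 hθ (k := b * (a * ((1 + a * b) ^ r * m))) (by
      have : (Q.card : ℝ) + 1 ≤ (a * ((1 + a * b) ^ r * m) : ℕ) := by exact_mod_cast h4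
      rw [Nat.cast_mul b]
      nlinarith [Nat.cast_nonneg (α := ℝ) Q.card]) h5
    have h8 : e.M.card + b * (a * ((1 + a * b) ^ r * m)) ≤ (1 + a * b) ^ (r + 1) * m := by
      rw [pow_succ]
      nlinarith
    have h9 : 2 * (e.M.card + b * (a * ((1 + a * b) ^ r * m)) + Q.card) ≤ Fintype.card ι := by
      have p1 : (1 + a * b) ^ (r + 1) * m ≤ (1 + a * b) ^ R * m :=
        Nat.mul_le_mul_right _ (Nat.pow_le_pow_right (by positivity) hr)
      have p2 : a * ((1 + a * b) ^ r * m) ≤ a * ((1 + a * b) ^ R * m) := Nat.mul_le_mul_left _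
        (Nat.mul_le_mul_right _ (Nat.pow_le_pow_right (by positivity) (by omega)))
      nlinarith
    refine Or.inr ⟨e', h6.trans h8, le_trans ?_ h7⟩
    have h10 : (2 : ℝ) * (e.M.card + b * (a * ((1 + a * b) ^ r * m)) + Q.card : ℕ) ≤
      Fintype.card ι := by exact_mod_cast h9
    rw [Nat.cast_succ, add_mul, one_mul]
    gcongr
    linarith

theorem Ens.final (hQ : Disjoint Q e.M) {δ : ℝ} (h : e.Inv ρ Q δ) :
    ∃ (τ : ι → Matrix A A ℂ) (X : Matrix (ι → A) (ι → A) ℂ),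
      (∀ u, (τ u).PosDef ∧ (τ u).trace = 1) ∧ E Q (X * ρ * Xᴴ) ≤ prd Q τ ∧
        Real.exp ((e.M.card * Real.log (c0 A) - δ * Q.card) / 2) ≤ tr (X * ρ) := by
  obtain ⟨τ, h1, h2⟩ := h
  have : Nonempty e.C := by
    by_contra hh
    rw [not_nonempty_iff] at hh
    simpa using e.sum_p hρ1
  rw [← mul_one (δ * _), ← e.sum_p hρ1, Finset.mul_sum] at h2
  obtain ⟨c, -, hc⟩ := Finset.exists_le_of_sum_le Finset.univ_nonempty h2
  have hO := e.out Q hQ c
  have hσ := E_out_pd hO (e.pd c) hρ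
  have hW := prd_pd (Q := Q) fun v => (h1 c v).1
  have hp := e.p_pos hρ c
  have hA : Alg Q (sq (prd Q (τ c)) * isq (E Q (e.F c * ρ))) :=
    ((alg_prd _).cfc _).mul ((alg_E _ _).cfc _)
  have F1 : 0 ≤ 1 - e.F c := sub_nonneg.2 (e.sum ▸ Finset.single_le_sum
    (fun c _ => pd_nn (e.pd c)) (Finset.mem_univ c))
  refine ⟨τ c, sq (prd Q (τ c)) * isq (E Q (e.F c * ρ)) * e.F c, h1 c, ?_, ?_⟩
  · have a1 := E_out_nn (hO.mul (out_one.sub hO)) (((Commute.one_right _).sub_right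
      (Commute.refl _)).mul_nonneg (pd_nn (e.pd c)) F1) (pd_nn hρ)
    rw [mul_sub, mul_one, sub_mul, map_sub, sub_nonneg, mul_assoc, E_out hO] at a1
    rw [conjTranspose_mul, (e.pd c).1.eq, mul_assoc _ (e.F c), ← mul_assoc _ (e.F c),
      E_mul' hA.ct, mul_assoc _ _ (e.F c), E_mul hA]
    refine (conj_le a1 _).trans_eq ?_
    rw [conjTranspose_mul, sq_ct, isq, cfc_herm, ← isq]
    calc _ = sq (prd Q (τ c)) * (isq (E Q (e.F c * ρ)) * sq (E Q (e.F c * ρ))) *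
          (sq (E Q (e.F c * ρ)) * isq (E Q (e.F c * ρ))) * sq (prd Q (τ c)) := by
          simp only [mul_assoc, ← mul_assoc (sq (E Q _)) (sq (E Q _)), sq_mul (pd_nn hσ)]
      _ = _ := by rw [(isq_mul hσ).1, (isq_mul hσ).2, mul_one, mul_one, sq_mul (pd_nn hW)]
  · rw [D_smul hW hp, tr_E] at hc
    have a1 := fid hσ hW (b := (δ * Q.card + Real.log (tr (e.F c * ρ))) / 2)
      (by rw [tr_E]; linarith)
    have a2 : sq (prd Q (τ c)) * isq (E Q (e.F c * ρ)) * E Q (e.F c * ρ) =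
        sq (prd Q (τ c)) * sq (E Q (e.F c * ρ)) := by
      conv_rhs => rw [← one_mul (sq (E Q _)), ← (isq_mul hσ).1]
      simp only [mul_assoc, sq_mul (pd_nn hσ)]
    have a3 := tr_mul_le (pd_nn hρ) (e.low c)
    rw [mul_smul_comm, mul_one, map_smul, hρ1, smul_eq_mul, mul_one, tr_comm] at a3
    have a4 := Real.log_le_log (pow_pos c0_pos _) a3
    rw [mul_assoc, ← tr_mul_E hA, a2, tr_comm]
    refine le_trans ?_ a1
    rw [tr_E, Real.log_pow] at *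
    conv_rhs => rw [← Real.exp_log hp, Real.log_exp, ← Real.exp_add]
    gcongr
    linarith

omit hρ hρ1 in
theorem pl (A : Type v) [Fintype A] [DecidableEq A] [Nonempty A] {ε : ℝ} (hε : 0 < ε) :
    ∃ L : ℕ, 0 < L ∧ ∀ (ι : Type) [Fintype ι] [DecidableEq ι] (m : ℕ), L * m ≤ Fintype.card ι →
      ∀ ρ : Matrix (ι → A) (ι → A) ℂ, ρ.PosDef → tr ρ = 1 →
        ∃ (S : Finset ι) (τ : ι → Matrix A A ℂ) (X : Matrix (ι → A) (ι → A) ℂ), m ≤ S.card ∧
          (∀ u, (τ u).PosDef ∧ (τ u).trace = 1) ∧ E S (X * ρ * Xᴴ) ≤ prd S τ ∧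
            Real.exp (-ε * S.card) ≤ tr (X * ρ) := by
  obtain ⟨s, hs, hs1, hs2⟩ : ∃ s : ℝ, 0 < s ∧ s ≤ 1 / 2 ∧ 5 * s ≤ ε :=
    ⟨min (1 / 2) (ε / 5), by positivity, min_le_left _ _, by linarith [min_le_right (1 / 2) (ε / 5)]⟩
  have hθ := div_pos hs (mul_pos (r0_pos (A := A) hs hs1) (c1_pos (A := A)))
  have hK := card_pos (A := O A)
  obtain ⟨a, ha⟩ := exists_nat_gt (max 0 (-Real.log (c0 A) / ε))
  obtain ⟨b, hb⟩ := exists_nat_gt (Real.log ((Fintype.card A : ℝ) ^ 2) /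
    (s / (r0 A s * c1 A) / 4) ^ 2)
  obtain ⟨R, hR⟩ := exists_nat_gt (2 / ((s / (r0 A s * c1 A)) ^ 2 / (16 * Fintype.card (O A))))
  rw [div_lt_iff₀ (by positivity)] at hb hR
  rw [max_lt_iff, div_lt_iff₀ hε, Nat.cast_pos] at ha
  refine ⟨2 * ((1 + a * b) ^ R * (1 + a)), by positivity, fun ι _ _ m hm ρ hρ hρ1 => ?_⟩
  have key : ∃ (e : Ens ι A) (S : Finset ι) (m' : ℕ), m ≤ m' ∧ e.M.card ≤ m' ∧ Disjoint S e.M ∧
      S.card = a * m' ∧ e.Inv ρ S (5 * s) := by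
    rcases m.eq_zero_or_pos with rfl | h0
    · exact ⟨Ens.triv, ∅, 0, le_rfl, le_rfl, by simp, by simp, Ens.inv_empty _ hρ _⟩
    refine (rounds hρ hρ1 hs hs1 hb hm R le_rfl).resolve_right fun ⟨e, _, h⟩ => ?_
    have h1 : (0 : ℝ) < Fintype.card ι := by exact_mod_cast lt_of_lt_of_le (by positivity) hm
    nlinarith [e.tot_le hρ hρ1]
  obtain ⟨e, S, m', h1, h2, h3, h4, h5⟩ := key
  obtain ⟨τ, X, h6, h7, h8⟩ := e.final hρ hρ1 h3 h5
  refine ⟨S, τ, X, h4 ▸ h1.trans (Nat.le_mul_of_pos_left _ ha.1), h6, h7, le_trans ?_ h8⟩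
  have h9 : (e.M.card : ℝ) ≤ m' := by exact_mod_cast h2
  have h10 : Real.log (c0 A) ≤ 0 := Real.log_nonpos c0_pos.le (mul_le_one₀
    (inv_le_one_of_one_le₀ (by exact_mod_cast Fintype.card_pos)) (by norm_num) (by norm_num))
  rw [h4, Nat.cast_mul]
  gcongr
  nlinarith [Nat.cast_nonneg (α := ℝ) m', mul_nonneg (Nat.cast_nonneg (α := ℝ) a)
    (Nat.cast_nonneg (α := ℝ) m')]

end Pool.Agent.MP_47bb2a_mp.H42
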