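import Pool.Agent.MP_47bb2a_mp.H42.Dom

/-! An upper bound for the relative entropy along a segment. -/

open scoped ComplexOrder MatrixOrder Kronecker
open Matrix

namespace Pool.Agent.MP_47bb2a_mp.H42

open H97

variable {κ : Type*} [Fintype κ] [DecidableEq κ] {Y Z W ρ : Matrix κ κ ℂ}

theorem log_mean {s t : ℝ} (hs : 0 < s) (ht : 0 < t) :
    (s * s - t * t) * (2 * (Real.log s - Real.log t)) ≤
      s * (s * s) * t⁻¹ - 2 * (s * t) + s⁻¹ * (t * (t * t)) := by
  have key : ∀ s t : ℝ, 0 < s → 0 < t → t ≤ s → (s * s - t * t) * (2 * (Real.log s - Real.log t)) ≤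
      s * (s * s) * t⁻¹ - 2 * (s * t) + s⁻¹ * (t * (t * t)) := fun s t hs ht h => by
    have h1 := Real.self_le_sinh_iff.2 (Real.log_nonneg ((one_le_div ht).2 h))
    rw [Real.sinh_log (div_pos hs ht), Real.log_div hs.ne' ht.ne'] at h1
    refine (mul_le_mul_of_nonneg_left (mul_le_mul_of_nonneg_left h1 zero_le_two)
      (by nlinarith)).trans_eq ?_
    field_simp
    ring
  rcases le_total t s with h | h
  · exact key s t hs ht h
  · linarith [key t s ht hs h]

theorem bkm (hZ : Z.PosDef) (hW : W.PosDef) :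
    tr ((Z - W) * (lg Z - lg W)) ≤ tr ((Z - W) * isq W * ((Z - W) * isq Z)) := by
  obtain ⟨P, P0, hP⟩ := spec2 hZ.1 hW.1
  have a1 := hP (fun x => x * Real.log x) fun _ => 1
  have a2 := hP (fun x => x) Real.log
  have a3 := hP Real.log fun x => x
  have a4 := hP (fun _ => 1) fun x => x * Real.log x
  have a5 := hP (fun x => √x * x) fun x => (√x)⁻¹
  have a6 := hP Real.sqrt Real.sqrt
  have a7 := hP (fun x => (√x)⁻¹) fun x => √x * x
  rw [cfc_mul _ _ _ (cont _ _) (cont _ _)] at a1 a4 a5 a7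
  simp only [cfc_id' ℝ Z hZ.1.isSelfAdjoint, cfc_id' ℝ W hW.1.isSelfAdjoint,
    cfc_const_one ℝ Z hZ.1.isSelfAdjoint, cfc_const_one ℝ W hW.1.isSelfAdjoint, mul_one,
    one_mul] at a1 a2 a3 a4 a5 a7
  have e : tr ((Z - W) * isq W * ((Z - W) * isq Z)) =
      tr (sq Z * Z * isq W) - 2 * tr (sq Z * sq W) + tr (isq Z * (sq W * W)) := by
    have z1 := isq_mul hZ
    have w1 := isq_mul hW
    have z2 := sq_mul (pd_nn hZ)
    have w2 := sq_mul (pd_nn hW)
    generalize sq Z = a at *
    generalize sq W = b at *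
    generalize isq Z = a' at *
    generalize isq W = b' at *
    subst z2 w2
    have e1 : (a * a - b * b) * b' * ((a * a - b * b) * a') =
        a * a * b' * a - a * a * b * a' - b * a + b * (b * b) * a' := by
      simp only [sub_mul, mul_sub, mul_assoc, z1.2, w1.2, mul_one, ← mul_assoc b' b, w1.1,
        one_mul]
      abel
    rw [e1, map_add, map_sub, map_sub, tr_comm _ a, tr_comm _ a', tr_comm b, tr_comm _ a']
    simp only [← mul_assoc, z1.1, one_mul]
    ring
  rw [e, sub_mul, mul_sub, mul_sub, map_sub, map_sub, map_sub, tr_comm W (lg Z)]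
  simp only [lg, sq, isq, a1, a2, a3, a4, a5, a6, a7, Finset.mul_sum, ← Finset.sum_add_distrib,
    ← Finset.sum_sub_distrib]
  refine Finset.sum_le_sum fun i _ => Finset.sum_le_sum fun j _ => ?_
  have hz := hZ.eigenvalues_pos i
  have hw := hW.eigenvalues_pos j
  have h1 := mul_le_mul_of_nonneg_left (log_mean (Real.sqrt_pos.2 hz) (Real.sqrt_pos.2 hw))
    (P0 i j)
  rw [Real.log_sqrt hz.le, Real.log_sqrt hw.le, Real.mul_self_sqrt hz.le,
    Real.mul_self_sqrt hw.le] at h1
  linarith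

theorem q2_le (hρ : ρ.PosDef) (hY : Y.PosDef) {s t c : ℝ} (hs : 0 < s) (ht : 0 ≤ t) (hc : 0 < c)
    (hQ : Q2 Y ρ = c * tr Y) : Q2 Y (s • ρ + t • Y) ≤ tr Y * c / (s + t * c) := by
  have hσ := (pd_smul hρ hs).add_posSemidef (smul_nn (pd_nn hY) ht).posSemidef
  have hG : (isq (s • ρ + t • Y) * Y * isq (s • ρ + t • Y))ᴴ =
      isq (s • ρ + t • Y) * Y * isq (s • ρ + t • Y) := by
    simp only [conjTranspose_mul, isq_ct, hY.1.eq, mul_assoc]
  have a1 := lieb hρ hY hs.le ht hσ hG
  have a2 := cs_Q2 hρ hG hY.1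
  have a3 := cs_Q2 hY hG hY.1
  have a4 := Q2_conj hσ (isq (s • ρ + t • Y) * Y * isq (s • ρ + t • Y))
  have a5 : tr (isq (s • ρ + t • Y) * Y * isq (s • ρ + t • Y) * Y) = Q2 Y (s • ρ + t • Y) := by
    rw [Q2, tr_comm]
    simp only [mul_assoc]
  have a6 : sq (s • ρ + t • Y) * (isq (s • ρ + t • Y) * Y * isq (s • ρ + t • Y)) *
      sq (s • ρ + t • Y) = Y := by
    rw [← mul_assoc, ← mul_assoc, (isq_mul hσ).2, one_mul, mul_assoc, (isq_mul hσ).1, mul_one]
  have a7 : Q2 Y Y = tr Y := by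
    have := Q2_conj hY 1
    simpa only [mul_one, sq_mul (pd_nn hY)] using this
  have y0 := tr_nn (pd_nn hY)
  rw [← a4, a6] at a1
  rw [a5] at a2 a3
  rw [hQ] at a2
  rw [a7] at a3
  rw [le_div_iff₀ (by positivity)]
  generalize Q2 Y (s • ρ + t • Y) = r at *
  rcases le_or_gt r 0 with h | h
  · exact (mul_nonpos_of_nonpos_of_nonneg h (by positivity)).trans (by positivity)
  refine le_of_mul_le_mul_left ?_ h
  nlinarith [mul_le_mul_of_nonneg_left a2 hs.le, mul_le_mul_of_nonneg_left a3 (mul_nonneg ht hc.le),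
    mul_le_mul_of_nonneg_left a1 (mul_nonneg hc.le y0)]

theorem tele {g : ℝ → ℝ} {C : ℝ}
    (h : ∀ u δ, 0 ≤ u → 0 < δ → u + δ ≤ 1 → g (u + δ) ≤ g u + C * δ ^ 2) : g 1 ≤ g 0 := by
  refine le_of_eps (c := |C|) fun t ht => ?_
  obtain ⟨N, hN⟩ := exists_nat_one_div_lt ht
  have N0 : (0 : ℝ) < N + 1 := by positivity
  have key : ∀ k : ℕ, k ≤ N + 1 → g (k / (N + 1)) ≤ g 0 + k * (C * (1 / (N + 1)) ^ 2) := by
    intro k hk
    induction k with
    | zero => simp
    | succ k ih =>
      have := h (k / (N + 1)) (1 / (N + 1)) (by positivity) (by positivity) (by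
        rw [← add_div, div_le_one N0]
        exact_mod_cast hk)
      rw [← add_div] at this
      push_cast
      linarith [ih (by omega)]
  have := key (N + 1) le_rfl
  push_cast at this
  rw [div_self N0.ne', show (N + 1 : ℝ) * (C * (1 / (N + 1)) ^ 2) = 1 / (N + 1) * C by
    field_simp] at this
  have h2 : 0 < 1 / (N + 1 : ℝ) := by positivity
  nlinarith [le_abs_self C, abs_nonneg C]

/-- The relative entropy of `x ρ + Y` with respect to `ρ`. -/
theorem D_path (hρ : ρ.PosDef) (hY : Y.PosDef) (h1 : tr ρ = 1) {x c p : ℝ} (hx : 0 < x)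
    (hc : 0 < c) (hp : tr Y = p * c) (hQ : Q2 Y ρ = c * tr Y) :
    D (x • ρ + Y) ρ ≤ (1 - p) * (x * Real.log x) + p * ((x + c) * Real.log (x + c)) := by
  have y0 := tr_nn (pd_nn hY)
  have p0 : 0 ≤ p := nonneg_of_mul_nonneg_left (hp ▸ y0) hc
  have := tele (g := fun u => tr ((x • ρ + Y) * lg (x • ρ + u • Y)) -
      p * (x + c) * Real.log (x + u * c)) (C := p * (x + c) * (c / x) ^ 2) fun u δ hu hδ h => by
    have hW := (pd_smul hρ hx).add_posSemidef (smul_nn (pd_nn hY) hu).posSemidef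
    have hZ := (pd_smul hρ hx).add_posSemidef (smul_nn (pd_nn hY) (add_pos_of_nonneg_of_pos hu hδ).le).posSemidef
    have a1 := klein hW hZ
    have a2 := bkm hZ hW
    have a3 := q2_le hρ hY hx hu hc hQ
    have a4 := (q2_le hρ hY hx (add_pos_of_nonneg_of_pos hu hδ).le hc hQ).trans
      (div_le_div_of_nonneg_left (by positivity) (by positivity)
        (show x + u * c ≤ x + (u + δ) * c by nlinarith))
    have e1 : x • ρ + (u + δ) • Y - (x • ρ + u • Y) = δ • Y := by module
    have e2 : x • ρ + Y = x • ρ + u • Y + (1 - u) • Y := by module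
    have a5 := tr_mul_nn (pd_nn hY) (hY.posSemidef.mul_mul_conjTranspose_same
      (isq (x • ρ + u • Y) - isq (x • ρ + (u + δ) • Y))).nonneg
    have a6 : tr (x • ρ + (u + δ) • Y) = tr (x • ρ + u • Y) + δ * tr Y := by
      simp only [map_add, map_smul, smul_eq_mul]
      ring
    have m0 : 0 < x + u * c := by positivity
    have a7 := Real.log_le_sub_one_of_pos (div_pos m0 (show 0 < x + (u + δ) * c by positivity))
    rw [Real.log_div m0.ne' (by positivity)] at a7
    have a8 : (x + u * c) / (x + (u + δ) * c) - 1 ≤ -(δ * (c / (x + u * c))) + (c / x) ^ 2 * δ ^ 2 := by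
      have b1 : c / (x + u * c) ≤ c / x := div_le_div_of_nonneg_left hc.le hx (by nlinarith)
      have b2 : c / (x + (u + δ) * c) ≤ c / x := div_le_div_of_nonneg_left hc.le hx (by nlinarith)
      have b3 : (x + u * c) / (x + (u + δ) * c) - 1 = -(δ * (c / (x + u * c))) +
          c / (x + u * c) * (c / (x + (u + δ) * c)) * δ ^ 2 := by
        field_simp
        ring
      rw [b3, pow_two (c / x)]
      gcongr
    have a9 : tr Y * c / (x + u * c) = tr Y * (c / (x + u * c)) := mul_div_assoc _ _ _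
    have a10 : (x + u * c) * (c / (x + u * c)) = c := mul_div_cancel₀ _ m0.ne'
    rw [e1] at a2
    rw [Q2] at a3 a4
    rw [D, a6] at a1
    rw [e2]
    clear e2
    generalize x • ρ + (u + δ) • Y = Z at *
    generalize x • ρ + u • Y = W at *
    simp only [conjTranspose_sub, isq_ct, mul_sub, sub_mul, map_sub, map_smul,
      smul_mul_assoc, mul_smul_comm, smul_eq_mul, ← mul_assoc] at a1 a2 a3 a4 a5
    rw [add_mul W, add_mul W, map_add, map_add, smul_mul_assoc, smul_mul_assoc, map_smul, map_smul,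
      smul_eq_mul, smul_eq_mul]
    have b1 : tr (Y * isq Z * Y * isq W) = tr (Y * isq W * Y * isq Z) := by
      rw [mul_assoc, tr_comm, ← mul_assoc]
    have b2 : tr (Y * lg Z) - tr (Y * lg W) ≤ δ * (tr Y * (c / (x + u * c))) := by
      refine le_of_mul_le_mul_left ?_ hδ
      nlinarith [mul_pos hδ hδ]
    have b3 := mul_le_mul_of_nonneg_left b2 (show 0 ≤ 1 - u by linarith)
    have b4 := mul_le_mul_of_nonneg_left (a7.trans a8) (show 0 ≤ p * (x + c) by positivity)
    generalize c / (x + u * c) = r at *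
    have b5 : p * (x + c) * (δ * r) = δ * tr Y + (1 - u) * (δ * (tr Y * r)) := by
      rw [hp]
      linear_combination p * δ * a10
    linarith
  simp only [one_smul, one_mul, zero_smul, zero_mul, add_zero] at this
  have e := D_smul (Z := x • ρ + Y) hρ hx
  rw [map_add, map_smul, h1, hp, D, mul_sub, map_sub] at e
  simp only [smul_eq_mul] at e
  linarith

end Pool.Agent.MP_47bb2a_mp.H42
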