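import Pool.Agent.MP_47bb2a_mp.H42.Marton

/-! An informationally complete measurement. -/

open scoped ComplexOrder MatrixOrder
open Matrix

namespace Pool.Agent.MP_47bb2a_mp.H42

variable {ι A : Type*} [Fintype A] [DecidableEq A]

/-- Outcomes. -/
abbrev O (A : Type*) := A × A × Bool × Bool

/-- The four phases. -/
noncomputable def ph (s : Bool × Bool) : ℂ :=
  (if s.1 then 1 else -1) * if s.2 then 1 else Complex.I

/-- A frame of Hermitian contractions. -/
noncomputable def bb (k : O A) : Matrix A A ℂ :=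
  (1 / 2 : ℝ) • (ph k.2.2 • single k.1 k.2.1 1 + star (ph k.2.2) • single k.2.1 k.1 1)

/-- The effects of the measurement. -/
noncomputable def ff (k : O A) : Matrix A A ℂ :=
  (Fintype.card (O A) : ℝ)⁻¹ • (1 + (1 / 2 : ℝ) • bb k)

theorem re_nn {m : Matrix A A ℂ} (h : mᴴ * m ≤ 1) : 0 ≤ 1 + (1 / 2 : ℝ) • (m + mᴴ) := by
  refine (smul_nn (add_nonneg (posSemidef_conjTranspose_mul_self (1 + m)).nonneg
    (sub_nonneg.2 h)) (show (0 : ℝ) ≤ 1 / 2 by norm_num)).trans_eq ?_
  simp only [conjTranspose_add, conjTranspose_one, mul_add, add_mul, one_mul, mul_one]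
  module

theorem bb_con (k : O A) : Con (bb k) := by
  obtain ⟨a, b, s⟩ := k
  have h1 : star (ph s) * ph s = 1 := by
    obtain ⟨s, t⟩ := s
    cases s <;> cases t <;> simp [ph]
  have h2 : (ph s • single a b (1 : ℂ))ᴴ * (ph s • single a b (1 : ℂ)) ≤ 1 := by
    rw [conjTranspose_smul, smul_mul_smul_comm, h1, one_smul, conjTranspose_single,
      single_mul_single_same, star_one, one_mul, ← sum_single_one]
    refine Finset.single_le_sum (f := fun c => single c c (1 : ℂ)) (fun c _ => ?_)
      (Finset.mem_univ b)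
    simpa using (posSemidef_conjTranspose_mul_self (single c c (1 : ℂ))).nonneg
  have h3 := re_nn h2
  have h4 := re_nn (m := -(ph s • single a b (1 : ℂ))) (by simpa using h2)
  rw [conjTranspose_neg, ← neg_add, smul_neg, ← sub_eq_add_neg] at h4
  rw [conjTranspose_smul, conjTranspose_single, star_one] at h3 h4
  exact ⟨neg_le_iff_add_nonneg'.2 h3, sub_nonneg.1 h4⟩

theorem sum_bb : ∑ k : O A, bb k = 0 := by
  simp only [Fintype.sum_prod_type, Fintype.sum_bool]
  refine Finset.sum_eq_zero fun a _ => Finset.sum_eq_zero fun b _ => ?_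
  simp only [bb, ph]
  match_scalars <;> simp <;> ring

variable [Nonempty A]

theorem sum_ff : ∑ k : O A, ff k = 1 := by
  simp only [ff, ← Finset.smul_sum, Finset.sum_add_distrib, sum_bb, Finset.sum_const,
    Finset.card_univ, smul_zero, add_zero]
  rw [← Nat.cast_smul_eq_nsmul ℝ, inv_smul_smul₀ card_pos.ne']

/-- A lower bound for the effects. -/
noncomputable def c0 (A : Type*) [Fintype A] : ℝ := (Fintype.card (O A) : ℝ)⁻¹ * (1 / 2)

theorem c0_pos : 0 < c0 A := mul_pos (inv_pos.2 card_pos) (by norm_num)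

theorem ff_low (k : O A) : c0 A • 1 ≤ ff k := by
  rw [c0, ← smul_smul, ff]
  refine smul_le ?_ (inv_pos.2 card_pos).le
  rw [← sub_nonneg]
  refine (smul_nn (bb_con k).add_nn (show (0 : ℝ) ≤ 1 / 2 by norm_num)).trans_eq ?_
  module

theorem ff_pd (k : O A) : (ff k).PosDef := pd_of_le (pd_smul PosDef.one c0_pos) (ff_low k)

variable [Fintype ι] [DecidableEq ι] {Q : Finset ι} {u : ι} {Y : Matrix (ι → A) (ι → A) ℂ}

theorem frame0 (hu : u ∉ Q) (h : Alg (insert u Q) Y) : (Fintype.card A : ℝ) • ∑ a : A, ∑ b : A,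
    emb u (single a b 1) * E Q (emb u (single b a 1) * Y) = Y := by
  have e : ∀ a b : A, (Fintype.card A : ℝ) • (emb u (single a b 1) *
      E Q (emb u (single b a 1) * Y)) = emb u (single a a 1) * Y * emb u (single b b 1) := by
    intro a b
    rw [E_ins hu ((alg_emb (Finset.mem_insert_self _ _) _).mul h), T_apply, mul_smul_comm,
      smul_inv_smul₀ card_pos.ne']
    simp [Finset.mul_sum, ← mul_assoc, ee]
  simp only [Finset.smul_sum, e]
  simp only [← Finset.mul_sum, ← Finset.sum_mul, sum_ee, one_mul, mul_one]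

theorem frame1 (hu : u ∉ Q) (h : Alg (insert u Q) Y) : ((Fintype.card A : ℝ) / 2) • ∑ k : O A,
    emb u (bb k) * E Q (emb u (bb k) * Y) = Y := by
  have e : ∑ k : O A, emb u (bb k) * E Q (emb u (bb k) * Y) = ∑ a : A, ∑ b : A,
      (emb u (single a b 1) * E Q (emb u (single b a 1) * Y) +
        emb u (single b a 1) * E Q (emb u (single a b 1) * Y)) := by
    simp only [Fintype.sum_prod_type, Fintype.sum_bool]
    refine Finset.sum_congr rfl fun a _ => Finset.sum_congr rfl fun b _ => ?_
    simp only [bb, ph, emb_rsmul, E_rsmul, map_add, map_smul, add_mul, mul_add, smul_mul_assoc,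
      mul_smul_comm]
    match_scalars <;> simp <;> ring_nf <;> norm_num
  rw [e]
  simp only [Finset.sum_add_distrib]
  rw [Finset.sum_comm (f := fun a b => emb u (single b a 1) * E Q (emb u (single a b 1) * Y)),
    ← two_smul ℝ, smul_smul, div_mul_cancel₀ _ two_ne_zero, frame0 hu h]

/-- The constant in the expansion of a contraction. -/
noncomputable def c1 (A : Type*) [Fintype A] : ℝ := Fintype.card A * Fintype.card (O A)

theorem c1_pos : 0 < c1 A := mul_pos card_pos card_pos

theorem frame (hu : u ∉ Q) (h : Alg (insert u Q) Y) (hY : Con Y) :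
    ∃ (Z : O A → Matrix (ι → A) (ι → A) ℂ) (Z₀ : Matrix (ι → A) (ι → A) ℂ),
      (∀ k, Alg Q (Z k) ∧ Con (Z k)) ∧ Alg Q Z₀ ∧ Y = Z₀ + c1 A • ∑ k, emb u (ff k) * Z k := by
  refine ⟨fun k => E Q (emb u (bb k) * Y),
    -(Fintype.card A : ℝ) • E Q (∑ k : O A, E Q (emb u (bb k) * Y)),
    fun k => ⟨alg_E _ _, E_out_con (out_emb hu _) ⟨?_, ?_⟩ hY⟩, (alg_E _ _).smul _, ?_⟩
  · simpa using emb_le u (bb_con k).1
  · simpa using emb_le u (bb_con k).2
  conv_lhs => rw [← frame1 hu h]
  simp only [map_sum, E_alg (alg_E Q _), ff, emb_rsmul, map_add, map_one, add_mul, one_mul,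
    smul_mul_assoc, ← Finset.smul_sum, Finset.sum_add_distrib, c1]
  have := card_pos (A := O A)
  match_scalars <;> field_simp
  ring

end Pool.Agent.MP_47bb2a_mp.H42
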