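import Pool.Agent.MP_47bb2a_mp.H42.Ens

/-! Adding one nearly independent site. -/

open scoped ComplexOrder MatrixOrder
open Matrix

namespace Pool.Agent.MP_47bb2a_mp.H42

universe v

variable {ι : Type*} {A : Type v} [Fintype ι] [DecidableEq ι] [Fintype A] [DecidableEq A]
  {Q : Finset ι} {u : ι} {ρ F Z : Matrix (ι → A) (ι → A) ℂ}

theorem marg (u : ι) (h : 0 ≤ Z) :
    ∃ τ : Matrix A A ℂ, 0 ≤ τ ∧ ∀ m, (m * τ).trace = (emb u m * Z).trace := by
  have key : ∀ m : Matrix A A ℂ, (m * of fun a b => (emb u (single b a 1) * Z).trace).trace =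
      (emb u m * Z).trace := fun m => by
    conv_rhs => rw [matrix_eq_sum_single m]
    simp only [map_sum, Finset.sum_mul, trace_sum]
    refine Finset.sum_congr rfl fun a _ => Finset.sum_congr rfl fun b _ => ?_
    show m a b * (emb u (single a b 1) * Z).trace = _
    rw [← smul_eq_mul, ← trace_smul, ← smul_mul_assoc, ← map_smul, smul_single,
      smul_eq_mul, mul_one]
  refine ⟨_, PosSemidef.nonneg (H97.psd_of_q ?_ fun x => ?_), key⟩
  · ext a b
    rw [conjTranspose_apply, of_apply, of_apply, ← trace_conjTranspose, conjTranspose_mul, emb_ct,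
      h.posSemidef.1.eq, conjTranspose_single, star_one, trace_mul_comm]
  · rw [← H97.tr_vecMulVec, trace_mul_comm, key]
    exact tr_mul_nn (emb_nn u (posSemidef_vecMulVec_self_star x).nonneg) h

/-- The range of the logarithm in the reverse Pinsker inequality. -/
noncomputable def r0 (A : Type*) [Fintype A] (s : ℝ) : ℝ :=
  Real.log ((Fintype.card A : ℝ) ^ 2 / s ^ 2 + s) - Real.log s

variable [Nonempty A]

theorem r0_aux {s : ℝ} (hs : 0 < s) (hs1 : s ≤ 1 / 2) :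
    0 ≤ Real.log ((Fintype.card A : ℝ) ^ 2 / s ^ 2 + s) ∧ Real.log s < 0 := by
  have h1 : (1 : ℝ) ≤ Fintype.card A := by exact_mod_cast Fintype.card_pos
  refine ⟨Real.log_nonneg (le_add_of_le_of_nonneg ?_ hs.le), Real.log_neg hs (by linarith)⟩
  rw [one_le_div (by positivity)]
  nlinarith

theorem r0_pos {s : ℝ} (hs : 0 < s) (hs1 : s ≤ 1 / 2) : 0 < r0 A s := by
  have := r0_aux (A := A) hs hs1
  rw [r0]
  linarith

theorem step (hρ : ρ.PosDef) (hF : F.PosDef) (hu : u ∉ Q) (h : Out (insert u Q) F) {s : ℝ}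
    (hs : 0 < s) (hs1 : s ≤ 1 / 2) : ∃ (τ : Matrix A A ℂ) (Y : O A → Matrix (ι → A) (ι → A) ℂ),
      τ.PosDef ∧ τ.trace = 1 ∧ (∀ k, Con (Y k)) ∧
      D (E (insert u Q) (F * ρ)) (emb u ((Fintype.card A : ℝ) • τ) * E Q (F * ρ)) ≤
        4 * s * tr (F * ρ) + r0 A s * c1 A * ∑ k, tr (Y k *
          (E Q (emb u (ff k) * F * ρ) - be ρ u k F • E Q (F * ρ))) := by
  have hZ := E_out_pd h hF hρ
  have hp := p_pos hρ hF h
  have hd := card_pos (A := A)
  have sub := Finset.subset_insert u Q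
  have mem := Finset.mem_insert_self u Q
  have eσ := E_tower sub (F * ρ)
  have hb : ∀ k, E Q (emb u (ff k) * F * ρ) = E Q (emb u (ff k) * E (insert u Q) (F * ρ)) :=
    fun k => by rw [← E_mul (alg_emb mem _), E_tower sub, mul_assoc]
  have hb' : ∀ k, be ρ u k F = tr (emb u (ff k) * E (insert u Q) (F * ρ)) / tr (F * ρ) :=
    fun k => by rw [be, ← tr_E Q, hb, tr_E]
  simp only [hb, hb']
  rw [← eσ, ← tr_E (insert u Q) (F * ρ)] at *
  have hA := alg_E (insert u Q) (F * ρ)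
  generalize E (insert u Q) (F * ρ) = Z at *
  clear hb hb' eσ
  have hσ := E_pd Q hZ
  obtain ⟨τ, τ0, hτ⟩ := marg u (pd_nn hZ)
  have τ1 : τ.trace = tr Z := by simpa [tr_eq (pd_nn hZ)] using hτ 1
  have s2 : s ^ 2 ≤ 1 / 2 := by nlinarith
  set W₀ := emb u (((Fintype.card A : ℝ) / tr Z) • τ) * E Q Z with hW₀
  have W0 : 0 ≤ W₀ := (out_emb hu _ _ (alg_E Q Z)).mul_nonneg
    (emb_nn u (smul_nn τ0 (by positivity))) (pd_nn hσ)
  have A0 : Alg (insert u Q) W₀ := (alg_emb mem _).mul ((alg_E Q Z).mono sub)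
  have EW : ∀ m, E Q (emb u m * W₀) = ((emb u m * Z).trace / (tr Z : ℂ)) • E Q Z := fun m => by
    rw [hW₀, ← mul_assoc, ← map_mul, E_mul' (alg_E Q Z), E_emb hu, mul_smul_comm, trace_smul, hτ]
    simp only [smul_mul_assoc, one_mul, ← Complex.coe_smul, smul_smul, smul_eq_mul]
    congr 1
    have : (Fintype.card A : ℂ) ≠ 0 := by exact_mod_cast hd.ne'
    push_cast
    field_simp
  have EW1 : E Q W₀ = E Q Z := by
    have : (tr Z : ℂ) ≠ 0 := by exact_mod_cast hp.ne'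
    simpa [tr_eq (pd_nn hZ), this] using EW 1
  have eW : emb u ((Fintype.card A : ℝ) • (((1 - s ^ 2) / tr Z) • τ +
      (s ^ 2 / Fintype.card A) • (1 : Matrix A A ℂ))) * E Q Z =
      (1 - s ^ 2) • W₀ + s ^ 2 • E Q Z := by
    simp only [hW₀, emb_rsmul, map_add, map_one, smul_add, add_mul, smul_mul_assoc, one_mul]
    match_scalars <;> field_simp
  have W1 := smul_nn W0 (show 0 ≤ 1 - s ^ 2 by linarith)
  have hW : ((1 - s ^ 2) • W₀ + s ^ 2 • E Q Z).PosDef :=
    PosDef.posSemidef_add W1.posSemidef (pd_smul hσ (by positivity))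
  obtain ⟨b1, b2, b3, b4⟩ := rev hZ hW (k := (Fintype.card A : ℝ) ^ 2 / s ^ 2) hs
    (by positivity) (by
      refine (le_T u (pd_nn hZ)).trans (le_trans (le_of_eq ?_)
        (smul_le (le_add_of_nonneg_left W1) (by positivity)))
      rw [E_ins hu hA, smul_smul, div_mul_cancel₀ _ (by positivity)])
  have AW := (A0.smul (1 - s ^ 2)).add (((alg_E Q Z).mono sub).smul (s ^ 2))
  have AL : Alg _ (lg _ - lg _) := ((hA.add (AW.smul s)).cfc _).sub (AW.cfc _)
  obtain ⟨l1, l2⟩ := r0_aux (A := A) hs hs1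
  have hr := r0_pos (A := A) hs hs1
  have hc := con_smul hr ((le_smul one_nn (by rw [r0]; linarith)).trans b3)
    (b4.trans (le_smul one_nn (by rw [r0]; linarith)))
  obtain ⟨Y, Y₀, y1, y2, y3⟩ := frame hu (AL.smul _) hc
  refine ⟨_, Y, PosDef.posSemidef_add (smul_nn τ0 (div_nonneg (by linarith) hp.le)).posSemidef
    (pd_smul PosDef.one (by positivity)), ?_, fun k => (y1 k).2, eW ▸ b1.trans ?_⟩
  · have a1 : (tr Z : ℂ) ≠ 0 := by exact_mod_cast hp.ne'
    have a2 : (Fintype.card A : ℂ) ≠ 0 := by exact_mod_cast hd.ne'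
    simp [τ1, a1, a2]
  generalize lg (Z + s • ((1 - s ^ 2) • W₀ + s ^ 2 • E Q Z)) -
    lg ((1 - s ^ 2) • W₀ + s ^ 2 • E Q Z) = L at *
  have t0 : tr W₀ = tr Z := by rw [← tr_E Q, EW1, tr_E]
  have c1' := tr_mul_le (pd_nn hσ) b3
  have c2 : -Real.log s ≤ s⁻¹ := by
    linarith [Real.log_le_sub_one_of_pos (inv_pos.2 hs), Real.log_inv s]
  have c3 : s ^ 2 * -Real.log s ≤ s :=
    (mul_le_mul_of_nonneg_left c2 (sq_nonneg s)).trans_eq (by field_simp)
  simp only [add_mul, smul_mul_assoc, map_add, map_smul, smul_eq_mul, t0, tr_E, mul_smul_comm,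
    mul_one] at b2 c1'
  have c4 : tr (W₀ * L) ≤ 4 * s * tr Z := by
    by_contra hh
    nlinarith [mul_le_mul_of_nonneg_left c1' (sq_nonneg s), mul_le_mul_of_nonneg_right c3 hp.le,
      mul_pos hs hp, mul_le_mul_of_nonneg_left s2 (show 0 ≤ tr (W₀ * L) by nlinarith [mul_pos hs hp])]
  have c5 : ∀ k, tr (emb u (ff k) * Y k * (Z - W₀)) = tr (Y k * (E Q (emb u (ff k) * Z) -
      (tr (emb u (ff k) * Z) / tr Z) • E Q Z)) := fun k => by
    rw [← ((y1 k).1 u hu _).eq, mul_assoc, ← tr_mul_E (y1 k).1, mul_sub (emb u _), map_sub, EW,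
      ← E_trace Q, tr_eq (E_out_nn (out_emb hu _) (pd_nn (emb_pd u (ff_pd k))) (pd_nn hZ)), tr_E,
      ← Complex.ofReal_div, Complex.coe_smul]
  have c6 := congrArg (fun X => tr (X * (Z - W₀))) y3
  simp only [add_mul, smul_mul_assoc, Finset.sum_mul, map_add, map_smul, map_sum, c5,
    smul_eq_mul] at c6
  rw [← tr_mul_E y2, map_sub, EW1, sub_self, mul_zero, map_zero, zero_add,
    inv_mul_eq_iff_eq_mul₀ hr.ne', mul_sub, map_sub, tr_comm, tr_comm L] at c6
  linarith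

end Pool.Agent.MP_47bb2a_mp.H42
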