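import Pool.Agent.MP_47bb2a_mp.H42.Ent

/-! Tensor products over a finite set of sites, local algebras and conditional expectations. -/

open scoped ComplexOrder MatrixOrder
open Matrix

namespace Pool.Agent.MP_47bb2a_mp.H42

variable {ι A B C : Type*} [Fintype ι]

/-- Tensor product of a family of matrices. -/
def tens (f : ι → Matrix A B ℂ) : Matrix (ι → A) (ι → B) ℂ :=
  Matrix.of fun x y => ∏ i, f i (x i) (y i)

theorem tens_ct (f : ι → Matrix A B ℂ) : (tens f)ᴴ = tens fun i => (f i)ᴴ := by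
  ext x y
  simp [tens]

theorem tens_smul (c : ι → ℝ) (f : ι → Matrix A B ℂ) :
    tens (fun i => c i • f i) = (∏ i, c i) • tens f := by
  ext x y
  simp [tens, Finset.prod_mul_distrib]

variable [DecidableEq ι]

theorem tens_mul [Fintype B] (f : ι → Matrix A B ℂ) (g : ι → Matrix B C ℂ) :
    tens f * tens g = tens fun i => f i * g i := by
  ext x y
  simp only [tens, mul_apply, of_apply, Fintype.prod_sum, Finset.prod_mul_distrib]

theorem tens_update (f : ι → Matrix A B ℂ) (u : ι) (a : Matrix A B ℂ) (x : ι → A) (y : ι → B) :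
    tens (Function.update f u a) x y =
      a (x u) (y u) * ∏ i ∈ Finset.univ.erase u, f i (x i) (y i) := by
  rw [tens, of_apply, ← Finset.mul_prod_erase _ _ (Finset.mem_univ u), Function.update_self]
  exact congrArg _ (Finset.prod_congr rfl fun i hi => by
    rw [Function.update_of_ne (Finset.ne_of_mem_erase hi)])

variable [Fintype A]

theorem tens_trace (f : ι → Matrix A A ℂ) : (tens f).trace = ∏ i, (f i).trace := by
  simp only [tens, trace, diag_apply, of_apply, Fintype.prod_sum]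

variable [DecidableEq A]

theorem tens_one : tens (fun _ : ι => (1 : Matrix A A ℂ)) = 1 := by
  ext x y
  simp only [tens, of_apply, one_apply, Finset.prod_boole, funext_iff, Finset.mem_univ,
    true_imp_iff]

theorem tens_nn {f : ι → Matrix A A ℂ} (h : ∀ i, 0 ≤ f i) : 0 ≤ tens f := by
  choose g hg using fun i => H97.exists_ct (h i).posSemidef
  rw [funext hg, ← tens_mul, ← tens_ct]
  exact (posSemidef_conjTranspose_mul_self _).nonneg

theorem tens_pd {f : ι → Matrix A A ℂ} (h : ∀ i, (f i).PosDef) : (tens f).PosDef := by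
  refine (tens_nn fun i => pd_nn (h i)).posSemidef.posDef_iff_isUnit.2
    (IsUnit.of_mul_eq_one (tens fun i => (f i)⁻¹) ?_)
  rw [tens_mul, ← tens_one]
  exact congrArg _ (funext fun i => mul_nonsing_inv _ ((isUnit_iff_isUnit_det _).1 (h i).isUnit))

/-- A matrix acting on the site `u`. -/
noncomputable def emb (u : ι) : Matrix A A ℂ →ₐ[ℂ] Matrix (ι → A) (ι → A) ℂ :=
  AlgHom.ofLinearMap
    { toFun := fun a => tens (Function.update (fun _ => 1) u a)
      map_add' := fun a b => by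
        ext x y
        simp only [tens_update, Matrix.add_apply, add_mul]
      map_smul' := fun c a => by
        ext x y
        simp only [tens_update, Matrix.smul_apply, smul_eq_mul, mul_assoc, RingHom.id_apply] }
    (by simp [tens_one])
    fun a b => by
      simp only [LinearMap.coe_mk, AddHom.coe_mk, tens_mul]
      congr 1
      funext i
      by_cases h : i = u <;> simp [h]

theorem emb_def (u : ι) (a : Matrix A A ℂ) :
    emb u a = tens (Function.update (fun _ => 1) u a) := rfl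

theorem emb_rsmul (u : ι) (r : ℝ) (a : Matrix A A ℂ) : emb u (r • a) = r • emb u a :=
  (emb u).toLinearMap.map_smul_of_tower r a

theorem emb_mul_tens (u : ι) (a : Matrix A A ℂ) (f : ι → Matrix A A ℂ) :
    emb u a * tens f = tens (Function.update f u (a * f u)) := by
  rw [emb_def, tens_mul]
  congr 1
  funext i
  by_cases h : i = u
  · simp [h]
  · simp [h]

theorem emb_ct (u : ι) (a : Matrix A A ℂ) : (emb u a)ᴴ = emb u aᴴ := by
  rw [emb_def, tens_ct, emb_def]
  congr 1
  funext i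
  by_cases h : i = u <;> simp [h]

theorem emb_nn (u : ι) {a : Matrix A A ℂ} (h : 0 ≤ a) : 0 ≤ emb u a :=
  tens_nn fun i => by by_cases hi : i = u <;> simp [hi, h]

theorem emb_le (u : ι) {a b : Matrix A A ℂ} (h : a ≤ b) : emb u a ≤ emb u b := by
  rw [← sub_nonneg, ← map_sub]
  exact emb_nn u (sub_nonneg.2 h)

theorem emb_pd (u : ι) {a : Matrix A A ℂ} (h : a.PosDef) : (emb u a).PosDef :=
  tens_pd fun i => by by_cases hi : i = u <;> simp [hi, h, PosDef.one]

theorem tens_comm {f : ι → Matrix A A ℂ} {u : ι} {a : Matrix A A ℂ} (h : Commute (f u) a) :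
    Commute (tens f) (emb u a) := by
  rw [Commute, SemiconjBy, emb_def, tens_mul, tens_mul]
  congr 1
  funext i
  by_cases hi : i = u
  · simpa [hi] using h.eq
  · simp [hi]

theorem emb_comm {u v : ι} (h : u ≠ v) (a b : Matrix A A ℂ) : Commute (emb u a) (emb v b) :=
  tens_comm (by simp [h.symm])

/-- Operators living on the sites in `Q`. -/
def Alg (Q : Finset ι) (Y : Matrix (ι → A) (ι → A) ℂ) : Prop :=
  ∀ u ∉ Q, ∀ a, Commute Y (emb u a)

/-- Operators living off the sites in `Q`. -/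
def Out (Q : Finset ι) (F : Matrix (ι → A) (ι → A) ℂ) : Prop :=
  ∀ Y, Alg Q Y → Commute F Y

variable {Q Q' : Finset ι} {u : ι} {X Y Z W F : Matrix (ι → A) (ι → A) ℂ}

theorem Alg.mono (h : Alg Q Y) (h' : Q ⊆ Q') : Alg Q' Y := fun u hu => h u fun hq => hu (h' hq)

theorem Alg.mul (h : Alg Q X) (h' : Alg Q Y) : Alg Q (X * Y) :=
  fun u hu a => (h u hu a).mul_left (h' u hu a)

theorem Alg.add (h : Alg Q X) (h' : Alg Q Y) : Alg Q (X + Y) :=
  fun u hu a => (h u hu a).add_left (h' u hu a)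

theorem Alg.sub (h : Alg Q X) (h' : Alg Q Y) : Alg Q (X - Y) :=
  fun u hu a => (h u hu a).sub_left (h' u hu a)

theorem Alg.smul (h : Alg Q X) (r : ℝ) : Alg Q (r • X) := fun u hu a => (h u hu a).smul_left r

theorem Alg.cfc (h : Alg Q X) (f : ℝ → ℝ) : Alg Q (cfc f X) :=
  fun u hu a => (h u hu a).cfc_real f

theorem Alg.ct (h : Alg Q X) : Alg Q Xᴴ := fun u hu a => by
  have := congrArg conjTranspose (h u hu aᴴ).eq
  simpa [emb_ct, Commute, SemiconjBy] using this.symm

theorem alg_one : Alg Q (1 : Matrix (ι → A) (ι → A) ℂ) := fun _ _ _ => Commute.one_left _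

theorem alg_emb (h : u ∈ Q) (a : Matrix A A ℂ) : Alg Q (emb u a) :=
  fun _ hv _ => emb_comm (by rintro rfl; exact hv h) _ _

theorem out_emb (h : u ∉ Q) (a : Matrix A A ℂ) : Out Q (emb u a) := fun _ hY => (hY u h a).symm

theorem Out.mul (h : Out Q X) (h' : Out Q Y) : Out Q (X * Y) :=
  fun Z hZ => (h Z hZ).mul_left (h' Z hZ)

theorem Out.add (h : Out Q X) (h' : Out Q Y) : Out Q (X + Y) :=
  fun Z hZ => (h Z hZ).add_left (h' Z hZ)

theorem Out.sub (h : Out Q X) (h' : Out Q Y) : Out Q (X - Y) :=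
  fun Z hZ => (h Z hZ).sub_left (h' Z hZ)

theorem Out.smul (h : Out Q X) (r : ℝ) : Out Q (r • X) := fun Z hZ => (h Z hZ).smul_left r

theorem out_one : Out Q (1 : Matrix (ι → A) (ι → A) ℂ) := fun _ _ => Commute.one_left _

theorem alg_empty (h : Alg ∅ Y) : ∃ c : ℂ, Y = c • 1 := by
  have key : ∀ (f : ι → Matrix A A ℂ) (s : Finset ι),
      Commute (tens fun i => if i ∈ s then f i else 1) Y := fun f s => by
    induction s using Finset.induction_on with
    | empty => simp [tens_one]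
    | insert u s hu ih =>
      have := (h u (by simp) (f u)).symm.mul_left ih
      rw [emb_mul_tens] at this
      have e : (fun i => if i ∈ insert u s then f i else 1) = Function.update
          (fun i => if i ∈ s then f i else 1) u (f u * if u ∈ s then f u else 1) := by
        funext i
        by_cases hi : i = u <;> simp [hi, hu]
      rwa [e]
  obtain ⟨c, hc⟩ := mem_range_scalar_of_commute_single (M := Y) fun x y _ => by
    have e : single x y (1 : ℂ) = tens fun i => if i ∈ Finset.univ then single (x i) (y i) 1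
        else 1 := by
      ext a b
      simp [tens, single, Finset.prod_boole, funext_iff, forall_and]
    beta_reduce
    rw [e]
    exact key _ _
  exact ⟨c, by rw [← hc, scalar_apply, smul_one_eq_diagonal]⟩

/-- Depolarisation of the site `u`. -/
noncomputable def T (u : ι) : Module.End ℂ (Matrix (ι → A) (ι → A) ℂ) :=
  (Fintype.card A : ℝ)⁻¹ • ∑ a : A, ∑ b : A,
    LinearMap.mulRight ℂ (emb u (single b a 1)) ∘ₗ LinearMap.mulLeft ℂ (emb u (single a b 1))

theorem T_apply (u : ι) (Z : Matrix (ι → A) (ι → A) ℂ) : T u Z = (Fintype.card A : ℝ)⁻¹ •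
    ∑ a : A, ∑ b : A, emb u (single a b 1) * Z * emb u (single b a 1) := by
  simp [T, LinearMap.sum_apply]

theorem ee (u : ι) (a b c e : A) : emb u (single a b (1 : ℂ)) * emb u (single c e 1) =
    if b = c then emb u (single a e 1) else 0 := by
  rw [← map_mul]
  split_ifs with h
  · simp [h]
  · simp [single_mul_single_of_ne _ _ _ _ h]

theorem sum_ee (u : ι) : ∑ a : A, emb u (single a a (1 : ℂ)) = 1 := by
  rw [← map_sum, sum_single_one, map_one]

theorem T_comm (u : ι) (Z : Matrix (ι → A) (ι → A) ℂ) (m : Matrix A A ℂ) :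
    Commute (T u Z) (emb u m) := by
  rw [matrix_eq_sum_single m, T_apply]
  simp only [map_sum]
  refine (Commute.sum_right _ _ _ fun c _ => Commute.sum_right _ _ _ fun e _ => ?_).smul_left _
  rw [← mul_one (m c e), ← smul_eq_mul, ← smul_single, map_smul]
  refine Commute.smul_right ?_ _
  simp only [Commute, SemiconjBy, Finset.sum_mul, Finset.mul_sum, ← mul_assoc, ee]
  simp only [mul_assoc, ee]
  simp

theorem T_mul (h : ∀ a, Commute Y (emb u a)) (Z : Matrix (ι → A) (ι → A) ℂ) :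
    T u (Y * Z) = Y * T u Z ∧ T u (Z * Y) = T u Z * Y := by
  simp only [T_apply, Matrix.mul_smul, Matrix.smul_mul, Finset.mul_sum, Finset.sum_mul]
  constructor
  · simp only [← mul_assoc, (h _).eq]
  · simp only [mul_assoc, (h _).eq]

theorem T_keep (h : ∀ a, Commute (emb u a) Y) (hZ : Commute Z Y) : Commute (T u Z) Y := by
  rw [T_apply]
  exact (Commute.sum_left _ _ _ fun a _ => Commute.sum_left _ _ _ fun b _ =>
    ((h _).mul_left hZ).mul_left (h _)).smul_left _

theorem e_conj_nn (h : 0 ≤ Z) (u : ι) (a b : A) :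
    0 ≤ emb u (single a b 1) * Z * emb u (single b a 1) := by
  have := h.posSemidef.mul_mul_conjTranspose_same (emb u (single a b (1 : ℂ)))
  rw [emb_ct, conjTranspose_single, star_one] at this
  exact this.nonneg

theorem T_nn (u : ι) (h : 0 ≤ Z) : 0 ≤ T u Z := by
  rw [T_apply]
  exact smul_nn (Finset.sum_nonneg fun a _ => Finset.sum_nonneg fun b _ => e_conj_nn h u a b)
    (by positivity)

/-- Operator Cauchy-Schwarz inequality. -/
theorem op_cs {κ J : Type*} [Fintype κ] [Fintype J] {Z : Matrix κ κ ℂ} (h : 0 ≤ Z)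
    (p : J → ℝ) (hp : ∀ j, 0 ≤ p j) (K : J → Matrix κ κ ℂ) :
    (∑ j, p j • K j) * Z * (∑ j, p j • K j)ᴴ ≤ (∑ j, p j) • ∑ j, p j • (K j * Z * (K j)ᴴ) := by
  classical
  have h1 : 0 ≤ ∑ i, ∑ j, (p i * p j) • ((K i - K j) * Z * (K i - K j)ᴴ) :=
    Finset.sum_nonneg fun i _ => Finset.sum_nonneg fun j _ =>
      smul_nn (h.posSemidef.mul_mul_conjTranspose_same _).nonneg (mul_nonneg (hp i) (hp j))
  have h2 := smul_nn h1 (show (0 : ℝ) ≤ 1 / 2 by norm_num)
  rw [← sub_nonneg]
  refine h2.trans_eq ?_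
  simp only [conjTranspose_sub, Matrix.mul_sub, Matrix.sub_mul, smul_sub, Finset.sum_sub_distrib,
    conjTranspose_sum, conjTranspose_smul, star_trivial, Finset.sum_mul, Finset.mul_sum,
    Matrix.mul_smul, Matrix.smul_mul, Finset.sum_smul, Finset.smul_sum, smul_smul]
  rw [Finset.sum_comm (f := fun i j => (1 / 2 * (p i * p j)) • (K j * Z * (K j)ᴴ)),
    Finset.sum_comm (f := fun i j => (1 / 2 * (p i * p j)) • (K i * Z * (K j)ᴴ))]
  simp only [← Finset.sum_sub_distrib]
  refine Finset.sum_congr rfl fun i _ => Finset.sum_congr rfl fun j _ => ?_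
  module

variable [Nonempty A]

theorem card_pos : (0 : ℝ) < Fintype.card A := by exact_mod_cast Fintype.card_pos

theorem T_emb (u : ι) (m : Matrix A A ℂ) :
    T u (emb u m) = (Fintype.card A : ℝ)⁻¹ • m.trace • 1 := by
  simp only [T_apply, ← map_mul, single_mul_mul_single, one_mul, mul_one]
  rw [← sum_ee u, Finset.smul_sum (r := m.trace)]
  refine congrArg _ (Finset.sum_congr rfl fun a _ => ?_)
  simp [trace, Finset.sum_smul, ← map_smul]

theorem T_one (u : ι) : T u (1 : Matrix (ι → A) (ι → A) ℂ) = 1 := by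
  have := T_emb u (1 : Matrix A A ℂ)
  rw [map_one] at this
  rw [this, trace_one, ← Complex.coe_smul, smul_smul]
  simp

theorem T_trace (u : ι) (Z : Matrix (ι → A) (ι → A) ℂ) : (T u Z).trace = Z.trace := by
  have e : ∀ a b : A, (emb u (single a b 1) * Z * emb u (single b a 1)).trace =
      (emb u (single b b 1) * Z).trace := fun a b => by rw [trace_mul_cycle, ee, if_pos rfl]
  simp only [T_apply, trace_smul, trace_sum, e]
  simp [← trace_sum, ← Finset.sum_mul, sum_ee]

theorem le_T (u : ι) (h : 0 ≤ Z) : Z ≤ (Fintype.card A : ℝ) ^ 2 • T u Z := by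
  have h1 := op_cs h (fun _ : A => 1) (fun _ => zero_le_one) fun a => emb u (single a a 1)
  simp only [one_smul, sum_ee, conjTranspose_one, one_mul, mul_one, emb_ct, conjTranspose_single,
    star_one, Finset.sum_const, Finset.card_univ, nsmul_eq_mul] at h1
  rw [T_apply, smul_smul, pow_two, mul_assoc, mul_inv_cancel₀ card_pos.ne', mul_one]
  exact h1.trans (smul_le (Finset.sum_le_sum fun a _ => Finset.single_le_sum
    (f := fun b => emb u (single a b 1) * Z * emb u (single b a 1))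
    (fun b _ => e_conj_nn h u a b) (Finset.mem_univ a)) card_pos.le)

theorem T_pd (u : ι) (h : Z.PosDef) : (T u Z).PosDef := by
  have := pd_smul (pd_of_le h (le_T u (pd_nn h))) (inv_pos.2 (pow_pos (card_pos (A := A)) 2))
  rwa [inv_smul_smul₀ (pow_pos card_pos 2).ne'] at this

/-- The trace preserving conditional expectation onto the operators living on `Q`. -/
noncomputable def E (Q : Finset ι) : Module.End ℂ (Matrix (ι → A) (ι → A) ℂ) :=
  (Qᶜ.toList.map T).prod

theorem E_aux (l : List ι) (Z : Matrix (ι → A) (ι → A) ℂ) :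
    (∀ u ∈ l, ∀ a, Commute ((l.map T).prod Z) (emb u a)) ∧
      (∀ Y, (∀ u ∈ l, ∀ a, Commute Y (emb u a)) → (l.map T).prod (Y * Z) = Y * (l.map T).prod Z ∧
        (l.map T).prod (Z * Y) = (l.map T).prod Z * Y) ∧
      ((l.map T).prod Z).trace = Z.trace ∧ (0 ≤ Z → 0 ≤ (l.map T).prod Z) ∧
      (Z.PosDef → ((l.map T).prod Z).PosDef) ∧ (Z = 1 → (l.map T).prod Z = 1) := by
  induction l with
  | nil => simp
  | cons v l ih =>
    obtain ⟨h1, h2, h3, h4, h5, h6⟩ := ih
    simp only [List.map_cons, List.prod_cons, Module.End.mul_apply]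
    refine ⟨fun u hu a => ?_, fun Y hY => ?_, by rw [T_trace, h3], fun h => T_nn v (h4 h),
      fun h => T_pd v (h5 h), fun h => by rw [h6 h, T_one]⟩
    · by_cases h : v = u
      · rw [h]
        exact T_comm _ _ _
      · exact T_keep (fun _ => emb_comm h _ _) (h1 u (by simpa [Ne.symm h] using hu) a)
    · obtain ⟨e1, e2⟩ := h2 Y fun u hu => hY u (by simp [hu])
      rw [e1, e2]
      exact ⟨(T_mul (hY v (by simp)) _).1, (T_mul (hY v (by simp)) _).2⟩

theorem alg_E (Q : Finset ι) (Z : Matrix (ι → A) (ι → A) ℂ) : Alg Q (E Q Z) :=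
  fun u hu => (E_aux _ Z).1 u (by simpa using hu)

theorem E_mul (h : Alg Q Y) (Z : Matrix (ι → A) (ι → A) ℂ) : E Q (Y * Z) = Y * E Q Z :=
  ((E_aux _ Z).2.1 Y fun u hu => h u (by simpa using hu)).1

theorem E_mul' (h : Alg Q Y) (Z : Matrix (ι → A) (ι → A) ℂ) : E Q (Z * Y) = E Q Z * Y :=
  ((E_aux _ Z).2.1 Y fun u hu => h u (by simpa using hu)).2

theorem E_trace (Q : Finset ι) (Z : Matrix (ι → A) (ι → A) ℂ) : (E Q Z).trace = Z.trace :=
  (E_aux _ Z).2.2.1

theorem tr_E (Q : Finset ι) (Z : Matrix (ι → A) (ι → A) ℂ) : tr (E Q Z) = tr Z :=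
  congrArg Complex.re (E_trace Q Z)

theorem E_nn (Q : Finset ι) (h : 0 ≤ Z) : 0 ≤ E Q Z := (E_aux _ Z).2.2.2.1 h

theorem E_pd (Q : Finset ι) (h : Z.PosDef) : (E Q Z).PosDef := (E_aux _ Z).2.2.2.2.1 h

theorem E_one (Q : Finset ι) : E Q (1 : Matrix (ι → A) (ι → A) ℂ) = 1 :=
  (E_aux _ _).2.2.2.2.2 rfl

theorem E_rsmul (Q : Finset ι) (r : ℝ) (Z : Matrix (ι → A) (ι → A) ℂ) :
    E Q (r • Z) = r • E Q Z := (E Q).map_smul_of_tower r Z

theorem E_alg (h : Alg Q Y) : E Q Y = Y := by
  rw [← mul_one Y, E_mul h, E_one]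

theorem tr_mul_E (h : Alg Q Y) (Z : Matrix (ι → A) (ι → A) ℂ) : tr (Y * E Q Z) = tr (Y * Z) := by
  rw [← E_mul h, tr_E]

theorem E_unique (hW : Alg Q W) (h : ∀ Y, Alg Q Y → (Y * W).trace = (Y * Z).trace) :
    E Q Z = W := by
  have h1 := ((alg_E Q Z).sub hW).ct
  rw [← sub_eq_zero, ← trace_conjTranspose_mul_self_eq_zero_iff, Matrix.mul_sub, trace_sub,
    h _ h1, ← E_mul h1, E_trace, sub_self]

theorem E_tower (h : Q ⊆ Q') (Z : Matrix (ι → A) (ι → A) ℂ) : E Q (E Q' Z) = E Q Z :=
  E_unique (alg_E Q Z) fun Y hY => by rw [← E_mul hY, ← E_mul (hY.mono h), E_trace, E_trace]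

theorem E_ins (hu : u ∉ Q) (h : Alg (insert u Q) Z) : E Q Z = T u Z := by
  refine E_unique (fun v hv a => ?_) fun Y hY => by rw [← (T_mul (hY u hu) Z).1, T_trace]
  by_cases e : u = v
  · rw [e]
    exact T_comm _ _ _
  · exact T_keep (fun _ => emb_comm e _ _) (h v (by simp [hv, Ne.symm e]) a)

theorem E_emb (hu : u ∉ Q) (m : Matrix A A ℂ) :
    E Q (emb u m) = (Fintype.card A : ℝ)⁻¹ • m.trace • 1 := by
  rw [E_ins hu (alg_emb (Finset.mem_insert_self _ _) m), T_emb]

theorem E_out (h : Out Q F) (Z : Matrix (ι → A) (ι → A) ℂ) : E Q (F * Z) = E Q (Z * F) :=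
  E_unique (alg_E Q _) fun Y hY => by
    rw [← E_mul hY, E_trace, ← mul_assoc, trace_mul_cycle, (h Y hY).eq, mul_assoc]

theorem E_out_sq (h : Out Q F) (hF : 0 ≤ F) (Z : Matrix (ι → A) (ι → A) ℂ) :
    E Q (F * Z) = E Q (sq F * Z * (sq F)ᴴ) := by
  rw [sq_ct, ← E_out (F := sq F) fun Y hY => (h Y hY).cfc_real _, ← mul_assoc]
  exact congrArg (fun M => E Q (M * Z)) (sq_mul hF).symm

theorem E_out_nn (h : Out Q F) (hF : 0 ≤ F) (hZ : 0 ≤ Z) : 0 ≤ E Q (F * Z) := by
  rw [E_out_sq h hF]
  exact E_nn Q (hZ.posSemidef.mul_mul_conjTranspose_same _).nonneg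

theorem E_out_pd (h : Out Q F) (hF : F.PosDef) (hZ : Z.PosDef) : (E Q (F * Z)).PosDef := by
  rw [E_out_sq h (pd_nn hF)]
  exact E_pd Q ((sq_pd hF).isUnit.posDef_star_right_conjugate_iff.2 hZ)

theorem E_out_con (h : Out Q F) (hF : Con F) (hY : Con Y) : Con (E Q (F * Y)) := by
  have a1 := E_out_nn (out_one.add h) hF.add_nn hY.add_nn
  have a2 := E_out_nn (out_one.sub h) hF.sub_nn hY.sub_nn
  have a3 := E_out_nn (out_one.add h) hF.add_nn hY.sub_nn
  have a4 := E_out_nn (out_one.sub h) hF.sub_nn hY.add_nn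
  have b1 := smul_nn (add_nonneg a1 a2) (show (0 : ℝ) ≤ 1 / 2 by norm_num)
  have b2 := smul_nn (add_nonneg a3 a4) (show (0 : ℝ) ≤ 1 / 2 by norm_num)
  simp only [mul_add, add_mul, mul_sub, sub_mul, one_mul, mul_one, map_add, map_sub,
    E_one] at b1 b2
  exact ⟨neg_le_iff_add_nonneg'.2 (b1.trans_eq (by module)),
    sub_nonneg.1 (b2.trans_eq (by module))⟩

theorem le_scalar (h : Alg Q Z) (hZ : 0 ≤ Z) : Z ≤ (((Fintype.card A : ℝ) ^ 2) ^ Q.card *
    (tr Z / Fintype.card (ι → A))) • 1 := by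
  induction Q using Finset.induction_on generalizing Z with
  | empty =>
    obtain ⟨c, rfl⟩ := alg_empty h
    have h1 := tr_eq hZ
    have h2 : (Fintype.card (ι → A) : ℂ) ≠ 0 := by exact_mod_cast Fintype.card_ne_zero
    rw [trace_smul, trace_one, smul_eq_mul, ← eq_div_iff h2] at h1
    rw [← Complex.coe_smul]
    push_cast
    rw [← h1]
    simp
  | insert u Q hu ih =>
    have h1 := ih (alg_E Q Z) (E_nn Q hZ)
    rw [tr_E, E_ins hu h] at h1
    refine (le_T u hZ).trans ((smul_le h1 (by positivity)).trans_eq ?_)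
    rw [smul_smul, Finset.card_insert_of_notMem hu]
    congr 1
    ring

/-- The chain rule. -/
theorem chain (h : Out Q F) (hF : F.PosDef) (hZ : Z.PosDef) (hW : W.PosDef) (hW' : Alg Q W) :
    D Z (F * W) = D Z (F * E Q Z) + D (E Q Z) W := by
  have e : tr ((lg (E Q Z) - lg W) * E Q Z) = tr ((lg (E Q Z) - lg W) * Z) :=
    tr_mul_E (((alg_E Q Z).cfc _).sub (hW'.cfc _)) Z
  rw [tr_comm, tr_comm _ Z] at e
  rw [D, D, D, e, lg_mul hF hW (h _ hW'), lg_mul hF (E_pd Q hZ) (h _ (alg_E Q Z)), ← map_add,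
    ← mul_add]
  congr 2
  abel

end Pool.Agent.MP_47bb2a_mp.H42
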