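import Pool.Agent.MP_47bb2a_mp.H42.Conv
import Pool.Agent.MP_47bb2a_mp.H42.Path
import Pool.Agent.MP_47bb2a_mp.H42.Defs

/-! The reduction with the single-copy relative entropy of entanglement and a constant loss. -/

open scoped ComplexOrder MatrixOrder Kronecker
open Matrix MeasureTheory

namespace Pool.Agent.MP_47bb2a_mp.H42

open H97

theorem numeric {E : ℝ} (h0 : 0 < E) (h1 : E ≤ 221 / 200) :
    (1 - (200 / 221 * E) ^ 2) * (Real.exp (-1) * Real.log (Real.exp (-1))) +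
      (200 / 221 * E) ^ 2 * (E⁻¹ * Real.log E⁻¹) ≤ 0 := by
  obtain ⟨s, s0, rfl⟩ : ∃ s, 0 < s ∧ E = s * s :=
    ⟨√E, Real.sqrt_pos.2 h0, (Real.mul_self_sqrt h0.le).symm⟩
  have a1 := Real.log_le_sub_one_of_pos (div_pos (inv_pos.2 s0) (Real.exp_pos (1 / 4)))
  have a2 := Real.quadratic_le_exp_of_nonneg (show (0 : ℝ) ≤ 1 / 4 by norm_num)
  have a3 : s⁻¹ / Real.exp (1 / 4) ≤ s⁻¹ / (41 / 32) :=
    div_le_div_of_nonneg_left (inv_pos.2 s0).le (by norm_num) (by linarith)
  rw [Real.log_div (inv_pos.2 s0).ne' (Real.exp_pos _).ne', Real.log_exp] at a1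
  have a4 : s * s * Real.log s⁻¹ ≤ 32 / 41 * s - 3 / 4 * (s * s) := by
    have := mul_le_mul_of_nonneg_left (a1.trans (sub_le_sub_right a3 1)) h0.le
    rw [mul_sub (s * s) (s⁻¹ / _), show s * s * (s⁻¹ / (41 / 32)) = 32 / 41 * s by field_simp] at this
    linarith
  have a5 := Real.exp_neg_one_gt_d9
  have a6 := Real.exp_neg_one_lt_d9
  have a7 : s ≤ 53 / 50 := by nlinarith
  rw [Real.log_exp, mul_inv, Real.log_mul (inv_pos.2 s0).ne' (inv_pos.2 s0).ne',
    show (200 / 221 * (s * s)) ^ 2 * (s⁻¹ * s⁻¹ * (Real.log s⁻¹ + Real.log s⁻¹)) =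
      2 * (200 / 221) ^ 2 * (s * s * Real.log s⁻¹) by field_simp; ring]
  have a8 : 0 ≤ 1 - (200 / 221 * (s * s)) ^ 2 := by nlinarith
  nlinarith [mul_le_mul_of_nonneg_left a5.le a8, mul_nonneg (sq_nonneg (s - 33 / 50))
    (show 0 ≤ 277 / 100 - 33 / 25 * s - s * s by linarith)]

variable {A B : Type*} [Fintype A] [Fintype B] [DecidableEq A] [DecidableEq B]

/-- Operators of nonpositive relative entropy with respect to a separable state. -/
def Neg (A B : Type*) [Fintype A] [Fintype B] [DecidableEq A] [DecidableEq B] :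
    Set (Matrix (A × B) (A × B) ℂ) :=
  {X | X.PosDef ∧ ∃ ρ ∈ Sep1 A B, ρ.PosDef ∧ D X ρ ≤ 0}

theorem neg_tr {X : Matrix (A × B) (A × B) ℂ} (h : X ∈ Neg A B) : tr X ≤ 1 := by
  obtain ⟨h1, ρ, h2, h3, h4⟩ := h
  have := klein h1 h3
  rw [tr_def ρ, (sep1_state h2).2, Complex.one_re] at this
  linarith

variable [Nonempty A] [Nonempty B]

theorem base_neg : Base (Neg A B) ((Fintype.card A : ℝ)⁻¹ * (Fintype.card B : ℝ)⁻¹) where
  convex := convex_iff_forall_pos.2 (by
    rintro X ⟨h1, ρ, h2, h3, h4⟩ X' ⟨h1', ρ', h2', h3', h4'⟩ s t hs ht e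
    exact ⟨(pd_smul h1 hs).add (pd_smul h1' ht), _, convex_convexHull _ _ h2 h2' hs.le ht.le e,
      (pd_smul h3 hs).add (pd_smul h3' ht), (D_convex h1 h1' h3 h3' hs ht).trans (by nlinarith)⟩)
  psd _ h := h.1.posSemidef
  tr _ h := neg_tr h
  pos := mul_pos (inv_pos.2 card_pos) (inv_pos.2 card_pos)
  one := by
    have a := pd_smul (PosDef.one (n := A × B) (R := ℂ)) (mul_pos (inv_pos.2 (card_pos (A := A)))
      (inv_pos.2 (card_pos (A := B))))
    refine ⟨a, _, subset_convexHull _ _ ⟨_, _, one_state, one_state, ?_⟩, a, by simp [D]⟩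
    rw [smul_kronecker, kronecker_smul, one_kronecker_one, smul_smul]

theorem polar_state {G σ : Matrix (A × B) (A × B) ℂ} (hG : Polar (Neg A B) G) (h : σ ∈ Sep1 A B)
    (hσ : σ.PosDef) : tr (sq σ * G * sq σ * G) ≤ (221 / 200) ^ 2 := by
  have s1 : tr σ = 1 := by rw [tr_def, (sep1_state h).2, Complex.one_re]
  have key : ∀ t : ℝ, 0 < t → tr (sq σ * G * sq σ * G) ≤ (221 / 200 * (1 + t)) ^ 2 := by
    intro t ht
    have g1 : (G + t • 1).PosDef := PosDef.posSemidef_add hG.1 (pd_smul PosDef.one ht)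
    have g2 : (sq σ * (G + t • 1) * sq σ).PosDef := by
      simpa only [star_eq_conjTranspose, sq_ct] using
        (sq_pd hσ).isUnit.posDef_star_right_conjugate_iff.2 g1
    have g3 : tr (sq σ * G * sq σ * G) ≤ tr (sq σ * (G + t • 1) * sq σ * (G + t • 1)) := by
      have a := tr_nn ((hG.1.mul_mul_conjTranspose_same (sq σ)).nonneg)
      have b := tr_mul_nn (pd_nn hσ) hG.1.nonneg
      simp only [mul_add, add_mul, mul_smul_comm, smul_mul_assoc, mul_one, map_add, map_smul,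
        smul_eq_mul, sq_mul (pd_nn hσ), s1, sq_ct] at a ⊢
      nlinarith [mul_pos ht ht]
    have g4 : ∀ X ∈ Neg A B, tr ((G + t • 1) * X) ≤ 1 + t := fun X hX => by
      rw [add_mul, map_add, smul_mul_assoc, one_mul, map_smul, smul_eq_mul]
      exact add_le_add (hG.2 X hX) (mul_le_of_le_one_right ht.le (neg_tr hX))
    refine g3.trans ?_
    generalize G + t • 1 = H at *
    have m0 := tr_pos g2
    have c1 := cs_Q2 hσ conjTranspose_one g2.1
    have c2 := Q2_conj hσ H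
    have c3 : tr (H * σ) = tr (sq σ * H * sq σ) := by
      rw [tr_comm _ (sq σ), ← mul_assoc, sq_mul (pd_nn hσ), tr_comm]
    have c4 := tr_comm H (sq σ * H * sq σ)
    simp only [mul_one, one_mul, sq_mul (pd_nn hσ), s1, c2] at c1
    generalize sq σ * H * sq σ = Y at *
    have r0 : 0 < tr (Y * H) := (pow_pos m0 2).trans_le c1
    have r1 := Real.sqrt_pos.2 r0
    have r2 := Real.sq_sqrt r0.le
    have r3 : tr Y ≤ √(tr (Y * H)) := Real.le_sqrt_of_sq_le c1
    generalize √(tr (Y * H)) = r at *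
    have E0 : 0 < 221 / 200 * (tr Y / r) := by positivity
    have E1 : 221 / 200 * (tr Y / r) ≤ 221 / 200 :=
      mul_le_of_le_one_right (by norm_num) ((div_le_one r1).2 r3)
    have n := numeric E0 E1
    have z : 0 < (221 / 200 * (tr Y / r))⁻¹ - Real.exp (-1) := by
      have := inv_anti₀ E0 E1
      linarith [Real.exp_neg_one_lt_d9]
    have z1 : tr Y * (221 / 200 * (tr Y / r))⁻¹ = 200 / 221 * r := by field_simp
    have z2 : 200 / 221 * (221 / 200 * (tr Y / r)) = tr Y / r := by ring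
    rw [z2] at n
    generalize (221 / 200 * (tr Y / r))⁻¹ = w at *
    have a0 : 0 < (w - Real.exp (-1)) * tr Y / r ^ 2 := by positivity
    have d := D_path hσ (pd_smul g2 a0) s1 (Real.exp_pos (-1)) z (p := (tr Y / r) ^ 2)
      (by rw [map_smul, smul_eq_mul]; field_simp)
      (by rw [Q2_smul, c2, ← r2, map_smul, smul_eq_mul]; field_simp)
    rw [add_sub_cancel] at d
    have g5 := g4 _ ⟨(pd_smul hσ (Real.exp_pos (-1))).add (pd_smul g2 a0), σ, h, hσ, d.trans n⟩
    rw [mul_add, map_add, mul_smul_comm, mul_smul_comm, map_smul, map_smul, c3, c4, ← r2,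
      smul_eq_mul, smul_eq_mul, div_mul_cancel₀ _ (by positivity)] at g5
    rw [← r2]
    exact pow_le_pow_left₀ r1.le (by linarith) 2
  refine le_of_eps (c := 4) fun t ht => ?_
  refine (key (min t 1) (lt_min ht one_pos)).trans ?_
  nlinarith [min_le_left t 1, min_le_right t 1, lt_min ht one_pos]

theorem polar_neg {G : Matrix (A × B) (A × B) ℂ} (hG : Polar (Neg A B) G)
    (a : Matrix A A ℂ) (b : Matrix B B ℂ) (ha : a.PosDef) (hb : b.PosDef) :
    tr (a ⊗ₖ b * (200 / 221 : ℝ) • G * a ⊗ₖ b * (200 / 221 : ℝ) • G) ≤ tr (a * a) * tr (b * b) := by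
  have a2 := pd_mul ha ha (Commute.refl _)
  have b2 := pd_mul hb hb (Commute.refl _)
  have a3 := tr_pos a2
  have b3 := tr_pos b2
  have m0 := Real.sqrt_pos.2 (mul_pos a3 b3)
  have m2 := Real.mul_self_sqrt (mul_pos a3 b3).le
  have e : sq (((tr (a * a))⁻¹ • (a * a)) ⊗ₖ ((tr (b * b))⁻¹ • (b * b))) =
      (√(tr (a * a) * tr (b * b)))⁻¹ • a ⊗ₖ b := by
    rw [← sq_sq (pd_nn (pd_smul (ha.kronecker hb) (inv_pos.2 m0))), smul_mul_smul_comm, ← mul_inv,
      m2, smul_kronecker, kronecker_smul, smul_smul, mul_inv, mul_kronecker_mul]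
  have key := polar_state hG (subset_convexHull _ _ ⟨_, _, norm_state (pd_nn a2) a3,
    norm_state (pd_nn b2) b3, rfl⟩) ((pd_smul a2 (inv_pos.2 a3)).kronecker
      (pd_smul b2 (inv_pos.2 b3)))
  simp only [e, smul_mul_assoc, mul_smul_comm, map_smul, smul_eq_mul, ← mul_assoc, ← mul_inv,
    m2] at key ⊢
  rw [inv_mul_le_iff₀ (mul_pos a3 b3)] at key
  linarith

theorem dominated_tenth :
    ∃ μ : Measure (States (A × B)), IsProbabilityMeasure μ ∧
      ∀ Δ > (1 / 10 : ℝ), ∃ N : ℕ, ∀ n, N ≤ n → ∀ σ ∈ Sep A B n, Symm σ → Dominated μ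
        (fun ω => (EReal.exp (-((n : ℝ) * relEntSep1 ω.1) + (n * Δ : ℝ))).toReal) σ := by
  obtain ⟨μ, h1, -, h2⟩ := (base_neg (A := A) (B := B)).dominated
  refine ⟨μ, h1, fun Δ hΔ => (h2 _ (sub_pos.2 hΔ)).imp fun N hN n hn σ hσ hs => ?_⟩
  have n0 : (0 : EReal) ≤ (n : ℝ) := EReal.coe_nonneg.2 (by positivity)
  have lb : ∀ ω : States (A × B), ((-Fintype.card (A × B) : ℝ) : EReal) ≤ relEntSep1 ω.1 :=
    fun ω => le_iInf₂ fun τ hτ => relEnt_ge ω.2.1 (sep1_state hτ)
  have ub : ∀ ω : States (A × B), EReal.exp (-((n : ℝ) * relEntSep1 ω.1) + (n * Δ : ℝ)) ≤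
      ENNReal.ofReal (Real.exp (-(n * -Fintype.card (A × B)) + n * Δ)) := fun ω => by
    rw [← EReal.exp_coe, EReal.exp_le_exp_iff, EReal.coe_add, EReal.coe_neg, EReal.coe_mul]
    exact add_le_add_left (EReal.neg_le_neg_iff.2 (mul_le_mul_of_nonneg_left (lb ω) n0)) _
  have k0 : (0 : ℝ) < (200 / 221) ^ n := by positivity
  have := hN n hn (fun ω => (200 / 221) ^ n *
      (EReal.exp (-((n : ℝ) * relEntSep1 ω.1) + (n * Δ : ℝ))).toReal)
    (fun _ => mul_nonneg k0.le ENNReal.toReal_nonneg) ⟨_, fun ω => mul_le_mul_of_nonneg_left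
      (ENNReal.toReal_le_of_le_ofReal (Real.exp_pos _).le (ub ω)) k0.le⟩ (fun ω t t0 ht => ?_)
      (((200 / 221 : ℝ) ^ n) • σ) ((sep_state hσ).1.smul k0.le)
      (fun g x y => by simp only [Matrix.smul_apply, hs g x y]) fun G hG => ?_
  · generalize (200 / 221 : ℝ) ^ n = k at *
    have k1 : (k : ℂ) ≠ 0 := Complex.ofReal_ne_zero.2 k0.ne'
    refine ⟨fun x y => ((this.1 x y).const_mul (k : ℂ)⁻¹).congr (ae_of_all _ fun ω => by
      simp only [Complex.ofReal_mul, mul_assoc, inv_mul_cancel_left₀ k1]), ?_⟩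
    refine (smul_nn this.2.nonneg (inv_pos.2 k0).le).trans_eq ?_ |> fun h => h.posSemidef
    ext x y
    simp only [Matrix.smul_apply, Matrix.sub_apply, of_apply, Complex.ofReal_mul, mul_assoc,
      integral_const_mul, Complex.real_smul, ← mul_sub, Complex.ofReal_inv, inv_mul_cancel_left₀ k1]
  · obtain ⟨a1, τ, a2, a3, a4⟩ := ht
    have t1 : 0 < t := lt_of_le_of_ne t0 fun h => by
      have := tr_pos a1
      simp [← h] at this
    have a5 : ω.1.PosDef := by
      simpa [smul_smul, t1.ne'] using pd_smul a1 (inv_pos.2 t1)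
    have : relEntSep1 ω.1 ≤ (-Real.log t : ℝ) := (iInf₂_le τ a2).trans (by
      rw [H20.relEnt_eq _ a3, EReal.coe_le_coe_iff]
      change D ω.1 τ ≤ _
      simp only [D, lg_smul a5 t1, mul_sub, mul_add, smul_mul_assoc, mul_smul_comm, mul_one,
        map_sub, map_add, map_smul, smul_eq_mul, tr_def ω.1, ω.2.2, Complex.one_re] at a4 ⊢
      nlinarith)
    rw [← div_le_iff₀' k0, ← ENNReal.ofReal_le_iff_le_toReal
      ((ub ω).trans_lt ENNReal.ofReal_lt_top).ne]
    refine le_trans (ENNReal.ofReal_le_ofReal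
      (?_ : _ ≤ Real.exp (-(n * -Real.log t) + n * Δ))) ?_
    · have e : (221 / 200 : ℝ) ≤ Real.exp (1 / 10) := by
        linarith [Real.quadratic_le_exp_of_nonneg (show (0 : ℝ) ≤ 1 / 10 by norm_num)]
      rw [div_eq_mul_inv, ← inv_pow, inv_div, show -(n * -Real.log t) + n * Δ =
        n * (Δ - 1 / 10) + n * Real.log t + n * (1 / 10) by ring, Real.exp_add, Real.exp_add,
        Real.exp_nat_mul (Real.log t), Real.exp_log t1, Real.exp_nat_mul (1 / 10)]
      gcongr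
    rw [← EReal.exp_coe, EReal.exp_le_exp_iff, EReal.coe_add, EReal.coe_neg, EReal.coe_mul]
    exact add_le_add_left (EReal.neg_le_neg_iff.2 (mul_le_mul_of_nonneg_left this n0)) _
  · have := sep_bound (thmM _ (hG.1.smul (by norm_num : (0 : ℝ) ≤ 200 / 221)) (polar_neg hG) n) hσ
    rwa [tp_rsmul, smul_mul_assoc, ← mul_smul_comm] at this

end Pool.Agent.MP_47bb2a_mp.H42
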